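import Pool.Agent.Lib.MP_a7207a_co.Game

/-!
# The configurations: four generic points and two coplanar lines in rank five
-/

set_option linter.unusedSectionVars false

namespace Pool.Agent.Lib.MP_a7207a_co

open Set Matroid Function Module

/-- The ground set: four generic points, eight points on a first line, eight points on a second
line. -/
abbrev E := Fin 4 ⊕ (Fin 8 ⊕ Fin 8)

/-- Points of the frame. -/
abbrev e1 (j : Fin 4) : E := Sum.inl j
/-- Points of the first line. -/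
abbrev e2 (t : Fin 8) : E := Sum.inr (Sum.inl t)
/-- Points of the second line. -/
abbrev e3 (s : Fin 8) : E := Sum.inr (Sum.inr s)

/-- The parameter of a point on a line. -/
def par (t : Fin 8) : ℚ := (t.val : ℚ) + 1

lemma par_pos (t : Fin 8) : 0 < par t := by
  unfold par; positivity

lemma par_le (t : Fin 8) : par t ≤ 8 := by
  have h : t.val ≤ 7 := by omega
  have : (t.val : ℚ) ≤ 7 := by exact_mod_cast h
  unfold par; linarith

lemma one_le_par (t : Fin 8) : 1 ≤ par t := by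
  unfold par
  have : (0 : ℚ) ≤ t.val := Nat.cast_nonneg _
  linarith

lemma par_inj {t t' : Fin 8} (h : t ≠ t') : par t ≠ par t' := by
  intro h'
  apply h
  unfold par at h'
  have : (t.val : ℚ) = t'.val := by linarith
  exact Fin.ext (by exact_mod_cast this)

/-- The space `ℚ ⊕ ℚ^4`. -/
abbrev V := ℚ × (Fin 4 → ℚ)

/-- The linear map with `Φ (single (e1 j)) = (0, δ_j)`, `Φ (single (e2 t)) = (1, par t • 1)`,
`Φ (single (e3 s)) = (1, κ + par s • σ)`. -/
def Phi (κ σ : Fin 4 → ℚ) : (E → ℚ) →ₗ[ℚ] V where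
  toFun c := (∑ t, c (e2 t) + ∑ s, c (e3 s),
    fun j => c (e1 j) + ∑ t, par t * c (e2 t) + κ j * ∑ s, c (e3 s) + σ j * ∑ s, par s * c (e3 s))
  map_add' c d := by
    ext
    · simp only [Pi.add_apply, Finset.sum_add_distrib, Prod.fst_add]
      ring
    · simp only [Pi.add_apply, Finset.sum_add_distrib, Prod.snd_add, mul_add]
      ring
  map_smul' r c := by
    ext
    · simp only [Pi.smul_apply, smul_eq_mul, ← Finset.mul_sum, Prod.smul_fst, RingHom.id_apply]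
      ring
    · simp only [Pi.smul_apply, smul_eq_mul, Prod.smul_snd, RingHom.id_apply,
        mul_left_comm _ r, ← Finset.mul_sum]
      ring

lemma Phi_fst (κ σ : Fin 4 → ℚ) (c : E → ℚ) :
    (Phi κ σ c).1 = ∑ t, c (e2 t) + ∑ s, c (e3 s) := rfl

lemma Phi_snd (κ σ : Fin 4 → ℚ) (c : E → ℚ) (j : Fin 4) :
    (Phi κ σ c).2 j = c (e1 j) + ∑ t, par t * c (e2 t) + κ j * ∑ s, c (e3 s) +
      σ j * ∑ s, par s * c (e3 s) := rfl

/-- The matrices. -/
def mat (κ σ : Fin 4 → ℚ) : Matrix (Fin 5) E ℚ :=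
  fun i => Fin.cases
    (Sum.elim (fun _ => 0) (fun _ => 1))
    (fun j => Sum.elim (fun l => if l = j then 1 else 0)
      (Sum.elim (fun t => par t) (fun s => κ j + par s * σ j))) i

lemma mem_dep_mat {κ σ : Fin 4 → ℚ} {c : E → ℚ} : c ∈ dep (mat κ σ) ↔ Phi κ σ c = 0 := by
  rw [mem_dep']
  have h0 : ∑ j, mat κ σ 0 j * c j = (Phi κ σ c).1 := by
    rw [Phi_fst]
    simp [mat, Fintype.sum_sum_type]
  have h1 : ∀ i : Fin 4, ∑ j, mat κ σ i.succ j * c j = (Phi κ σ c).2 i := by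
    intro i
    rw [Phi_snd]
    simp only [mat, Fin.cases_succ, Fintype.sum_sum_type, Sum.elim_inl, Sum.elim_inr, ite_mul,
      one_mul, zero_mul, Finset.sum_ite_eq', Finset.mem_univ, if_true]
    have h2 : ∑ s, (κ i + par s * σ i) * c (Sum.inr (Sum.inr s)) =
        κ i * ∑ s, c (e3 s) + σ i * ∑ s, par s * c (e3 s) := by
      rw [Finset.mul_sum, Finset.mul_sum, ← Finset.sum_add_distrib]
      exact Finset.sum_congr rfl fun s _ => by ring
    rw [h2]
    ring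
  constructor
  · intro h
    ext
    · rw [← h0]; exact h 0
    · rw [← h1]; exact h _
  · intro h i
    refine Fin.cases ?_ (fun j => ?_) i
    · rw [h0, h]; rfl
    · rw [h1, h]; rfl

lemma dep_mat (κ σ : Fin 4 → ℚ) : dep (mat κ σ) = LinearMap.ker (Phi κ σ) := by
  ext c
  rw [mem_dep_mat, LinearMap.mem_ker]

/-! ### Spans -/

/-- The span of the vectors attached to `Y`. -/
def Sp (κ σ : Fin 4 → ℚ) (Y : Set E) : Submodule ℚ V := (Sup ℚ Y).map (Phi κ σ)

/-- The vector of an element. -/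
def vec (κ σ : Fin 4 → ℚ) (e : E) : V := Phi κ σ (Pi.single e 1)

lemma vec_e1 (κ σ : Fin 4 → ℚ) (j : Fin 4) : vec κ σ (e1 j) = (0, Pi.single j 1) := by
  ext
  · simp [vec, Phi_fst]
  · rename_i i
    simp [vec, Phi_snd, Pi.single_apply]

lemma vec_e2 (κ σ : Fin 4 → ℚ) (t : Fin 8) : vec κ σ (e2 t) = (1, fun _ => par t) := by
  ext
  · simp [vec, Phi_fst, Pi.single_apply]
  · simp [vec, Phi_snd, Pi.single_apply]

lemma vec_e3 (κ σ : Fin 4 → ℚ) (s : Fin 8) :
    vec κ σ (e3 s) = (1, fun j => κ j + par s * σ j) := by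
  ext
  · simp [vec, Phi_fst, Pi.single_apply]
  · simp [vec, Phi_snd, Pi.single_apply]
    ring

lemma single_mem_Sup {Y : Set E} {e : E} (he : e ∈ Y) : (Pi.single e (1 : ℚ) : E → ℚ) ∈ Sup ℚ Y := by
  intro i hi
  have : i ≠ e := fun h => hi (h ▸ he)
  simp [this]

lemma vec_mem_Sp {κ σ : Fin 4 → ℚ} {Y : Set E} {e : E} (he : e ∈ Y) : vec κ σ e ∈ Sp κ σ Y :=
  ⟨_, single_mem_Sup he, rfl⟩

lemma Sp_mono {κ σ : Fin 4 → ℚ} {Y Z : Set E} (h : Y ⊆ Z) : Sp κ σ Y ≤ Sp κ σ Z :=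
  Submodule.map_mono (Sup_mono h)

lemma frame_mem {κ σ : Fin 4 → ℚ} {Y : Set E} (x : Fin 4 → ℚ) :
    ((0, {j | e1 j ∈ Y}.indicator x) : V) ∈ Sp κ σ Y := by
  classical
  refine ⟨Sum.elim ({j | e1 j ∈ Y}.indicator x) 0, ?_, ?_⟩
  · intro i hi
    rcases i with j | i
    · simp only [Sum.elim_inl]
      exact Set.indicator_of_notMem (show j ∉ {j | e1 j ∈ Y} from hi) x
    · rfl
  · ext
    · simp [Phi_fst]
    · simp [Phi_snd]

lemma line2_mem {κ σ : Fin 4 → ℚ} {Y : Set E} {t t' : Fin 8} (h : t ≠ t') (ht : e2 t ∈ Y)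
    (ht' : e2 t' ∈ Y) : ((0, fun _ => 1) : V) ∈ Sp κ σ Y ∧ ((1, 0) : V) ∈ Sp κ σ Y := by
  have h1 := vec_mem_Sp (κ := κ) (σ := σ) ht
  have h2 := vec_mem_Sp (κ := κ) (σ := σ) ht'
  rw [vec_e2] at h1 h2
  have h3 := sub_ne_zero.2 (par_inj h)
  have h4 : ((0, fun _ => 1) : V) ∈ Sp κ σ Y := by
    have h5 := (Sp κ σ Y).smul_mem (par t - par t')⁻¹ ((Sp κ σ Y).sub_mem h1 h2)
    convert h5 using 1
    ext
    · simp
    · simp [h3]
  refine ⟨h4, ?_⟩
  have h5 := (Sp κ σ Y).sub_mem h1 ((Sp κ σ Y).smul_mem (par t) h4)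
  convert h5 using 1
  ext
  · simp
  · simp

lemma line3_mem {κ σ : Fin 4 → ℚ} {Y : Set E} {s s' : Fin 8} (h : s ≠ s') (hs : e3 s ∈ Y)
    (hs' : e3 s' ∈ Y) : ((0, σ) : V) ∈ Sp κ σ Y ∧ ((1, κ) : V) ∈ Sp κ σ Y := by
  have h1 := vec_mem_Sp (κ := κ) (σ := σ) hs
  have h2 := vec_mem_Sp (κ := κ) (σ := σ) hs'
  rw [vec_e3] at h1 h2
  have h3 := sub_ne_zero.2 (par_inj h)
  have h4 : ((0, σ) : V) ∈ Sp κ σ Y := by
    have h5 := (Sp κ σ Y).smul_mem (par s - par s')⁻¹ ((Sp κ σ Y).sub_mem h1 h2)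
    convert h5 using 1
    ext
    · simp
    · simp only [Prod.smul_snd, Prod.snd_sub, Pi.smul_apply, Pi.sub_apply, smul_eq_mul]
      field_simp
      ring
  refine ⟨h4, ?_⟩
  have h5 := (Sp κ σ Y).sub_mem h1 ((Sp κ σ Y).smul_mem (par s) h4)
  convert h5 using 1
  ext
  · simp
  · simp

/-- The assumption on the parameters. -/
structure OK (κ σ β : Fin 4 → ℚ) : Prop where
  alt : (κ = 0 ∧ σ = β) ∨ (σ = 1 ∧ κ = β)
  inj : Injective β
  h1 : ∀ j, σ j ≠ 0
  h2 : ∀ j s t, κ j + par s * σ j ≠ par t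
  h3 : ∀ j l s, j ≠ l → κ j + par s * σ j ≠ κ l + par s * σ l
  h4 : ∀ j l t, j ≠ l → (κ j - par t) * σ l ≠ (κ l - par t) * σ j

/-- Two independent vectors in the intersection of the spans. -/
def Good (κ σ : Fin 4 → ℚ) (Y : Set E) : Prop :=
  ∃ u₁ u₂ : V, u₁ ∈ Sp κ σ Y ∧ u₁ ∈ Sp κ σ Yᶜ ∧ u₂ ∈ Sp κ σ Y ∧ u₂ ∈ Sp κ σ Yᶜ ∧
    ∀ x y : ℚ, x • u₁ + y • u₂ = 0 → x = 0 ∧ y = 0

lemma Good.compl {κ σ : Fin 4 → ℚ} {Y : Set E} (h : Good κ σ Yᶜ) : Good κ σ Y := by
  obtain ⟨u₁, u₂, h1, h2, h3, h4, h5⟩ := h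
  rw [compl_compl] at h2 h4
  exact ⟨u₁, u₂, h2, h1, h4, h3, h5⟩

lemma pigeon (p : Fin 8 → Prop) :
    (∃ t t', t ≠ t' ∧ p t ∧ p t') ∨ (∃ t t', t ≠ t' ∧ ¬ p t ∧ ¬ p t') := by
  by_cases h0 : p 0 <;> by_cases h1 : p 1 <;> by_cases h2 : p 2
  · exact Or.inl ⟨0, 1, by decide, h0, h1⟩
  · exact Or.inl ⟨0, 1, by decide, h0, h1⟩
  · exact Or.inl ⟨0, 2, by decide, h0, h2⟩
  · exact Or.inr ⟨1, 2, by decide, h1, h2⟩
  · exact Or.inl ⟨1, 2, by decide, h1, h2⟩
  · exact Or.inr ⟨0, 2, by decide, h0, h2⟩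
  · exact Or.inr ⟨0, 1, by decide, h0, h1⟩
  · exact Or.inr ⟨0, 1, by decide, h0, h1⟩

/-- Splitting a frame vector over `Y` and its complement. -/
lemma frame_sub {κ σ : Fin 4 → ℚ} {Y : Set E} {x : Fin 4 → ℚ} (hx : ((0, x) : V) ∈ Sp κ σ Y) :
    ((0, {j | e1 j ∈ Yᶜ}.indicator x) : V) ∈ Sp κ σ Y := by
  have h1 := (Sp κ σ Y).sub_mem hx (frame_mem (κ := κ) (σ := σ) (Y := Y) x)
  convert h1 using 1
  ext
  · simp
  · rename_i j
    by_cases hj : e1 j ∈ Y
    · simp [hj]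
    · simp [hj]

/-- The case where the first line lies mostly in `Y`. -/
lemma good_aux {κ σ β : Fin 4 → ℚ} (H : OK κ σ β) {Y : Set E} {t t' : Fin 8} (htt : t ≠ t')
    (ht : e2 t ∈ Y) (ht' : e2 t' ∈ Y) (hY : ∃ e ∈ Yᶜ, ∃ e' ∈ Yᶜ, e ≠ e') : Good κ σ Y := by
  obtain ⟨ha, hb⟩ := line2_mem (κ := κ) (σ := σ) htt ht ht'
  rcases pigeon (fun s => e3 s ∈ Y) with ⟨s, s', hss, hs, hs'⟩ | ⟨s, s', hss, hs, hs'⟩
  · -- both lines lie mostly in `Y`
    obtain ⟨hc, hd⟩ := line3_mem (κ := κ) (σ := σ) hss hs hs'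
    have hβ : ((0, β) : V) ∈ Sp κ σ Y := by
      rcases H.alt with ⟨-, h⟩ | ⟨-, h⟩
      · rw [← h]; exact hc
      · rw [← h]
        have := (Sp κ σ Y).sub_mem hd hb
        convert this using 1
        ext
        · simp
        · simp
    have hplane : ∀ z : Fin 8 ⊕ Fin 8, vec κ σ (Sum.inr z) ∈ Sp κ σ Y := by
      rintro (z | z)
      · have := (Sp κ σ Y).add_mem hb ((Sp κ σ Y).smul_mem (par z) ha)
        convert this using 1
        rw [vec_e2]
        ext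
        · simp
        · simp
      · have := (Sp κ σ Y).add_mem hd ((Sp κ σ Y).smul_mem (par z) hc)
        convert this using 1
        rw [vec_e3]
        ext
        · simp
        · simp
    have hfst : ∀ z : Fin 8 ⊕ Fin 8, (vec κ σ (Sum.inr z)).1 = 1 := by
      rintro (z | z)
      · rw [vec_e2]
      · rw [vec_e3]
    have h1S : ∀ j, e1 j ∈ Yᶜ → ∀ z : Fin 8 ⊕ Fin 8, (Sum.inr z : E) ∈ Yᶜ → Good κ σ Y := by
      intro j hj z hz
      refine ⟨vec κ σ (Sum.inr z), (0, {j | e1 j ∈ Yᶜ}.indicator (fun _ => 1)), hplane z,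
        vec_mem_Sp hz, frame_sub ha, frame_mem _, ?_⟩
      intro x y hxy
      have h3 := congrArg Prod.fst hxy
      simp only [Prod.fst_add, Prod.smul_fst, hfst, smul_eq_mul, mul_one, mul_zero, add_zero,
        Prod.fst_zero] at h3
      have h4 := congrFun (congrArg Prod.snd hxy) j
      rw [h3, zero_smul, zero_add] at h4
      simp only [Prod.smul_snd, Pi.smul_apply, smul_eq_mul, Prod.snd_zero, Pi.zero_apply] at h4
      rw [Set.indicator_of_mem (show j ∈ {j | e1 j ∈ Yᶜ} from hj), mul_one] at h4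
      exact ⟨h3, h4⟩
    obtain ⟨e, he, e', he', hne⟩ := hY
    rcases e with j | z <;> rcases e' with j' | z'
    · -- both in the frame
      refine ⟨(0, {j | e1 j ∈ Yᶜ}.indicator (fun _ => 1)), (0, {j | e1 j ∈ Yᶜ}.indicator β),
        frame_sub ha, frame_mem _, frame_sub hβ, frame_mem _, ?_⟩
      intro x y hxy
      have h4 := congrFun (congrArg Prod.snd hxy) j
      have h5 := congrFun (congrArg Prod.snd hxy) j'
      simp only [Prod.snd_add, Prod.smul_snd, Pi.add_apply, Pi.smul_apply, smul_eq_mul,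
        Prod.snd_zero, Pi.zero_apply] at h4 h5
      rw [Set.indicator_of_mem (show j ∈ {j | e1 j ∈ Yᶜ} from he),
        Set.indicator_of_mem (show j ∈ {j | e1 j ∈ Yᶜ} from he), mul_one] at h4
      rw [Set.indicator_of_mem (show j' ∈ {j | e1 j ∈ Yᶜ} from he'),
        Set.indicator_of_mem (show j' ∈ {j | e1 j ∈ Yᶜ} from he'), mul_one] at h5
      have h6 : y * (β j - β j') = 0 := by linarith
      have h7 : β j - β j' ≠ 0 := sub_ne_zero.2 (fun h => hne (by rw [H.inj h]))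
      have h8 : y = 0 := (mul_eq_zero.1 h6).resolve_right h7
      rw [h8, zero_mul, add_zero] at h4
      exact ⟨h4, h8⟩
    · exact h1S j he z' he'
    · exact h1S j' he' z he
    · refine ⟨vec κ σ (Sum.inr z), vec κ σ (Sum.inr z'), hplane z, vec_mem_Sp he, hplane z',
        vec_mem_Sp he', ?_⟩
      intro x y hxy
      have h3 := congrArg Prod.fst hxy
      simp only [Prod.fst_add, Prod.smul_fst, hfst, smul_eq_mul, mul_one,
        Prod.fst_zero] at h3
      have hy : y = -x := by linarith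
      have h4 := congrFun (congrArg Prod.snd hxy) 0
      simp only [Prod.snd_add, Prod.smul_snd, Pi.add_apply, Pi.smul_apply, smul_eq_mul,
        Prod.snd_zero, Pi.zero_apply] at h4
      have key : (vec κ σ (Sum.inr z)).2 0 ≠ (vec κ σ (Sum.inr z')).2 0 := by
        rcases z with z | z <;> rcases z' with z' | z'
        · rw [vec_e2, vec_e2]
          exact par_inj (fun h => hne (by rw [h]))
        · rw [vec_e2, vec_e3]
          exact (H.h2 0 z' z).symm
        · rw [vec_e2, vec_e3]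
          exact H.h2 0 z z'
        · rw [vec_e3, vec_e3]
          intro h
          simp only [add_right_inj] at h
          have := mul_right_cancel₀ (H.h1 0) h
          exact par_inj (fun h => hne (by rw [h])) this
      have h5 : x * ((vec κ σ (Sum.inr z)).2 0 - (vec κ σ (Sum.inr z')).2 0) = 0 := by
        rw [hy] at h4; linarith
      have h6 : x = 0 := (mul_eq_zero.1 h5).resolve_right (sub_ne_zero.2 key)
      exact ⟨h6, by rw [hy, h6, neg_zero]⟩
  · -- the second line lies mostly in the complement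
    have hs1 : e3 s ∈ Yᶜ := hs
    have hs2 : e3 s' ∈ Yᶜ := hs'
    obtain ⟨hc, hd⟩ := line3_mem (κ := κ) (σ := σ) hss hs1 hs2
    have hu1 : ((1, {j | e1 j ∈ Y}.indicator κ) : V) ∈ Sp κ σ Y := by
      have := (Sp κ σ Y).add_mem hb (frame_mem (κ := κ) (σ := σ) (Y := Y) κ)
      convert this using 1
      ext
      · simp
      · simp
    have hu1' : ((1, {j | e1 j ∈ Y}.indicator κ) : V) ∈ Sp κ σ Yᶜ := by
      have := (Sp κ σ Yᶜ).sub_mem hd (frame_mem (κ := κ) (σ := σ) (Y := Yᶜ) κ)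
      convert this using 1
      ext
      · simp
      · rename_i j
        by_cases hj : e1 j ∈ Y
        · simp [hj]
        · simp [hj]
    by_cases hS : ∃ j, e1 j ∈ Yᶜ
    · obtain ⟨j, hj⟩ := hS
      refine ⟨_, (0, {j | e1 j ∈ Yᶜ}.indicator (fun _ => 1)), hu1, hu1', frame_sub ha,
        frame_mem _, ?_⟩
      intro x y hxy
      have h3 := congrArg Prod.fst hxy
      simp only [Prod.fst_add, Prod.smul_fst, smul_eq_mul, mul_one, mul_zero, add_zero,
        Prod.fst_zero] at h3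
      have h4 := congrFun (congrArg Prod.snd hxy) j
      rw [h3, zero_smul, zero_add] at h4
      simp only [Prod.smul_snd, Pi.smul_apply, smul_eq_mul, Prod.snd_zero, Pi.zero_apply] at h4
      rw [Set.indicator_of_mem (show j ∈ {j | e1 j ∈ Yᶜ} from hj), mul_one] at h4
      exact ⟨h3, h4⟩
    · push Not at hS
      have hall : {j | e1 j ∈ Y} = univ := by
        ext j
        simp only [Set.mem_ofPred_eq, Set.mem_univ, iff_true]
        by_contra hj
        exact hS j hj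
      have hσ : ((0, σ) : V) ∈ Sp κ σ Y := by
        have := frame_mem (κ := κ) (σ := σ) (Y := Y) σ
        rwa [hall, Set.indicator_univ] at this
      refine ⟨_, (0, σ), hu1, hu1', hσ, hc, ?_⟩
      intro x y hxy
      have h3 := congrArg Prod.fst hxy
      simp only [Prod.fst_add, Prod.smul_fst, smul_eq_mul, mul_one, mul_zero, add_zero,
        Prod.fst_zero] at h3
      have h4 := congrFun (congrArg Prod.snd hxy) 0
      rw [h3, zero_smul, zero_add] at h4
      simp only [Prod.smul_snd, Pi.smul_apply, smul_eq_mul, Prod.snd_zero, Pi.zero_apply] at h4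
      exact ⟨h3, (mul_eq_zero.1 h4).resolve_right (H.h1 0)⟩

/-- The configurations are 3-connected. -/
theorem good {κ σ β : Fin 4 → ℚ} (H : OK κ σ β) {Y : Set E} (hY : ∃ e ∈ Y, ∃ e' ∈ Y, e ≠ e')
    (hY' : ∃ e ∈ Yᶜ, ∃ e' ∈ Yᶜ, e ≠ e') : Good κ σ Y := by
  rcases pigeon (fun t => e2 t ∈ Y) with ⟨t, t', htt, ht, ht'⟩ | ⟨t, t', htt, ht, ht'⟩
  · exact good_aux H htt ht ht' hY'
  · apply Good.compl
    exact good_aux H htt ht ht' (by rwa [compl_compl])

/-- No coloops. -/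
lemma vec_mem_compl {κ σ : Fin 4 → ℚ} (e : E) : vec κ σ e ∈ Sp κ σ {e}ᶜ := by
  rcases e with j | t | s
  · have h1 := (line2_mem (κ := κ) (σ := σ) (Y := {e1 j}ᶜ) (t := 0) (t' := 1) (by decide)
      (by simp) (by simp)).1
    have h2 := (Sp κ σ {e1 j}ᶜ).sub_mem h1
      (frame_mem (κ := κ) (σ := σ) (Y := {e1 j}ᶜ) (fun _ => 1))
    convert h2 using 1
    rw [vec_e1]
    ext
    · simp
    · rename_i l
      by_cases hl : l = j
      · subst hl; simp
      · simp [hl]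
  · obtain ⟨t₁, t₂, h12, h1, h2⟩ : ∃ t₁ t₂ : Fin 8, t₁ ≠ t₂ ∧ t₁ ≠ t ∧ t₂ ≠ t := by
      revert t; decide
    obtain ⟨ha, hb⟩ := line2_mem (κ := κ) (σ := σ) (Y := {e2 t}ᶜ) h12 (by simpa using h1)
      (by simpa using h2)
    have := (Sp κ σ {e2 t}ᶜ).add_mem hb ((Sp κ σ {e2 t}ᶜ).smul_mem (par t) ha)
    convert this using 1
    rw [vec_e2]
    ext
    · simp
    · simp
  · obtain ⟨t₁, t₂, h12, h1, h2⟩ : ∃ t₁ t₂ : Fin 8, t₁ ≠ t₂ ∧ t₁ ≠ s ∧ t₂ ≠ s := by
      revert s; decide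
    obtain ⟨ha, hb⟩ := line3_mem (κ := κ) (σ := σ) (Y := {e3 s}ᶜ) h12 (by simpa using h1)
      (by simpa using h2)
    have := (Sp κ σ {e3 s}ᶜ).add_mem hb ((Sp κ σ {e3 s}ᶜ).smul_mem (par s) ha)
    convert this using 1
    rw [vec_e3]
    ext
    · simp
    · simp

/-- The main connectivity lemma. -/
lemma cross {κ σ β : Fin 4 → ℚ} (H : OK κ σ β) {A₁ : Submodule ℚ V} {f : V}
    (hA : A₁ ≤ Submodule.span ℚ {f}) {Y : Set E} (hY : ∃ e ∈ Y, vec κ σ e ∉ A₁)
    (hY' : ∃ e ∈ Yᶜ, vec κ σ e ∉ A₁) : ∃ u, u ∈ Sp κ σ Y ∧ u ∈ Sp κ σ Yᶜ ∧ u ∉ A₁ := by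
  obtain ⟨e, he, heA⟩ := hY
  obtain ⟨e', he', heA'⟩ := hY'
  by_cases h1 : ∃ a ∈ Y, ∃ b ∈ Y, a ≠ b
  · by_cases h2 : ∃ a ∈ Yᶜ, ∃ b ∈ Yᶜ, a ≠ b
    · obtain ⟨u₁, u₂, h3, h4, h5, h6, h7⟩ := good H h1 h2
      by_cases h8 : u₁ ∈ A₁
      · by_cases h9 : u₂ ∈ A₁
        · exfalso
          obtain ⟨x, hx⟩ := Submodule.mem_span_singleton.1 (hA h8)
          obtain ⟨y, hy⟩ := Submodule.mem_span_singleton.1 (hA h9)
          have h10 := h7 y (-x) (by rw [← hx, ← hy]; module)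
          have hx0 : x = 0 := by linarith [h10.2]
          rw [hx0, zero_smul] at hx
          have h11 := h7 1 0 (by rw [← hx]; simp)
          exact one_ne_zero h11.1
        · exact ⟨u₂, h5, h6, h9⟩
      · exact ⟨u₁, h3, h4, h8⟩
    · push Not at h2
      refine ⟨vec κ σ e', ?_, vec_mem_Sp he', heA'⟩
      have : ({e'}ᶜ : Set E) ⊆ Y := by
        intro a ha
        by_contra haY
        exact ha (h2 a haY e' he')
      exact Sp_mono this (vec_mem_compl e')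
  · push Not at h1
    refine ⟨vec κ σ e, vec_mem_Sp he, ?_, heA⟩
    have : ({e}ᶜ : Set E) ⊆ Yᶜ := by
      intro a ha haY
      exact ha (h1 a haY e he)
    exact Sp_mono this (vec_mem_compl e)

lemma indicator_Phi {κ σ : Fin 4 → ℚ} {Y : Set E} {c : E → ℚ} :
    Phi κ σ (Y.indicator c) ∈ Sp κ σ Y :=
  ⟨_, fun _ hi => Set.indicator_of_notMem hi c, rfl⟩

/-- Connectivity after a c*-step. -/
theorem conn_c {κ σ β : Fin 4 → ℚ} (H : OK κ σ β) {A₁ : Submodule ℚ V} {f : V}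
    (hA : A₁ ≤ Submodule.span ℚ {f}) :
    Conn (A₁.comap (Phi κ σ)) {e | vec κ σ e ∉ A₁} := by
  intro Y hY hYn hYne
  set K : Set E := {e | vec κ σ e ∉ A₁} with hK
  -- the partition `Y ∪ Kᶜ`, `K \ Y`
  have hY1 : ∃ e ∈ Y ∪ Kᶜ, vec κ σ e ∉ A₁ := by
    obtain ⟨e, he⟩ := hYn
    exact ⟨e, Or.inl he, hY he⟩
  have hY2 : ∃ e ∈ (Y ∪ Kᶜ)ᶜ, vec κ σ e ∉ A₁ := by
    have : ∃ e ∈ K, e ∉ Y := by
      by_contra hcon
      push Not at hcon
      exact hYne (Subset.antisymm hY hcon)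
    obtain ⟨e, he, heY⟩ := this
    refine ⟨e, ?_, he⟩
    rintro (h | h)
    · exact heY h
    · exact h he
  obtain ⟨u, ⟨c₁, hc₁, hu₁⟩, ⟨c₂, hc₂, hu₂⟩, huA⟩ := cross H hA hY1 hY2
  -- remove the elements outside `K`
  have hout : Phi κ σ ((Kᶜ).indicator c₁) ∈ A₁ := by
    have h1 : (Kᶜ).indicator c₁ = ∑ e, ((Kᶜ).indicator c₁ e) • Pi.single e (1 : ℚ) := by
      funext i
      rw [Finset.sum_apply]
      simp [Pi.single_apply]
    rw [h1, map_sum]
    refine Submodule.sum_mem _ fun e _ => ?_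
    rw [map_smul]
    by_cases he : e ∈ Kᶜ
    · apply Submodule.smul_mem
      have : ¬ (vec κ σ e ∉ A₁) := he
      rw [not_not] at this
      exact this
    · rw [Set.indicator_of_notMem he, zero_smul]; exact A₁.zero_mem
  have hsplit : c₁ = K.indicator c₁ + (Kᶜ).indicator c₁ := by
    rw [Set.indicator_self_add_compl]
  refine ⟨K.indicator c₁ - c₂, ?_, ?_, ?_⟩
  · rw [Submodule.mem_comap, map_sub, hu₂]
    have h1 : Phi κ σ (K.indicator c₁) = u - Phi κ σ ((Kᶜ).indicator c₁) := by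
      rw [← hu₁]
      conv_rhs => rw [hsplit]
      rw [map_add, ← hsplit]
      abel
    rw [h1]
    have : u - Phi κ σ ((Kᶜ).indicator c₁) - u = - Phi κ σ ((Kᶜ).indicator c₁) := by abel
    rw [this]
    exact A₁.neg_mem hout
  · intro i hi
    rw [Pi.sub_apply, Set.indicator_of_notMem hi, hc₂ i, sub_zero]
    intro h
    exact h (Or.inr hi)
  · rw [Submodule.mem_comap]
    have h2 : Y.indicator (K.indicator c₁ - c₂) = K.indicator c₁ := by
      funext i
      by_cases hi : i ∈ Y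
      · rw [Set.indicator_of_mem hi, Pi.sub_apply, hc₂ i (fun h => h (Or.inl hi)), sub_zero]
      · rw [Set.indicator_of_notMem hi]
        by_cases hiK : i ∈ K
        · rw [Set.indicator_of_mem hiK, hc₁ i]
          rintro (h | h)
          · exact hi h
          · exact h hiK
        · rw [Set.indicator_of_notMem hiK]
    rw [h2]
    intro h3
    apply huA
    rw [← hu₁, hsplit, map_add]
    exact A₁.add_mem h3 hout

end Pool.Agent.Lib.MP_a7207a_co
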