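import Mathlib

/-!
# Matroid and matrix c*d*-depth

The definitions of the two depth parameters, as in the problem file.
-/

namespace Pool.Agent.Lib.MP_a7207a_co

open Set Matroid

/-! ### Connectivity -/

/-- `X` is a set of elements of `M` any two of which lie on a common circuit. -/
def Linked {α : Type*} (M : Matroid α) (X : Set α) : Prop :=
  X ⊆ M.E ∧ ∀ x ∈ X, ∀ y ∈ X, x ≠ y → ∃ C, M.IsCircuit C ∧ x ∈ C ∧ y ∈ C

/-- The components of `M`: the maximal sets of elements any two of which lie on a common
circuit. -/
def IsComponent {α : Type*} (M : Matroid α) (X : Set α) : Prop := Maximal (Linked M) X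

/-- `M` is connected: its ground set is a component (that is, any two elements lie on a common
circuit). -/
def IsConnected {α : Type*} (M : Matroid α) : Prop := IsComponent M M.E

/-! ### The matroid operations and the matroid depth -/

/-- `M'` is a c*-transformation of `M`: there is a matroid `N` with one additional element `f`
(`f = none`) such that `M = N ∖ f` and `M' = N / f`. -/
def IsCTransformation {α : Type*} (M M' : Matroid α) : Prop :=
  ∃ N : Matroid (Option α), none ∈ N.E ∧
    M = (N ＼ {none}).comap some ∧ M' = (N ／ {none}).comap some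

/-- `M'` is a d*-transformation of `M`: there is a matroid `N` with one additional element `f`
(`f = none`) such that `M = N / f` and `M' = N ∖ f`. -/
def IsDTransformation {α : Type*} (M M' : Matroid α) : Prop :=
  ∃ N : Matroid (Option α), none ∈ N.E ∧
    M = (N ／ {none}).comap some ∧ M' = (N ＼ {none}).comap some

/-- `MatroidDepthLE M k` : the c*d*-depth of `M` is at most `k`. -/
inductive MatroidDepthLE {α : Type*} : Matroid α → ℕ → Prop
  /-- Matroids with at most one element have depth `1`. -/
  | small (M : Matroid α) (k : ℕ) (h : M.E.Subsingleton) : MatroidDepthLE M (k + 1)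
  /-- The depth of a disconnected matroid is the maximum over its components. -/
  | split (M : Matroid α) (k : ℕ) (h : ¬ IsConnected M)
      (h' : ∀ X, IsComponent M X → MatroidDepthLE (M ↾ X) k) : MatroidDepthLE M k
  /-- The depth of a connected matroid with at least two elements is one more than the minimum
  over its c*-transformations and d*-transformations different from itself. -/
  | step (M M' : Matroid α) (k : ℕ) (h : IsConnected M) (h₁ : ¬ M.E.Subsingleton)
      (h₂ : IsCTransformation M M' ∨ IsDTransformation M M') (h₃ : M' ≠ M)
      (h' : MatroidDepthLE M' k) : MatroidDepthLE M (k + 1)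

/-- The c*d*-depth of a matroid. -/
noncomputable def matroidDepth {α : Type*} (M : Matroid α) : ℕ := sInf {k | MatroidDepthLE M k}

/-! ### Column matroids -/

section Col

variable {F : Type*} [Field F] {α : Type*}

lemma indep_aug [Finite α] {m : ℕ} (v : α → Fin m → F) {I J : Set α}
    (hI : LinearIndepOn F v I) (hJ : LinearIndepOn F v J) (hlt : I.ncard < J.ncard) :
    ∃ e ∈ J, e ∉ I ∧ LinearIndepOn F v (insert e I) := by
  have hrank : ∀ I : Set α, LinearIndepOn F v I →
      Module.finrank F (Submodule.span F (v '' I)) = I.ncard := by
    intro I hI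
    classical
    have hft := Fintype.ofFinite I
    have h1 := finrank_span_eq_card (R := F) (b := fun x : I => v x) hI
    rw [Set.image_eq_range, h1, ← Nat.card_eq_fintype_card]
    rfl
  by_contra hcon
  push Not at hcon
  have h1 : v '' J ⊆ Submodule.span F (v '' I) := by
    rintro _ ⟨e, he, rfl⟩
    by_cases heI : e ∈ I
    · exact Submodule.subset_span ⟨e, heI, rfl⟩
    · by_contra hns
      exact hcon e he heI (hI.insert hns)
  have h2 : Submodule.span F (v '' J) ≤ Submodule.span F (v '' I) := Submodule.span_le.2 h1
  have h3 := Submodule.finrank_mono h2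
  rw [hrank I hI, hrank J hJ] at h3
  omega

/-- The column matroid `M(A)` of a matrix: the ground set is the set of columns, and a set of
columns is independent iff it is linearly independent. -/
def colMatroid [Finite α] {m : ℕ} (A : Matrix (Fin m) α F) : Matroid α :=
  (IndepMatroid.ofFinite (E := Set.univ) Set.finite_univ
    (fun I => LinearIndepOn F (fun (j : α) (i : Fin m) => A i j) I)
    (linearIndepOn_empty F _) (fun _ _ hJ hIJ => hJ.mono hIJ)
    (fun _ _ hI hJ hlt => indep_aug _ hI hJ hlt)
    (fun I _ => Set.subset_univ I)).matroid

/-! ### The matrix operations and the matrix depth -/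

/-- `A'` arises from `A` by a c*-step: append a column `v`, pivot it to a unit vector by an
invertible row transformation `P`, and delete this column and the row of its nonzero entry. -/
def IsCStep {m : ℕ} (A : Matrix (Fin (m + 1)) α F) (A' : Matrix (Fin m) α F) : Prop :=
  ∃ (v : Fin (m + 1) → F) (P : Matrix (Fin (m + 1)) (Fin (m + 1)) F) (i : Fin (m + 1)),
    IsUnit P ∧ P.mulVec v = Pi.single i 1 ∧ A' = (P * A).submatrix i.succAbove id

/-- `A'` arises from `A` by a d*-step: append a new row `w`. -/
def IsDStep {m : ℕ} (A : Matrix (Fin m) α F) (A' : Matrix (Fin (m + 1)) α F) : Prop :=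
  ∃ w : α → F, A' = Matrix.of (Fin.snoc (fun i => A i) w)

/-- `MatrixDepthLE A S k` : the c*d*-depth of the matrix formed by the columns of `A` with index
in `S` is at most `k`.  The column matroid of this matrix is `colMatroid A ↾ S`. -/
inductive MatrixDepthLE {F : Type*} [Field F] {α : Type*} [Finite α] :
    ∀ {m : ℕ}, Matrix (Fin m) α F → Set α → ℕ → Prop
  /-- A matrix with at most one column has depth `1`. -/
  | small {m : ℕ} (A : Matrix (Fin m) α F) (S : Set α) (k : ℕ) (h : S.Subsingleton) :
      MatrixDepthLE A S (k + 1)
  /-- If the column matroid is disconnected, the depth is the maximum over the column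
  submatrices of its components. -/
  | split {m : ℕ} (A : Matrix (Fin m) α F) (S : Set α) (k : ℕ)
      (h : ¬ IsConnected (colMatroid A ↾ S))
      (h' : ∀ X, IsComponent (colMatroid A ↾ S) X → MatrixDepthLE A X k) : MatrixDepthLE A S k
  /-- If the column matroid is connected: a c*-step that changes the column matroid. -/
  | cstep {m : ℕ} (A : Matrix (Fin (m + 1)) α F) (A' : Matrix (Fin m) α F) (S : Set α) (k : ℕ)
      (h : IsConnected (colMatroid A ↾ S)) (h₁ : ¬ S.Subsingleton) (h₂ : IsCStep A A')
      (h₃ : colMatroid A' ↾ S ≠ colMatroid A ↾ S) (h' : MatrixDepthLE A' S k) :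
      MatrixDepthLE A S (k + 1)
  /-- If the column matroid is connected: a d*-step that changes the column matroid. -/
  | dstep {m : ℕ} (A : Matrix (Fin m) α F) (A' : Matrix (Fin (m + 1)) α F) (S : Set α) (k : ℕ)
      (h : IsConnected (colMatroid A ↾ S)) (h₁ : ¬ S.Subsingleton) (h₂ : IsDStep A A')
      (h₃ : colMatroid A' ↾ S ≠ colMatroid A ↾ S) (h' : MatrixDepthLE A' S k) :
      MatrixDepthLE A S (k + 1)

/-- The c*d*-depth of a matrix. -/
noncomputable def matrixDepth [Finite α] {m : ℕ} (A : Matrix (Fin m) α F) : ℕ :=
  sInf {k | MatrixDepthLE A Set.univ k}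

end Col

end Pool.Agent.Lib.MP_a7207a_co
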