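import Pool.Agent.Lib.MP_a7207a_co.Defs

section

/-!
# Linear dependencies among columns, circuits and connectivity
-/

set_option linter.unusedSectionVars false

namespace Pool.Agent.Lib.MP_a7207a_co

open Set Matroid Function

variable {F : Type*} [Field F] {α : Type*}

/-- Vectors supported in `X`. -/
def Sup (F : Type*) [Field F] {α : Type*} (X : Set α) : Submodule F (α → F) where
  carrier := {c | ∀ i, i ∉ X → c i = 0}
  add_mem' := by
    intro a b ha hb i hi
    rw [Pi.add_apply, ha i hi, hb i hi, add_zero]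
  zero_mem' := fun _ _ => rfl
  smul_mem' := by
    intro r a ha i hi
    rw [Pi.smul_apply, ha i hi, smul_zero]

lemma mem_Sup {X : Set α} {c : α → F} : c ∈ Sup F X ↔ ∀ i, i ∉ X → c i = 0 := Iff.rfl

lemma mem_Sup_iff {X : Set α} {c : α → F} : c ∈ Sup F X ↔ support c ⊆ X := by
  constructor
  · intro h i hi
    by_contra hX
    exact hi (h i hX)
  · intro h i hi
    by_contra hc
    exact hi (h hc)

lemma Sup_mono {X Y : Set α} (h : X ⊆ Y) : Sup F X ≤ Sup F Y :=
  fun _ hc i hi => hc i fun hX => hi (h hX)

lemma Sup_univ : Sup F (univ : Set α) = ⊤ := by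
  ext c
  simp [mem_Sup]

/-- Connectivity of a set of elements with respect to a space of words. -/
def Conn (L : Submodule F (α → F)) (K : Set α) : Prop :=
  ∀ Y ⊆ K, Y.Nonempty → Y ≠ K → ∃ c ∈ L, c ∈ Sup F K ∧ Y.indicator c ∉ L

/-- Words of minimal support. -/
structure MinWord (L : Submodule F (α → F)) (c : α → F) : Prop where
  mem : c ∈ L
  ne : c ≠ 0
  min : ∀ d ∈ L, d ≠ 0 → support d ⊆ support c → support d = support c

section Fin

variable [Finite α]

lemma ncard_lt_of_kill {c c' : α → F} (h : support c' ⊆ support c) {y : α} (hy : c y ≠ 0)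
    (hy' : c' y = 0) : (support c').ncard < (support c).ncard := by
  apply Set.ncard_lt_ncard _ (Set.toFinite _)
  refine ⟨h, fun h' => ?_⟩
  exact (h' hy : c' y ≠ 0) hy'

/-- Eliminate the coordinate `y` of `c` using `e`. -/
lemma support_elim {c e : α → F} (h : support e ⊆ support c) (y : α) :
    support (c - (c y / e y) • e) ⊆ support c := by
  intro i hi
  by_contra hc
  have h1 : c i = 0 := by simpa using hc
  have h2 : e i = 0 := by
    by_contra h2
    exact hc (h h2)
  apply hi
  rw [Pi.sub_apply, Pi.smul_apply, h1, h2, smul_zero, sub_zero]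

lemma exists_minWord {L : Submodule F (α → F)} (n : ℕ) :
    ∀ c ∈ L, (support c).ncard ≤ n → ∀ x, c x ≠ 0 →
      ∃ d, MinWord L d ∧ support d ⊆ support c ∧ d x ≠ 0 := by
  induction n with
  | zero =>
    intro c _ hn x hx
    have h1 : (support c).ncard = 0 := by omega
    rw [Set.ncard_eq_zero (Set.toFinite _)] at h1
    exact absurd hx (by
      have : x ∉ support c := by rw [h1]; exact Set.notMem_empty x
      simpa using this)
  | succ n ih =>
    intro c hc hn x hx
    by_cases hmin : MinWord L c
    · exact ⟨c, hmin, Subset.rfl, hx⟩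
    · have hc0 : c ≠ 0 := fun h => hx (by rw [h]; rfl)
      have : ∃ e ∈ L, e ≠ 0 ∧ support e ⊆ support c ∧ support e ≠ support c := by
        by_contra hcon
        push Not at hcon
        exact hmin ⟨hc, hc0, fun d hd hd0 hds => hcon d hd hd0 hds⟩
      obtain ⟨e, he, he0, hes, hne⟩ := this
      have hlt : (support e).ncard < (support c).ncard :=
        Set.ncard_lt_ncard ⟨hes, fun h => hne (Subset.antisymm hes h)⟩ (Set.toFinite _)
      by_cases hex : e x = 0
      · obtain ⟨y, hy⟩ : ∃ y, e y ≠ 0 := by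
          by_contra hcon
          push Not at hcon
          exact he0 (funext hcon)
        have hcy : c y ≠ 0 := hes hy
        have h1 := support_elim hes y
        have h2 : (c - (c y / e y) • e) y = 0 := by
          rw [Pi.sub_apply, Pi.smul_apply, smul_eq_mul, div_mul_cancel₀ _ hy, sub_self]
        have h3 := ncard_lt_of_kill h1 hcy h2
        obtain ⟨d, hd, hds, hdx⟩ := ih (c - (c y / e y) • e)
          (L.sub_mem hc (L.smul_mem _ he)) (by omega) x (by
            rw [Pi.sub_apply, Pi.smul_apply, hex, smul_zero, sub_zero]; exact hx)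
        exact ⟨d, hd, hds.trans h1, hdx⟩
      · obtain ⟨d, hd, hds, hdx⟩ := ih e he (by omega) x hex
        exact ⟨d, hd, hds.trans hes, hdx⟩

lemma exists_minWord' {L : Submodule F (α → F)} {c : α → F} (hc : c ∈ L) {x : α} (hx : c x ≠ 0) :
    ∃ d, MinWord L d ∧ support d ⊆ support c ∧ d x ≠ 0 :=
  exists_minWord _ c hc le_rfl x hx

/-- Two elements lie on a common circuit inside `K`. -/
def Rel (L : Submodule F (α → F)) (K : Set α) (x y : α) : Prop :=
  ∃ d, MinWord L d ∧ support d ⊆ K ∧ d x ≠ 0 ∧ d y ≠ 0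

/-- Strong elimination. -/
lemma elim_word {L : Submodule F (α → F)} {c₁ c₂ : α → F} (h₁ : MinWord L c₁)
    (h₂ : MinWord L c₂) {e x : α} (he₂ : c₂ e ≠ 0) (hx₁ : c₁ x ≠ 0)
    (hx₂ : c₂ x = 0) : ∃ d, MinWord L d ∧ support d ⊆ support c₁ ∪ support c₂ ∧ d e = 0 ∧
      d x ≠ 0 := by
  have h3 : c₁ - (c₁ e / c₂ e) • c₂ ∈ L := L.sub_mem h₁.mem (L.smul_mem _ h₂.mem)
  obtain ⟨d, hd, hds, hdx⟩ := exists_minWord' h3 (x := x) (by
    rw [Pi.sub_apply, Pi.smul_apply, hx₂, smul_zero, sub_zero]; exact hx₁)
  refine ⟨d, hd, fun i hi => ?_, ?_, hdx⟩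
  · have := hds hi
    by_contra hcon
    rw [Set.mem_union, not_or] at hcon
    apply this
    have e1 : c₁ i = 0 := by simpa using hcon.1
    have e2 : c₂ i = 0 := by simpa using hcon.2
    rw [Pi.sub_apply, Pi.smul_apply, e1, e2, smul_zero, sub_zero]
  · by_contra hde
    have := hds hde
    apply this
    rw [Pi.sub_apply, Pi.smul_apply, smul_eq_mul, div_mul_cancel₀ _ he₂, sub_self]

lemma rel_of_inter {L : Submodule F (α → F)} {K : Set α} {x z : α} (n : ℕ) :
    ∀ c₁ c₂, MinWord L c₁ → MinWord L c₂ → support c₁ ⊆ K → support c₂ ⊆ K → c₁ x ≠ 0 →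
      c₂ z ≠ 0 → (∃ e, c₁ e ≠ 0 ∧ c₂ e ≠ 0) → (support c₁ ∪ support c₂).ncard ≤ n →
      Rel L K x z := by
  induction n with
  | zero =>
    intro c₁ c₂ _ _ _ _ hx _ _ hn
    exfalso
    have h1 : (support c₁ ∪ support c₂).ncard = 0 := by omega
    rw [Set.ncard_eq_zero (Set.toFinite _)] at h1
    have h2 : x ∈ support c₁ ∪ support c₂ := Or.inl hx
    rw [h1] at h2
    exact h2
  | succ n ih =>
    intro c₁ c₂ h₁ h₂ hK₁ hK₂ hx hz ⟨e, he₁, he₂⟩ hn
    by_cases hz₁ : c₁ z = 0
    swap
    · exact ⟨c₁, h₁, hK₁, hx, hz₁⟩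
    by_cases hx₂ : c₂ x = 0
    swap
    · exact ⟨c₂, h₂, hK₂, hx₂, hz⟩
    obtain ⟨c₃, h₃, hs₃, he₃, hx₃⟩ := elim_word h₁ h₂ he₂ hx hx₂
    by_cases hz₃ : c₃ z = 0
    swap
    · exact ⟨c₃, h₃, hs₃.trans (union_subset hK₁ hK₂), hx₃, hz₃⟩
    -- an element of `C₃ \ C₁`
    have hf : ∃ f, c₃ f ≠ 0 ∧ c₁ f = 0 := by
      by_contra hcon
      push Not at hcon
      have h4 := h₁.min c₃ h₃.mem h₃.ne hcon
      have h5 : e ∈ support c₃ := by rw [h4]; exact he₁
      exact h5 he₃
    obtain ⟨f, hf₃, hf₁⟩ := hf
    have hf₂ : c₂ f ≠ 0 := by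
      rcases hs₃ hf₃ with h | h
      · exact absurd hf₁ h
      · exact h
    obtain ⟨c₄, h₄, hs₄, hf₄, hz₄⟩ := elim_word h₂ h₃ hf₃ hz hz₃
    have hs₄' : support c₄ ⊆ support c₁ ∪ support c₂ := by
      intro i hi
      rcases hs₄ hi with h | h
      · exact Or.inr h
      · exact hs₃ h
    have hg : ∃ g, c₄ g ≠ 0 ∧ c₂ g = 0 := by
      by_contra hcon
      push Not at hcon
      have h4 := h₂.min c₄ h₄.mem h₄.ne hcon
      have h5 : f ∈ support c₄ := by rw [h4]; exact hf₂
      exact h5 hf₄
    obtain ⟨g, hg₄, hg₂⟩ := hg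
    have hg₁ : c₁ g ≠ 0 := by
      rcases hs₄' hg₄ with h | h
      · exact h
      · exact absurd hg₂ h
    have hlt : (support c₁ ∪ support c₄).ncard < (support c₁ ∪ support c₂).ncard := by
      apply Set.ncard_lt_ncard _ (Set.toFinite _)
      refine ⟨union_subset subset_union_left hs₄', fun h => ?_⟩
      have h5 : f ∈ support c₁ ∪ support c₄ := h (Or.inr hf₂)
      rcases h5 with h5 | h5
      · exact h5 hf₁
      · exact h5 hf₄
    exact ih c₁ c₄ h₁ h₄ hK₁ (hs₄'.trans (union_subset hK₁ hK₂)) hx hz₄ ⟨g, hg₁, hg₄⟩ (by omega)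

lemma Rel.trans {L : Submodule F (α → F)} {K : Set α} {x y z : α} (h : Rel L K x y)
    (h' : Rel L K y z) : Rel L K x z := by
  obtain ⟨c₁, h₁, hK₁, hx₁, hy₁⟩ := h
  obtain ⟨c₂, h₂, hK₂, hy₂, hz₂⟩ := h'
  exact rel_of_inter _ c₁ c₂ h₁ h₂ hK₁ hK₂ hx₁ hz₂ ⟨y, hy₁, hy₂⟩ le_rfl

lemma indicator_sub_smul (X : Set α) (c e : α → F) (r : F) :
    X.indicator (c - r • e) = X.indicator c - r • X.indicator e := by
  funext i
  by_cases hi : i ∈ X
  · simp [Set.indicator_of_mem hi]
  · simp [Set.indicator_of_notMem hi]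

/-- In a connected set any two elements lie on a common circuit. -/
theorem conn_rel {L : Submodule F (α → F)} {K : Set α} (hK : Conn L K) {x y : α} (hx : x ∈ K)
    (hy : y ∈ K) (hxy : x ≠ y) : Rel L K x y := by
  by_contra hcon
  set X : Set α := {j | j ∈ K ∧ (j = x ∨ Rel L K x j)} with hX
  have hXK : X ⊆ K := fun j hj => hj.1
  have hxX : x ∈ X := ⟨hx, Or.inl rfl⟩
  have hyX : y ∉ X := by
    rintro ⟨-, h | h⟩
    · exact hxy h.symm
    · exact hcon h
  have hne : X ≠ K := fun h => hyX (h ▸ hy)
  obtain ⟨c, hc, hcK, hcX⟩ := hK X hXK ⟨x, hxX⟩ hne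
  apply hcX
  -- by induction on the size of the support
  have key : ∀ n : ℕ, ∀ c ∈ L, c ∈ Sup F K → (support c).ncard ≤ n → X.indicator c ∈ L := by
    intro n
    induction n with
    | zero =>
      intro c _ _ hn
      have h1 : (support c).ncard = 0 := by omega
      rw [Set.ncard_eq_zero (Set.toFinite _), support_eq_empty_iff] at h1
      rw [h1, Set.indicator_zero']
      exact L.zero_mem
    | succ n ih =>
      intro c hc hcK hn
      by_cases hc0 : c = 0
      · rw [hc0, Set.indicator_zero']; exact L.zero_mem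
      by_cases hmin : MinWord L c
      · by_cases h1 : support c ⊆ X
        · rw [Set.indicator_eq_self.2 h1]; exact hc
        · by_cases h2 : Disjoint (support c) X
          · have : X.indicator c = 0 := by
              rw [Set.indicator_eq_zero']
              exact h2
            rw [this]; exact L.zero_mem
          · exfalso
            rw [Set.not_disjoint_iff] at h2
            obtain ⟨a, ha, haX⟩ := h2
            rw [Set.not_subset] at h1
            obtain ⟨b, hb, hbX⟩ := h1
            have hbK : b ∈ K := mem_Sup_iff.1 hcK hb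
            apply hbX
            refine ⟨hbK, Or.inr ?_⟩
            have hab : Rel L K a b := ⟨c, hmin, mem_Sup_iff.1 hcK, ha, hb⟩
            rcases haX.2 with h | h
            · rw [← h]; exact hab
            · exact h.trans hab
      · have : ∃ e ∈ L, e ≠ 0 ∧ support e ⊆ support c ∧ support e ≠ support c := by
          by_contra hcon
          push Not at hcon
          exact hmin ⟨hc, hc0, fun d hd hd0 hds => hcon d hd hd0 hds⟩
        obtain ⟨e, he, he0, hes, hne⟩ := this
        have hlt : (support e).ncard < (support c).ncard :=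
          Set.ncard_lt_ncard ⟨hes, fun h => hne (Subset.antisymm hes h)⟩ (Set.toFinite _)
        obtain ⟨y, hy⟩ : ∃ y, e y ≠ 0 := by
          by_contra hcon
          push Not at hcon
          exact he0 (funext hcon)
        have hcy : c y ≠ 0 := hes hy
        have h1 := support_elim hes y
        have h2 : (c - (c y / e y) • e) y = 0 := by
          rw [Pi.sub_apply, Pi.smul_apply, smul_eq_mul, div_mul_cancel₀ _ hy, sub_self]
        have h3 := ncard_lt_of_kill h1 hcy h2
        have hcK' := mem_Sup_iff.1 hcK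
        have i1 := ih (c - (c y / e y) • e) (L.sub_mem hc (L.smul_mem _ he))
          (mem_Sup_iff.2 (h1.trans hcK')) (by omega)
        have i2 := ih e he (mem_Sup_iff.2 (hes.trans hcK')) (by omega)
        rw [indicator_sub_smul] at i1
        have i3 := L.add_mem i1 (L.smul_mem (c y / e y) i2)
        rwa [sub_add_cancel] at i3
  exact key _ c hc hcK le_rfl

end Fin

section Matrix

variable [Fintype α] {m : ℕ}

/-- The linear dependencies among the columns of `A`. -/
def dep (A : Matrix (Fin m) α F) : Submodule F (α → F) := LinearMap.ker A.mulVecLin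

lemma mem_dep {A : Matrix (Fin m) α F} {c : α → F} : c ∈ dep A ↔ A.mulVec c = 0 := by
  rw [dep, LinearMap.mem_ker, Matrix.mulVecLin_apply]

lemma mem_dep' {A : Matrix (Fin m) α F} {c : α → F} :
    c ∈ dep A ↔ ∀ i, ∑ j, A i j * c j = 0 := by
  rw [mem_dep]
  exact funext_iff

lemma colMatroid_ground (A : Matrix (Fin m) α F) : (colMatroid A).E = univ := rfl

lemma colMatroid_indep {A : Matrix (Fin m) α F} {I : Set α} :
    (colMatroid A).Indep I ↔ ∀ c ∈ dep A, c ∈ Sup F I → c = 0 := by
  have h0 : (colMatroid A).Indep I ↔ LinearIndepOn F (fun (j : α) (i : Fin m) => A i j) I :=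
    Iff.rfl
  rw [h0, linearIndepOn_iff]
  constructor
  · intro h c hc hcI
    let l : α →₀ F := Finsupp.equivFunOnFinite.symm c
    have hl : ∀ j, l j = c j := fun j => rfl
    have h1 := h l (by
      rw [Finsupp.mem_supported']
      intro j hj
      exact hcI j hj) (by
      rw [Finsupp.linearCombination_apply, Finsupp.sum_fintype _ _ (by simp)]
      funext i
      rw [Finset.sum_apply]
      have := mem_dep'.1 hc i
      rw [Pi.zero_apply, ← this]
      refine Finset.sum_congr rfl fun j _ => ?_
      rw [Pi.smul_apply, smul_eq_mul, hl, mul_comm])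
    funext j
    exact DFunLike.congr_fun h1 j
  · intro h l hl h0
    have h1 := h (fun j => l j) (by
      rw [mem_dep']
      intro i
      rw [Finsupp.linearCombination_apply, Finsupp.sum_fintype _ _ (by simp)] at h0
      have := congrFun h0 i
      rw [Finset.sum_apply, Pi.zero_apply] at this
      rw [← this]
      refine Finset.sum_congr rfl fun j _ => ?_
      rw [Pi.smul_apply, smul_eq_mul, mul_comm]) (by
      intro j hj
      exact (Finsupp.mem_supported' _ _).1 hl j hj)
    ext j
    exact congrFun h1 j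

lemma colMatroid_congr {m' : ℕ} {A : Matrix (Fin m) α F} {A' : Matrix (Fin m') α F}
    (h : dep A = dep A') : colMatroid A = colMatroid A' := by
  refine Matroid.ext_indep (by rw [colMatroid_ground, colMatroid_ground]) ?_
  intro I _
  rw [colMatroid_indep, colMatroid_indep, h]

lemma isCircuit_of_minWord {A : Matrix (Fin m) α F} {d : α → F} (hd : MinWord (dep A) d) :
    (colMatroid A).IsCircuit (support d) := by
  rw [isCircuit_iff_forall_ssubset]
  refine ⟨⟨?_, subset_univ _⟩, ?_⟩
  · rw [colMatroid_indep]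
    intro h
    exact hd.ne (h d hd.mem (mem_Sup_iff.2 Subset.rfl))
  · intro I hI
    rw [colMatroid_indep]
    intro c hc hcI
    by_contra hc0
    have h1 := hd.min c hc hc0 ((mem_Sup_iff.1 hcI).trans hI.1)
    exact hI.2 (h1 ▸ mem_Sup_iff.1 hcI)

lemma minWord_of_isCircuit {A : Matrix (Fin m) α F} {C : Set α}
    (hC : (colMatroid A).IsCircuit C) : ∃ d, MinWord (dep A) d ∧ support d = C := by
  have h1 := hC.not_indep
  rw [colMatroid_indep] at h1
  push Not at h1
  obtain ⟨c, hc, hcC, hc0⟩ := h1
  obtain ⟨x, hx⟩ : ∃ x, c x ≠ 0 := by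
    by_contra hcon
    push Not at hcon
    exact hc0 (funext hcon)
  obtain ⟨d, hd, hds, hdx⟩ := exists_minWord' hc hx
  have h2 := isCircuit_of_minWord hd
  exact ⟨d, hd, h2.eq_of_subset_isCircuit hC (hds.trans (mem_Sup_iff.1 hcC))⟩

lemma linked_iff {A : Matrix (Fin m) α F} {S K : Set α} :
    Linked (colMatroid A ↾ S) K ↔ K ⊆ S ∧ ∀ x ∈ K, ∀ y ∈ K, x ≠ y → Rel (dep A) S x y := by
  constructor
  · rintro ⟨h1, h2⟩
    refine ⟨h1, fun x hx y hy hxy => ?_⟩
    obtain ⟨C, hC, hxC, hyC⟩ := h2 x hx y hy hxy
    rw [restrict_isCircuit_iff (by rw [colMatroid_ground]; exact subset_univ S)] at hC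
    obtain ⟨d, hd, rfl⟩ := minWord_of_isCircuit hC.1
    exact ⟨d, hd, hC.2, hxC, hyC⟩
  · rintro ⟨h1, h2⟩
    refine ⟨h1, fun x hx y hy hxy => ?_⟩
    obtain ⟨d, hd, hdS, hdx, hdy⟩ := h2 x hx y hy hxy
    refine ⟨support d, ?_, hdx, hdy⟩
    rw [restrict_isCircuit_iff (by rw [colMatroid_ground]; exact subset_univ S)]
    exact ⟨isCircuit_of_minWord hd, hdS⟩

lemma Rel.mono {L : Submodule F (α → F)} {K K' : Set α} (h : K ⊆ K') {x y : α}
    (hr : Rel L K x y) : Rel L K' x y := by
  obtain ⟨d, hd, hdS, hx, hy⟩ := hr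
  exact ⟨d, hd, hdS.trans h, hx, hy⟩

lemma linked_of_conn {A : Matrix (Fin m) α F} {S K : Set α} (hKS : K ⊆ S)
    (hK : Conn (dep A) K) : Linked (colMatroid A ↾ S) K :=
  linked_iff.2 ⟨hKS, fun _ hx _ hy hxy => (conn_rel hK hx hy hxy).mono hKS⟩

lemma isConnected_of_conn {A : Matrix (Fin m) α F} {S : Set α}
    (hS : Conn (dep A) S) : IsConnected (colMatroid A ↾ S) :=
  ⟨linked_of_conn Subset.rfl hS, fun _ hX _ => hX.1⟩

lemma exists_component {M : Matroid α} {K : Set α} (hK : Linked M K) :
    ∃ X, K ⊆ X ∧ IsComponent M X := by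
  obtain ⟨X, hKX, hX⟩ := (Set.toFinite {X | Linked M X}).exists_le_maximal hK
  exact ⟨X, hKX, hX⟩

end Matrix

end Pool.Agent.Lib.MP_a7207a_co
end

section

/-!
# A relaxed game bounding the matrix depth from below
-/

set_option linter.unusedSectionVars false

namespace Pool.Agent.Lib.MP_a7207a_co

open Set Matroid Function Module

variable {F : Type*} [Field F] {α : Type*}

/-- Effect of a c*-step on the space of dependencies. -/
def CS (L L' : Submodule F (α → F)) : Prop :=
  L ≤ L' ∧ ∃ ρ : α → F, L' ≤ L ⊔ Submodule.span F {ρ}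

/-- Effect of a d*-step on the space of dependencies. -/
def DS (L L' : Submodule F (α → F)) : Prop :=
  L' ≤ L ∧ ∃ w : (α → F) →ₗ[F] F, L ⊓ LinearMap.ker w ≤ L'

/-- The relaxed game. -/
def LD : ℕ → Submodule F (α → F) → Set α → Prop
  | 0, _, _ => False
  | k + 1, L, S => ∀ K ⊆ S, Conn L K → K.Subsingleton ∨ ∃ L', (CS L L' ∨ DS L L') ∧ LD k L' K

lemma LD.mono_set {k : ℕ} {L : Submodule F (α → F)} {S S' : Set α} (h : LD k L S)
    (hS : S' ⊆ S) : LD k L S' := by
  cases k with
  | zero => exact h
  | succ k => exact fun K hK hc => h K (hK.trans hS) hc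

lemma LD.succ {k : ℕ} : ∀ {L : Submodule F (α → F)} {S : Set α}, LD k L S → LD (k + 1) L S := by
  induction k with
  | zero => intro L S h; exact h.elim
  | succ k ih =>
    intro L S h K hK hc
    rcases h K hK hc with h1 | ⟨L', hL', h2⟩
    · exact Or.inl h1
    · exact Or.inr ⟨L', hL', ih h2⟩

section Matrix

variable [Fintype α]

lemma dep_cstep_le {m : ℕ} {A : Matrix (Fin (m + 1)) α F} {A' : Matrix (Fin m) α F}
    (h : IsCStep A A') : CS (dep A) (dep A') := by
  obtain ⟨v, P, i, hP, hv, rfl⟩ := h
  have hmul : ∀ c : α → F, ((P * A).submatrix i.succAbove id).mulVec c =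
      fun a => P.mulVec (A.mulVec c) (i.succAbove a) := by
    intro c
    rw [Matrix.mulVec_mulVec]
    rfl
  have hinj : ∀ x : Fin (m + 1) → F, P.mulVec x = 0 → x = 0 := by
    intro x hx
    have h1 := Matrix.mulVec_injective_of_isUnit hP
    exact h1 (by simp only [hx, Matrix.mulVec_zero])
  -- dependencies of the new matrix
  have hdep : ∀ c, c ∈ dep ((P * A).submatrix i.succAbove id) →
      P.mulVec (A.mulVec c) = (P.mulVec (A.mulVec c) i) • Pi.single i (1 : F) := by
    intro c hc
    rw [mem_dep, hmul] at hc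
    funext a
    rcases Fin.eq_self_or_eq_succAbove i a with rfl | ⟨b, rfl⟩
    · simp
    · have := congrFun hc b
      simp only [Pi.zero_apply] at this
      rw [this]
      simp
  refine ⟨?_, ?_⟩
  · intro c hc
    rw [mem_dep] at hc ⊢
    rw [hmul, hc, Matrix.mulVec_zero]
    rfl
  · by_cases hle : dep ((P * A).submatrix i.succAbove id) ≤ dep A
    · exact ⟨0, hle.trans le_sup_left⟩
    · rw [SetLike.not_le_iff_exists] at hle
      obtain ⟨ρ, hρ, hρ'⟩ := hle
      refine ⟨ρ, fun c hc => ?_⟩
      have h1 := hdep ρ hρ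
      have h2 := hdep c hc
      set l := P.mulVec (A.mulVec ρ) i with hl
      set μ := P.mulVec (A.mulVec c) i with hμ
      have hl0 : l ≠ 0 := by
        intro h0
        rw [h0, zero_smul] at h1
        exact hρ' (mem_dep.2 (hinj _ h1))
      have h3 : c - (μ / l) • ρ ∈ dep A := by
        rw [mem_dep]
        apply hinj
        rw [Matrix.mulVec_sub, Matrix.mulVec_smul, Matrix.mulVec_sub, Matrix.mulVec_smul, h1, h2,
          smul_smul, div_mul_cancel₀ _ hl0, sub_self]
      have h4 : c = (c - (μ / l) • ρ) + (μ / l) • ρ := by rw [sub_add_cancel]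
      rw [h4]
      exact Submodule.add_mem_sup h3 (Submodule.smul_mem _ _ (Submodule.mem_span_singleton_self ρ))

lemma mem_dep_dstep {m : ℕ} {A : Matrix (Fin m) α F} {w : α → F} {c : α → F} :
    c ∈ dep (Matrix.of (Fin.snoc (fun i => A i) w) : Matrix (Fin (m + 1)) α F) ↔
      c ∈ dep A ∧ ∑ j, w j * c j = 0 := by
  rw [mem_dep', mem_dep']
  constructor
  · intro h
    refine ⟨fun i => ?_, ?_⟩
    · have := h i.castSucc
      simpa [Matrix.of_apply, Fin.snoc_castSucc] using this
    · have := h (Fin.last m)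
      simpa [Matrix.of_apply, Fin.snoc_last] using this
  · rintro ⟨h1, h2⟩ i
    refine Fin.lastCases ?_ (fun i => ?_) i
    · simpa [Matrix.of_apply, Fin.snoc_last] using h2
    · simpa [Matrix.of_apply, Fin.snoc_castSucc] using h1 i

lemma dep_dstep_le {m : ℕ} {A : Matrix (Fin m) α F} {A' : Matrix (Fin (m + 1)) α F}
    (h : IsDStep A A') : DS (dep A) (dep A') := by
  obtain ⟨w, rfl⟩ := h
  refine ⟨fun c hc => (mem_dep_dstep.1 hc).1, ?_⟩
  refine ⟨∑ j, w j • LinearMap.proj j, fun c hc => ?_⟩
  rw [mem_dep_dstep]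
  refine ⟨hc.1, ?_⟩
  have := LinearMap.mem_ker.1 hc.2
  simpa [LinearMap.sum_apply] using this

/-- The relaxed game bounds the matrix depth from below. -/
theorem ld_of_depth {m : ℕ} {A : Matrix (Fin m) α F} {S : Set α} {k : ℕ}
    (h : MatrixDepthLE A S k) : LD k (dep A) S := by
  induction h with
  | small A S k h => exact fun K hK _ => Or.inl (h.anti hK)
  | split A S k h h' ih =>
    cases k with
    | zero =>
      obtain ⟨X, -, hX⟩ := exists_component (M := colMatroid A ↾ S) (K := ∅)
        ⟨empty_subset _, fun x hx => absurd hx (Set.notMem_empty x)⟩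
      exact (ih X hX).elim
    | succ k =>
      intro K hK hc
      obtain ⟨X, hKX, hX⟩ := exists_component (linked_of_conn hK hc)
      exact ih X hX K hKX hc
  | cstep A A' S k h h₁ h₂ h₃ h' ih =>
    exact fun K hK _ => Or.inr ⟨dep A', Or.inl (dep_cstep_le h₂), ih.mono_set hK⟩
  | dstep A A' S k h h₁ h₂ h₃ h' ih =>
    exact fun K hK _ => Or.inr ⟨dep A', Or.inr (dep_dstep_le h₂), ih.mono_set hK⟩

end Matrix

section LastSteps

variable [Finite α]

lemma indicator_mem_Sup {K : Set α} {c : α → F} (hc : c ∈ Sup F K) (Y : Set α) :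
    Y.indicator c ∈ Sup F (K ∩ Y) := by
  intro i hi
  by_cases hY : i ∈ Y
  · rw [Set.indicator_of_mem hY]
    exact hc i fun hK => hi ⟨hK, hY⟩
  · rw [Set.indicator_of_notMem hY]

lemma diff_indicator {K Y : Set α} {c : α → F} (hc : c ∈ Sup F K) :
    (K \ Y).indicator c = c - Y.indicator c := by
  funext i
  by_cases hY : i ∈ Y
  · rw [Set.indicator_of_notMem (fun h => h.2 hY), Pi.sub_apply, Set.indicator_of_mem hY, sub_self]
  · rw [Pi.sub_apply, Set.indicator_of_notMem hY, sub_zero]
    by_cases hK : i ∈ K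
    · rw [Set.indicator_of_mem (show i ∈ K \ Y from ⟨hK, hY⟩)]
    · rw [Set.indicator_of_notMem (fun h => hK h.1), hc i hK]

lemma split_coords {L : Submodule F (α → F)} (n : ℕ) : ∀ K : Set α, K.ncard ≤ n →
    (∀ Y ⊆ K, Conn L Y → Y.Subsingleton) →
    ∀ c ∈ L, c ∈ Sup F K → ∀ i, ({i} : Set α).indicator c ∈ L := by
  induction n with
  | zero =>
    intro K hn _ c _ hcK i
    have h1 : K = ∅ := by rw [← Set.ncard_eq_zero (Set.toFinite K)]; omega
    have h2 : c = 0 := by
      funext j
      exact hcK j (by rw [h1]; exact Set.notMem_empty j)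
    rw [h2, Set.indicator_zero']
    exact L.zero_mem
  | succ n ih =>
    intro K hn hY c hc hcK i
    by_cases hsub : K.Subsingleton
    · by_cases hci : c i = 0
      · have : ({i} : Set α).indicator c = 0 := by
          funext j
          by_cases hj : j ∈ ({i} : Set α)
          · rw [Set.indicator_of_mem hj, Set.mem_singleton_iff.1 hj, hci]; rfl
          · rw [Set.indicator_of_notMem hj]; rfl
        rw [this]; exact L.zero_mem
      · have : ({i} : Set α).indicator c = c := by
          rw [Set.indicator_eq_self]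
          intro j hj
          have hiK : i ∈ K := mem_Sup_iff.1 hcK hci
          have hjK : j ∈ K := mem_Sup_iff.1 hcK hj
          exact hsub hjK hiK
        rw [this]; exact hc
    · have hnc : ¬ Conn L K := fun h => hsub (hY K Subset.rfl h)
      have : ∃ Y ⊆ K, Y.Nonempty ∧ Y ≠ K ∧ ∀ c ∈ L, c ∈ Sup F K → Y.indicator c ∈ L := by
        by_contra hcon
        apply hnc
        intro Y hYK hYn hYne
        by_contra hcon2
        push Not at hcon2
        exact hcon ⟨Y, hYK, hYn, hYne, hcon2⟩
      obtain ⟨Y, hYK, hYn, hYne, hYs⟩ := this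
      have h1 := hYs c hc hcK
      have h2 : Y.indicator c ∈ Sup F Y :=
        Sup_mono inter_subset_right (indicator_mem_Sup hcK Y)
      have h3 : (K \ Y).indicator c ∈ L := by
        rw [diff_indicator hcK]; exact L.sub_mem hc h1
      have h4 : (K \ Y).indicator c ∈ Sup F (K \ Y) :=
        Sup_mono inter_subset_right (indicator_mem_Sup hcK _)
      have hlt1 : Y.ncard < K.ncard :=
        Set.ncard_lt_ncard ⟨hYK, fun h => hYne (Subset.antisymm hYK h)⟩ (Set.toFinite _)
      have hlt2 : (K \ Y).ncard < K.ncard := by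
        apply Set.ncard_lt_ncard _ (Set.toFinite _)
        refine ⟨sdiff_subset, fun h => ?_⟩
        obtain ⟨y, hy⟩ := hYn
        exact (h (hYK hy)).2 hy
      by_cases hi : i ∈ Y
      · have h5 := ih Y (by omega) (fun Z hZ => hY Z (hZ.trans hYK)) _ h1 h2 i
        rw [Set.indicator_indicator, Set.inter_eq_left.2 (Set.singleton_subset_iff.2 hi)] at h5
        exact h5
      · by_cases hiK : i ∈ K
        · have h5 := ih (K \ Y) (by omega) (fun Z hZ => hY Z (hZ.trans sdiff_subset)) _ h3 h4 i
          rw [Set.indicator_indicator,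
            Set.inter_eq_left.2 (Set.singleton_subset_iff.2 (show i ∈ K \ Y from ⟨hiK, hi⟩))] at h5
          exact h5
        · have : ({i} : Set α).indicator c = 0 := by
            funext j
            by_cases hj : j ∈ ({i} : Set α)
            · rw [Set.indicator_of_mem hj, Set.mem_singleton_iff.1 hj, hcK i hiK]; rfl
            · rw [Set.indicator_of_notMem hj]; rfl
          rw [this]; exact L.zero_mem

/-- In a connected set with at least two elements, every element is neither a loop nor a
coloop. -/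
lemma Conn.exists_word {L : Submodule F (α → F)} {K : Set α} (hK : Conn L K)
    (hns : ¬ K.Subsingleton) {i : α} (hi : i ∈ K) :
    ∃ c ∈ L, c ∈ Sup F K ∧ ({i} : Set α).indicator c ∉ L :=
  hK {i} (Set.singleton_subset_iff.2 hi) ⟨i, rfl⟩ (fun h => hns (by
    rw [← h]; exact Set.subsingleton_singleton))

/-- If the depth is at most two, every connected set has rank at most one or nullity at most
one. -/
theorem rank_or_nullity {L : Submodule F (α → F)} {S K : Set α} (h : LD 2 L S) (hKS : K ⊆ S)
    (hK : Conn L K) (hns : ¬ K.Subsingleton) :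
    (∀ i ∈ K, ∀ j ∈ K, i ≠ j → ∃ d ∈ L, d ≠ 0 ∧ support d ⊆ {i, j}) ∨
    (∀ c ∈ L, c ∈ Sup F K → ∀ c' ∈ L, c' ∈ Sup F K →
      ∃ x y : F, (x ≠ 0 ∨ y ≠ 0) ∧ x • c + y • c' = 0) := by
  classical
  rcases h K hKS hK with h1 | ⟨L', hL', h2⟩
  · exact absurd h1 hns
  have h3 : ∀ Y ⊆ K, Conn L' Y → Y.Subsingleton := by
    intro Y hY hc
    rcases h2 Y hY hc with h4 | ⟨_, _, h4⟩
    · exact h4
    · exact h4.elim
  have h4 := split_coords _ K le_rfl h3
  rcases hL' with ⟨hle, ρ, hρ⟩ | ⟨hle, w, hw⟩
  · left
    have hunit : ∀ i ∈ K, Pi.single i (1 : F) ∈ L' := by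
      intro i hi
      obtain ⟨c, hc, hcK, hci⟩ := hK.exists_word hns hi
      have h5 := h4 c (hle hc) hcK i
      have h6 : ({i} : Set α).indicator c = (c i) • Pi.single i (1 : F) := by
        funext j
        by_cases hj : j = i
        · subst hj; simp
        · simp [hj]
      have h7 : c i ≠ 0 := by
        intro h0
        rw [h6, h0, zero_smul] at hci
        exact hci L.zero_mem
      rw [h6] at h5
      have h8 := L'.smul_mem (c i)⁻¹ h5
      rwa [smul_smul, inv_mul_cancel₀ h7, one_smul] at h8
    intro i hi j hj hij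
    obtain ⟨a, ha, b, hb, hab⟩ := Submodule.mem_sup.1 (hρ (hunit i hi))
    obtain ⟨a', ha', b', hb', hab'⟩ := Submodule.mem_sup.1 (hρ (hunit j hj))
    obtain ⟨x, rfl⟩ := Submodule.mem_span_singleton.1 hb
    obtain ⟨x', rfl⟩ := Submodule.mem_span_singleton.1 hb'
    by_cases hx : x = 0
    · refine ⟨Pi.single i 1, ?_, ?_, ?_⟩
      · rw [← hab, hx, zero_smul, add_zero]; exact ha
      · intro h0
        have := congrFun h0 i
        simp at this
      · intro k hk
        by_contra hk'
        simp only [Set.mem_insert_iff, Set.mem_singleton_iff, not_or] at hk'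
        apply hk
        simp [hk'.1]
    · refine ⟨x' • Pi.single i 1 - x • Pi.single j 1, ?_, ?_, ?_⟩
      · have : x' • Pi.single i (1 : F) - x • Pi.single j (1 : F) = x' • a - x • a' := by
          rw [← hab, ← hab']
          module
        rw [this]
        exact L.sub_mem (L.smul_mem _ ha) (L.smul_mem _ ha')
      · intro h0
        have := congrFun h0 j
        simp [Ne.symm hij] at this
        exact hx this
      · intro k hk
        by_contra hk'
        simp only [Set.mem_insert_iff, Set.mem_singleton_iff, not_or] at hk'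
        apply hk
        simp [hk'.1, hk'.2]
  · right
    have hzero : ∀ c ∈ L', c ∈ Sup F K → c = 0 := by
      intro c hc hcK
      funext i
      by_contra hci
      have hiK : i ∈ K := mem_Sup_iff.1 hcK hci
      obtain ⟨d, hd, hdK, hdi⟩ := hK.exists_word hns hiK
      apply hdi
      have h5 := hle (h4 c hc hcK i)
      have h6 : ({i} : Set α).indicator d = (d i / c i) • ({i} : Set α).indicator c := by
        funext j
        by_cases hj : j = i
        · subst hj
          simp only [Set.indicator_of_mem (Set.mem_singleton j), Pi.smul_apply, smul_eq_mul]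
          rw [div_mul_cancel₀]
          exact hci
        · simp [hj]
      rw [h6]
      exact L.smul_mem _ h5
    intro c hc hcK c' hc' hcK'
    by_cases hwc : w c = 0 ∧ w c' = 0
    · refine ⟨1, 0, Or.inl one_ne_zero, ?_⟩
      have := hzero c (hw ⟨hc, hwc.1⟩) hcK
      rw [this, smul_zero, zero_smul, add_zero]
    · refine ⟨w c', - w c, ?_, ?_⟩
      · by_contra hcon
        push Not at hcon
        exact hwc ⟨by simpa using hcon.2, hcon.1⟩
      · apply hzero
        · apply hw
          refine ⟨L.add_mem (L.smul_mem _ hc) (L.smul_mem _ hc'), ?_⟩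
          rw [SetLike.mem_coe, LinearMap.mem_ker, map_add, map_smul, map_smul, smul_eq_mul,
            smul_eq_mul]
          ring
        · exact (Sup F K).add_mem ((Sup F K).smul_mem _ hcK) ((Sup F K).smul_mem _ hcK')

/-- Few dependencies when all components have nullity at most one and no short words exist. -/
theorem dim_bound {L : Submodule F (α → F)} (n : ℕ) : ∀ X : Set α, X.ncard ≤ n →
    (∀ Y ⊆ X, Conn L Y → ¬ Y.Subsingleton → ∀ c ∈ L, c ∈ Sup F Y → ∀ c' ∈ L, c' ∈ Sup F Y →
      ∃ x y : F, (x ≠ 0 ∨ y ≠ 0) ∧ x • c + y • c' = 0) →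
    (∀ c ∈ L, c ∈ Sup F X → c ≠ 0 → 3 ≤ (support c).ncard) →
    3 * finrank F ↥(L ⊓ Sup F X) ≤ X.ncard := by
  induction n with
  | zero =>
    intro X hn _ _
    have h1 : X = ∅ := by rw [← Set.ncard_eq_zero (Set.toFinite X)]; omega
    have h2 : L ⊓ Sup F X = ⊥ := by
      rw [eq_bot_iff]
      intro c hc
      rw [Submodule.mem_bot]
      funext j
      exact hc.2 j (by rw [h1]; exact Set.notMem_empty j)
    rw [h2, finrank_bot]
    omega
  | succ n ih =>
    intro X hn hY h3
    by_cases hcon : Conn L X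
    · by_cases hle : finrank F ↥(L ⊓ Sup F X) ≤ 1
      · by_cases h0 : finrank F ↥(L ⊓ Sup F X) = 0
        · rw [h0]; omega
        · have h1 : ∃ c ∈ L ⊓ Sup F X, c ≠ 0 := by
            by_contra hc
            push Not at hc
            apply h0
            have : L ⊓ Sup F X = ⊥ := by
              rw [eq_bot_iff]
              intro c hc'
              exact hc c hc'
            rw [this, finrank_bot]
          obtain ⟨c, hc, hc0⟩ := h1
          have h4 := h3 c hc.1 hc.2 hc0
          have h5 := Set.ncard_le_ncard (mem_Sup_iff.1 hc.2) (Set.toFinite _)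
          omega
      · exfalso
        apply hle
        by_cases hsub : X.Subsingleton
        · have h2 : L ⊓ Sup F X = ⊥ := by
            rw [eq_bot_iff]
            intro c hc
            rw [Submodule.mem_bot]
            by_contra hc0
            have h4 := h3 c hc.1 hc.2 hc0
            have h5 := Set.ncard_le_ncard (mem_Sup_iff.1 hc.2) (Set.toFinite _)
            have h6 := Set.ncard_le_one_iff_subsingleton.2 hsub
            omega
          rw [h2, finrank_bot]
          omega
        · by_cases hbot : ∃ c ∈ L ⊓ Sup F X, c ≠ 0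
          · obtain ⟨c, hc, hc0⟩ := hbot
            apply finrank_le_one (⟨c, hc⟩ : ↥(L ⊓ Sup F X))
            rintro ⟨c', hc'⟩
            obtain ⟨x, y, hxy, h4⟩ := hY X Subset.rfl hcon hsub c hc.1 hc.2 c' hc'.1 hc'.2
            have hy : y ≠ 0 := by
              intro hy
              rw [hy, zero_smul, add_zero, smul_eq_zero] at h4
              rcases h4 with h4 | h4
              · rcases hxy with h | h
                · exact h h4
                · exact h hy
              · exact hc0 h4
            refine ⟨-(x / y), ?_⟩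
            apply Subtype.ext
            simp only [SetLike.mk_smul_mk]
            have h5 : y • (-(x / y) • c - c') = 0 := by
              rw [smul_sub, smul_smul]
              have : y * -(x / y) = -x := by field_simp
              rw [this, neg_smul]
              have := neg_eq_zero.2 h4
              rw [neg_add] at this
              rwa [sub_eq_add_neg]
            rw [smul_eq_zero] at h5
            exact sub_eq_zero.1 (h5.resolve_left hy)
          · push Not at hbot
            have : L ⊓ Sup F X = ⊥ := by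
              rw [eq_bot_iff]
              intro c hc'
              exact hbot c hc'
            rw [this, finrank_bot]
            omega
    · have : ∃ Y ⊆ X, Y.Nonempty ∧ Y ≠ X ∧ ∀ c ∈ L, c ∈ Sup F X → Y.indicator c ∈ L := by
        by_contra hcon'
        apply hcon
        intro Y hYK hYn hYne
        by_contra hcon2
        push Not at hcon2
        exact hcon' ⟨Y, hYK, hYn, hYne, hcon2⟩
      obtain ⟨Y, hYX, hYn, hYne, hYs⟩ := this
      have hlt1 : Y.ncard < X.ncard :=
        Set.ncard_lt_ncard ⟨hYX, fun h => hYne (Subset.antisymm hYX h)⟩ (Set.toFinite _)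
      have hlt2 : (X \ Y).ncard < X.ncard := by
        apply Set.ncard_lt_ncard _ (Set.toFinite _)
        refine ⟨sdiff_subset, fun h => ?_⟩
        obtain ⟨y, hy⟩ := hYn
        exact (h (hYX hy)).2 hy
      have i1 := ih Y (by omega) (fun Z hZ => hY Z (hZ.trans hYX))
        (fun c hc hcY => h3 c hc (Sup_mono hYX hcY))
      have i2 := ih (X \ Y) (by omega) (fun Z hZ => hY Z (hZ.trans sdiff_subset))
        (fun c hc hcY => h3 c hc (Sup_mono sdiff_subset hcY))
      have h5 : L ⊓ Sup F X ≤ (L ⊓ Sup F Y) ⊔ (L ⊓ Sup F (X \ Y)) := by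
        intro c hc
        have h6 := hYs c hc.1 hc.2
        have h7 : (X \ Y).indicator c ∈ L := by
          rw [diff_indicator hc.2]; exact L.sub_mem hc.1 h6
        have h8 : c = Y.indicator c + (X \ Y).indicator c := by
          rw [diff_indicator hc.2]; abel
        rw [h8]
        exact Submodule.add_mem_sup
          ⟨h6, Sup_mono inter_subset_right (indicator_mem_Sup hc.2 Y)⟩
          ⟨h7, Sup_mono inter_subset_right (indicator_mem_Sup hc.2 _)⟩
      have h6 := Submodule.finrank_mono h5
      have h7 := Submodule.finrank_add_le_finrank_add_finrank (L ⊓ Sup F Y) (L ⊓ Sup F (X \ Y))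
      have h8 : (X \ Y).ncard + Y.ncard = X.ncard :=
        Set.ncard_sdiff_add_ncard_of_subset hYX (Set.toFinite _)
      omega

end LastSteps

end Pool.Agent.Lib.MP_a7207a_co
end
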