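import Pool.Agent.Lib.MP_a7207a_co.Config

/-!
# Consequences of depth at most two, and connectivity after a d*-step
-/

set_option linter.unusedSectionVars false

namespace Pool.Agent.Lib.MP_a7207a_co

open Set Matroid Function Module

section General

variable {F : Type*} [Field F] {α : Type*} [Finite α]

lemma ncard_pair_le' (i j : α) : ({i, j} : Set α).ncard ≤ 2 := by
  have h1 := Set.ncard_insert_le i ({j} : Set α)
  rw [Set.ncard_singleton] at h1
  exact h1

/-- Many dependencies on few elements force a short word. -/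
lemma short_word {L : Submodule F (α → F)} {K X : Set α} (h : LD 2 L K) (hX : X ⊆ K)
    (hdim : X.ncard < 3 * finrank F ↥(L ⊓ Sup F X)) :
    ∃ c ∈ L, c ∈ Sup F X ∧ c ≠ 0 ∧ (support c).ncard ≤ 2 := by
  by_contra hcon
  push Not at hcon
  have h3 : ∀ c ∈ L, c ∈ Sup F X → c ≠ 0 → 3 ≤ (support c).ncard := by
    intro c hc hcX hc0
    have := hcon c hc hcX hc0
    omega
  have := dim_bound _ X le_rfl (by
    intro Y hY hc hns
    rcases rank_or_nullity h (hY.trans hX) hc hns with h1 | h1
    · exfalso
      rw [Set.not_subsingleton_iff] at hns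
      obtain ⟨i, hi, j, hj, hij⟩ := hns
      obtain ⟨d, hd, hd0, hds⟩ := h1 i hi j hj hij
      have h4 := h3 d hd (mem_Sup_iff.2 (hds.trans (by
        intro k hk
        rcases hk with rfl | hk
        · exact hY hi
        · rw [Set.mem_singleton_iff.1 hk]; exact hY hj))) hd0
      have h5 := Set.ncard_le_ncard hds (Set.toFinite _)
      have h6 := ncard_pair_le' i j
      omega
    · exact h1) h3
  omega

/-- A circuit with at least three elements cannot have an element with a parallel copy. -/
lemma no_circuit {L : Submodule F (α → F)} {K : Set α} (h : LD 2 L K) {r c : α → F} {z z' : α}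
    (hr : MinWord L r) (hrK : r ∈ Sup F K) (hrz : r z ≠ 0) (h3 : 3 ≤ (support r).ncard)
    (hc : c ∈ L) (hcs : support c ⊆ {z, z'}) (hz' : z' ∈ K) (hcz : c z ≠ 0) (hcz' : c z' ≠ 0)
    (hzL : ({z} : Set α).indicator c ∉ L) : False := by
  have hzz : z ≠ z' := by
    rintro rfl
    apply hzL
    have : ({z} : Set α).indicator c = c := by
      rw [Set.indicator_eq_self]
      intro i hi
      have := hcs hi
      simpa using this
    rw [this]; exact hc
  set X : Set α := insert z' (support r) with hX
  have hXK : X ⊆ K := by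
    rw [hX, Set.insert_subset_iff]
    exact ⟨hz', mem_Sup_iff.1 hrK⟩
  have hrX : r ∈ Sup F X := mem_Sup_iff.2 (Set.subset_insert _ _)
  have hcX : c ∈ Sup F X := by
    rw [mem_Sup_iff]
    refine hcs.trans ?_
    intro i hi
    rcases hi with rfl | hi
    · exact Or.inr hrz
    · exact Or.inl (Set.mem_singleton_iff.1 hi)
  have hns : ¬ X.Subsingleton := by
    intro hs
    exact hzz (hs (Or.inr hrz) (Or.inl rfl))
  have hconn : Conn L X := by
    intro Y hY hYn hYne
    by_contra hcon
    push Not at hcon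
    have hcY := hcon c hc hcX
    have hrY := hcon r hr.mem hrX
    -- `z` and `z'` are on the same side
    have hside : z ∈ Y ↔ z' ∈ Y := by
      constructor
      · intro hz
        by_contra hz2
        apply hzL
        have : ({z} : Set α).indicator c = Y.indicator c := by
          funext i
          by_cases hi : i = z
          · subst hi
            rw [Set.indicator_of_mem (Set.mem_singleton i), Set.indicator_of_mem hz]
          · rw [Set.indicator_of_notMem (by simpa using hi)]
            by_cases hi2 : i ∈ Y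
            · rw [Set.indicator_of_mem hi2]
              by_contra hci
              rcases hcs (show i ∈ support c from fun h => hci h.symm) with h | h
              · exact hi h
              · exact hz2 (Set.mem_singleton_iff.1 h ▸ hi2)
            · rw [Set.indicator_of_notMem hi2]
        rw [this]; exact hcY
      · intro hz2
        by_contra hz
        apply hzL
        have : ({z} : Set α).indicator c = c - Y.indicator c := by
          funext i
          rw [Pi.sub_apply]
          by_cases hi : i = z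
          · subst hi
            rw [Set.indicator_of_mem (Set.mem_singleton i), Set.indicator_of_notMem hz, sub_zero]
          · rw [Set.indicator_of_notMem (by simpa using hi)]
            by_cases hi2 : i ∈ Y
            · rw [Set.indicator_of_mem hi2, sub_self]
            · rw [Set.indicator_of_notMem hi2, sub_zero]
              by_contra hci
              rcases hcs (show i ∈ support c from fun h => hci h.symm) with h | h
              · exact hi h
              · exact hi2 (Set.mem_singleton_iff.1 h ▸ hz2)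
        rw [this]; exact L.sub_mem hc hcY
    by_cases h0 : Y.indicator r = 0
    · obtain ⟨y, hy⟩ := hYn
      have hzY : z ∉ Y := by
        intro hz
        have := congrFun h0 z
        rw [Set.indicator_of_mem hz] at this
        exact hrz this
      rcases hY hy with rfl | hyr
      · exact hzY (hside.2 hy)
      · have := congrFun h0 y
        rw [Set.indicator_of_mem hy] at this
        exact hyr this
    · have h1 := hr.min _ hrY h0 (by
        intro i hi
        by_contra hri
        apply hi
        have hri' : r i = 0 := by simpa using hri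
        by_cases hiY : i ∈ Y
        · rw [Set.indicator_of_mem hiY]; exact hri'
        · rw [Set.indicator_of_notMem hiY])
      have hsub : support r ⊆ Y := by
        intro i hi
        rw [← h1] at hi
        by_contra hiY
        exact hi (Set.indicator_of_notMem hiY r)
      apply hYne
      apply Subset.antisymm hY
      rintro i (rfl | hi)
      · exact hside.1 (hsub hrz)
      · exact hsub hi
  rcases rank_or_nullity h hXK hconn hns with h1 | h1
  · -- two elements of the circuit
    have : ∃ i ∈ support r, i ≠ z := by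
      by_contra hcon
      push Not at hcon
      have : (support r).Subsingleton := by
        intro a ha b hb
        rw [hcon a ha, hcon b hb]
      have := Set.ncard_le_one_iff_subsingleton.2 this
      omega
    obtain ⟨i, hi, hiz⟩ := this
    obtain ⟨d, hd, hd0, hds⟩ := h1 i (Or.inr hi) z (Or.inr hrz) hiz
    have h2 : support d ⊆ support r := by
      refine hds.trans ?_
      intro k hk
      rcases hk with rfl | hk
      · exact hi
      · rw [Set.mem_singleton_iff.1 hk]; exact hrz
    have h4 := hr.min d hd hd0 h2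
    have h5 := Set.ncard_le_ncard hds (Set.toFinite _)
    have h6 := ncard_pair_le' i z
    rw [h4] at h5
    omega
  · obtain ⟨x, y, hxy, h2⟩ := h1 r hr.mem hrX c hc hcX
    have : ∃ i ∈ support r, i ∉ ({z, z'} : Set α) := by
      by_contra hcon
      push Not at hcon
      have h5 := Set.ncard_le_ncard (show support r ⊆ {z, z'} from hcon) (Set.toFinite _)
      have h6 := ncard_pair_le' z z'
      omega
    obtain ⟨i, hi, hi2⟩ := this
    have hci : c i = 0 := by
      by_contra hci
      exact hi2 (hcs hci)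
    have h3 := congrFun h2 i
    simp only [Pi.add_apply, Pi.smul_apply, smul_eq_mul, hci, mul_zero, add_zero,
      Pi.zero_apply] at h3
    have hx : x = 0 := (mul_eq_zero.1 h3).resolve_right hi
    rw [hx, zero_smul, zero_add] at h2
    have h4 := congrFun h2 z
    simp only [Pi.smul_apply, smul_eq_mul, Pi.zero_apply] at h4
    have hy : y = 0 := (mul_eq_zero.1 h4).resolve_right hcz
    rcases hxy with h | h
    · exact h hx
    · exact h hy

/-- Dimension of the words supported in `X`. -/
lemma finrank_Sup [Fintype α] (X : Set α) : finrank F (Sup F X) = X.ncard := by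
  classical
  let e : Sup F X ≃ₗ[F] (X → F) :=
    { toFun := fun c x => c.1 x
      map_add' := fun _ _ => rfl
      map_smul' := fun _ _ => rfl
      invFun := fun c => ⟨fun i => if h : i ∈ X then c ⟨i, h⟩ else 0, fun i hi => dif_neg hi⟩
      left_inv := by
        intro c
        apply Subtype.ext
        funext i
        by_cases hi : i ∈ X
        · simp [hi]
        · simp only [hi, dite_false]
          exact (c.2 i hi).symm
      right_inv := by
        intro c
        funext x
        simp }
  rw [e.finrank_eq, Module.finrank_fintype_fun_eq_card, ← Nat.card_eq_fintype_card]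
  rfl

lemma finrank_inf_ker [Fintype α] (W : Submodule F (α → F)) (w : (α → F) →ₗ[F] F) :
    finrank F W ≤ finrank F ↥(W ⊓ LinearMap.ker w) + 1 := by
  have h1 := Submodule.finrank_sup_add_finrank_inf_eq W (LinearMap.ker w)
  have h2 := LinearMap.finrank_range_add_finrank_ker w
  have h3 : finrank F (LinearMap.range w) ≤ 1 := by
    have := Submodule.finrank_le (LinearMap.range w)
    rwa [Module.finrank_self] at this
  have h4 : finrank F ↥(W ⊔ LinearMap.ker w) ≤ finrank F (α → F) := Submodule.finrank_le _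
  omega

lemma finrank_step [Fintype α] {L L' : Submodule F (α → F)} (h : CS L L' ∨ DS L L')
    (W : Submodule F (α → F)) : finrank F ↥(L ⊓ W) ≤ finrank F ↥(L' ⊓ W) + 1 := by
  rcases h with ⟨h, -⟩ | ⟨-, w, hw⟩
  · have : L ⊓ W ≤ L' ⊓ W := inf_le_inf_right _ h
    have := Submodule.finrank_mono this
    omega
  · have h1 := finrank_inf_ker (L ⊓ W) w
    have h2 : (L ⊓ W) ⊓ LinearMap.ker w ≤ L' ⊓ W := by
      intro c hc
      exact ⟨hw ⟨hc.1.1, hc.2⟩, hc.1.2⟩
    have := Submodule.finrank_mono h2
    omega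

end General

section Frame

/-- Two words on the frame and at most one more element, with few zeros on the frame. -/
lemma no_plane {L : Submodule ℚ (E → ℚ)} {K X : Set E} (h : LD 2 L K) (hXK : X ⊆ K)
    {d₁ d₂ : E → ℚ} (hd₁ : d₁ ∈ L) (hd₁X : d₁ ∈ Sup ℚ X) (hd₂ : d₂ ∈ L) (hd₂X : d₂ ∈ Sup ℚ X)
    (hX : ∀ j, e1 j ∈ X) (hX' : ∀ i ∈ X, (∃ j, i = e1 j) ∨ d₁ i ≠ 0 ∨ d₂ i ≠ 0)
    (hW : ∀ d ∈ L, d ∈ Sup ℚ X → ∀ j l, j ≠ l → d (e1 j) = 0 → d (e1 l) = 0 → d = 0)
    (hind : ∀ x y : ℚ, x • d₁ + y • d₂ = 0 → x = 0 ∧ y = 0) : False := by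
  have hns : ¬ X.Subsingleton := by
    intro hs
    have := hs (hX 0) (hX 1)
    simp at this
  have hconn : Conn L X := by
    intro Y hY hYn hYne
    by_contra hcon
    push Not at hcon
    -- a nonempty part on which all words vanish
    have key : ∃ Z ⊆ X, Z.Nonempty ∧ ∀ d ∈ L, d ∈ Sup ℚ X → ∀ i ∈ Z, d i = 0 := by
      by_cases h2 : ∃ j l, j ≠ l ∧ e1 j ∉ Y ∧ e1 l ∉ Y
      · obtain ⟨j, l, hjl, hj, hl⟩ := h2
        refine ⟨Y, hY, hYn, fun d hd hdX i hi => ?_⟩
        have h3 := hW _ (hcon d hd hdX)
          (Sup_mono inter_subset_left (indicator_mem_Sup hdX Y)) j l hjl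
          (Set.indicator_of_notMem hj _) (Set.indicator_of_notMem hl _)
        have := congrFun h3 i
        rwa [Set.indicator_of_mem hi] at this
      · push Not at h2
        have h4 : ∃ j l, j ≠ l ∧ e1 j ∈ Y ∧ e1 l ∈ Y := by
          by_cases h0 : e1 0 ∈ Y
          · by_cases h1 : e1 1 ∈ Y
            · exact ⟨0, 1, by decide, h0, h1⟩
            · exact ⟨0, 2, by decide, h0, h2 1 2 (by decide) h1⟩
          · exact ⟨1, 2, by decide, h2 0 1 (by decide) h0, h2 0 2 (by decide) h0⟩
        obtain ⟨j, l, hjl, hj, hl⟩ := h4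
        refine ⟨X \ Y, sdiff_subset, ?_, fun d hd hdX i hi => ?_⟩
        · by_contra hemp
          rw [Set.not_nonempty_iff_eq_empty, Set.sdiff_eq_empty] at hemp
          exact hYne (Subset.antisymm hY hemp)
        · have h3 := hW _ (L.sub_mem hd (hcon d hd hdX))
            ((Sup ℚ X).sub_mem hdX (Sup_mono inter_subset_left (indicator_mem_Sup hdX Y))) j l hjl
            (by rw [Pi.sub_apply, Set.indicator_of_mem hj, sub_self])
            (by rw [Pi.sub_apply, Set.indicator_of_mem hl, sub_self])
          have := congrFun h3 i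
          rwa [Pi.sub_apply, Set.indicator_of_notMem hi.2, sub_zero] at this
    obtain ⟨Z, hZX, ⟨i, hi⟩, hZ⟩ := key
    rcases hX' i (hZX hi) with ⟨j, rfl⟩ | h1 | h1
    · -- all words vanish at `e1 j`
      obtain ⟨l, hl⟩ : ∃ l : Fin 4, l ≠ j := exists_ne j
      by_cases h0 : d₁ (e1 l) = 0 ∧ d₂ (e1 l) = 0
      · have := hW d₁ hd₁ hd₁X j l hl.symm (hZ d₁ hd₁ hd₁X _ hi) h0.1
        have h5 := hind 1 0 (by rw [this]; simp)
        exact one_ne_zero h5.1
      · have h3 := hW (d₂ (e1 l) • d₁ + (- d₁ (e1 l)) • d₂)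
          (L.add_mem (L.smul_mem _ hd₁) (L.smul_mem _ hd₂))
          ((Sup ℚ X).add_mem ((Sup ℚ X).smul_mem _ hd₁X) ((Sup ℚ X).smul_mem _ hd₂X)) j l
          hl.symm (by
            rw [Pi.add_apply, Pi.smul_apply, Pi.smul_apply, hZ d₁ hd₁ hd₁X _ hi,
              hZ d₂ hd₂ hd₂X _ hi, smul_zero, smul_zero, add_zero]) (by
            rw [Pi.add_apply, Pi.smul_apply, Pi.smul_apply, smul_eq_mul, smul_eq_mul]
            ring)
        have h5 := hind _ _ h3
        exact h0 ⟨by simpa using h5.2, h5.1⟩
    · exact h1 (hZ d₁ hd₁ hd₁X i hi)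
    · exact h1 (hZ d₂ hd₂ hd₂X i hi)
  rcases rank_or_nullity h hXK hconn hns with h1 | h1
  · obtain ⟨d, hd, hd0, hds⟩ := h1 (e1 0) (hX 0) (e1 1) (hX 1) (by simp)
    apply hd0
    apply hW d hd ?_ 2 3 (by decide)
    · by_contra h2
      have := hds h2
      simp at this
    · by_contra h2
      have := hds h2
      simp at this
    · rw [mem_Sup_iff]
      refine hds.trans ?_
      intro k hk
      rcases hk with rfl | hk
      · exact hX 0
      · rw [Set.mem_singleton_iff.1 hk]; exact hX 1
  · obtain ⟨x, y, hxy, h2⟩ := h1 d₁ hd₁ hd₁X d₂ hd₂ hd₂X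
    have h3 := hind x y h2
    rcases hxy with h | h
    · exact h h3.1
    · exact h h3.2

end Frame

section DStep

/-- A dependency crossing a good partition, in the kernel of a given functional. -/
lemma good_word {κ σ : Fin 4 → ℚ} {W : Set E} (hG : Good κ σ W) (w : (E → ℚ) →ₗ[ℚ] ℚ) :
    ∃ c, Phi κ σ c = 0 ∧ w c = 0 ∧ Phi κ σ (W.indicator c) ≠ 0 := by
  obtain ⟨u₁, u₂, ⟨a₁, ha₁, hu₁⟩, ⟨b₁, hb₁, hv₁⟩, ⟨a₂, ha₂, hu₂⟩, ⟨b₂, hb₂, hv₂⟩, hind⟩ := hG
  have hxy : ∃ x y : ℚ, (x ≠ 0 ∨ y ≠ 0) ∧ x * w (a₁ - b₁) + y * w (a₂ - b₂) = 0 := by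
    by_cases h0 : w (a₁ - b₁) = 0 ∧ w (a₂ - b₂) = 0
    · exact ⟨1, 0, Or.inl one_ne_zero, by rw [h0.1]; simp⟩
    · refine ⟨w (a₂ - b₂), - w (a₁ - b₁), ?_, by ring⟩
      by_contra hcon
      push Not at hcon
      exact h0 ⟨neg_eq_zero.1 hcon.2, hcon.1⟩
  obtain ⟨x, y, hxy, hw⟩ := hxy
  refine ⟨x • (a₁ - b₁) + y • (a₂ - b₂), ?_, ?_, ?_⟩
  · rw [map_add, map_smul, map_smul, map_sub, map_sub, hu₁, hv₁, hu₂, hv₂]
    simp
  · rw [map_add, map_smul, map_smul]; exact hw
  · have h1 : W.indicator (x • (a₁ - b₁) + y • (a₂ - b₂)) = x • a₁ + y • a₂ := by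
      funext i
      by_cases hi : i ∈ W
      · rw [Set.indicator_of_mem hi]
        simp only [Pi.add_apply, Pi.smul_apply, Pi.sub_apply, hb₁ i (fun h => h hi),
          hb₂ i (fun h => h hi), sub_zero]
      · rw [Set.indicator_of_notMem hi]
        simp only [Pi.add_apply, Pi.smul_apply, ha₁ i hi, ha₂ i hi, smul_zero, add_zero]
    rw [h1, map_add, map_smul, map_smul, hu₁, hu₂]
    intro h0
    have := hind x y h0
    rcases hxy with h | h
    · exact h this.1
    · exact h this.2

lemma vec_ne_zero {κ σ : Fin 4 → ℚ} (e : E) : vec κ σ e ≠ 0 := by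
  rcases e with j | t | s
  · rw [vec_e1]
    intro h
    have := congrFun (congrArg Prod.snd h) j
    simp at this
  · rw [vec_e2]
    intro h
    have := congrArg Prod.fst h
    simp at this
  · rw [vec_e3]
    intro h
    have := congrArg Prod.fst h
    simp at this

/-- Connectivity after a d*-step. -/
theorem conn_d {κ σ β : Fin 4 → ℚ} (H : OK κ σ β) {L₁ : Submodule ℚ (E → ℚ)}
    (hL : DS (LinearMap.ker (Phi κ σ)) L₁) :
    Conn L₁ univ ∨ ∃ e, L₁ ≤ Sup ℚ {e}ᶜ ∧ Conn L₁ {e}ᶜ := by
  obtain ⟨hle, w, hw⟩ := hL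
  by_cases hcon : Conn L₁ univ
  · exact Or.inl hcon
  right
  have : ∃ Y : Set E, Y.Nonempty ∧ Y ≠ univ ∧ ∀ c ∈ L₁, Y.indicator c ∈ L₁ := by
    by_contra hcon'
    apply hcon
    intro Y _ hYn hYne
    by_contra hcon2
    push Not at hcon2
    exact hcon' ⟨Y, hYn, hYne, fun c hc => hcon2 c hc (by rw [Sup_univ]; exact Submodule.mem_top)⟩
  obtain ⟨Y, hYn, hYne, hYs⟩ := this
  have hYs' : ∀ c ∈ L₁, (Yᶜ).indicator c ∈ L₁ := by
    intro c hc
    rw [Set.indicator_compl]
    exact L₁.sub_mem hc (hYs c hc)
  -- one of the two parts is a single element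
  have hone : ∃ e, ∀ c ∈ L₁, ({e} : Set E).indicator c ∈ L₁ := by
    by_cases h1 : ∃ a ∈ Y, ∃ b ∈ Y, a ≠ b
    · by_cases h2 : ∃ a ∈ Yᶜ, ∃ b ∈ Yᶜ, a ≠ b
      · exfalso
        obtain ⟨c, hc1, hc2, hc3⟩ := good_word (good H h1 h2) w
        have h3 : c ∈ L₁ := hw ⟨hc1, hc2⟩
        exact hc3 (hle (hYs c h3))
      · push Not at h2
        have : (Yᶜ).Nonempty := by
          rw [Set.nonempty_compl]; exact hYne
        obtain ⟨e, he⟩ := this
        refine ⟨e, ?_⟩
        have : ({e} : Set E) = Yᶜ := by
          ext a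
          constructor
          · rintro rfl; exact he
          · intro ha; exact h2 a ha e he
        rw [this]; exact hYs'
    · push Not at h1
      obtain ⟨e, he⟩ := hYn
      refine ⟨e, ?_⟩
      have : ({e} : Set E) = Y := by
        ext a
        constructor
        · rintro rfl; exact he
        · intro ha; exact h1 a ha e he
      rw [this]; exact hYs
  obtain ⟨e, he⟩ := hone
  have hzero : ∀ c ∈ L₁, c e = 0 := by
    intro c hc
    have h1 := hle (he c hc)
    rw [LinearMap.mem_ker] at h1
    have h2 : ({e} : Set E).indicator c = (c e) • Pi.single e (1 : ℚ) := by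
      funext j
      by_cases hj : j = e
      · subst hj; simp
      · simp [hj]
    rw [h2, map_smul, smul_eq_zero] at h1
    exact h1.resolve_right (vec_ne_zero e)
  refine ⟨e, ?_, ?_⟩
  · intro c hc i hi
    have : i = e := by simpa using hi
    rw [this]; exact hzero c hc
  -- the dependencies vanishing at `e` all survive
  obtain ⟨d, hd, hde⟩ := vec_mem_compl (κ := κ) (σ := σ) e
  set c₀ : E → ℚ := Pi.single e 1 - d with hc₀
  have hc₀L : Phi κ σ c₀ = 0 := by
    rw [hc₀, map_sub, hde]
    exact sub_self _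
  have hc₀e : c₀ e = 1 := by
    rw [hc₀, Pi.sub_apply, hd e (by simp)]
    simp
  have hwc₀ : w c₀ ≠ 0 := by
    intro h0
    have := hzero c₀ (hw ⟨hc₀L, h0⟩)
    rw [hc₀e] at this
    exact one_ne_zero this
  have hsurv : ∀ c, Phi κ σ c = 0 → c e = 0 → c ∈ L₁ := by
    intro c hc hce
    have h1 : c - (w c / w c₀) • c₀ ∈ L₁ := by
      apply hw
      refine ⟨?_, ?_⟩
      · rw [SetLike.mem_coe, LinearMap.mem_ker, map_sub, map_smul, hc, hc₀L, smul_zero, sub_zero]
      · rw [SetLike.mem_coe, LinearMap.mem_ker, map_sub, map_smul, smul_eq_mul,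
          div_mul_cancel₀ _ hwc₀, sub_self]
    have h2 := hzero _ h1
    rw [Pi.sub_apply, Pi.smul_apply, hce, hc₀e, smul_eq_mul, mul_one, zero_sub, neg_eq_zero] at h2
    rw [h2, zero_smul, sub_zero] at h1
    exact h1
  -- connectivity
  intro Z hZ hZn hZne
  have hZe : e ∉ Z := fun h => hZ h rfl
  have hfinish : ∀ W : Set E, (∀ i, i ≠ e → (i ∈ W ↔ i ∈ Z)) → Good κ σ W →
      ∃ c ∈ L₁, c ∈ Sup ℚ {e}ᶜ ∧ Z.indicator c ∉ L₁ := by
    intro W hWZ hG
    obtain ⟨c, hc1, hc2, hc3⟩ := good_word hG (LinearMap.proj e)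
    have hce : c e = 0 := hc2
    have hcL := hsurv c hc1 hce
    refine ⟨c, hcL, ?_, fun hZL => ?_⟩
    · intro i hi
      have : i = e := by simpa using hi
      rw [this]; exact hce
    · apply hc3
      have : W.indicator c = Z.indicator c := by
        funext i
        by_cases hi : i = e
        · rw [hi]
          rw [Set.indicator_of_notMem hZe]
          by_cases hW : e ∈ W
          · rw [Set.indicator_of_mem hW, hce]
          · rw [Set.indicator_of_notMem hW]
        · by_cases hiZ : i ∈ Z
          · rw [Set.indicator_of_mem hiZ, Set.indicator_of_mem ((hWZ i hi).2 hiZ)]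
          · rw [Set.indicator_of_notMem hiZ,
              Set.indicator_of_notMem (fun h => hiZ ((hWZ i hi).1 h))]
      rw [this]
      exact hle hZL
  -- two elements different from `e` on the same side
  have htwo : (∃ a b, a ≠ b ∧ a ∈ Z ∧ b ∈ Z) ∨ (∃ a b : E, a ≠ b ∧ a ≠ e ∧ b ≠ e ∧ a ∉ Z ∧ b ∉ Z) := by
    have : (∀ t : Fin 8, e2 t ≠ e) ∨ (∀ t : Fin 8, e3 t ≠ e) := by
      rcases e with j | t | s
      · left; intro t; simp
      · right; intro t; simp
      · left; intro t; simp
    rcases this with h | h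
    · rcases pigeon (fun t => e2 t ∈ Z) with ⟨t, t', htt, ht, ht'⟩ | ⟨t, t', htt, ht, ht'⟩
      · exact Or.inl ⟨e2 t, e2 t', by simpa using htt, ht, ht'⟩
      · exact Or.inr ⟨e2 t, e2 t', by simpa using htt, h t, h t', ht, ht'⟩
    · rcases pigeon (fun t => e3 t ∈ Z) with ⟨t, t', htt, ht, ht'⟩ | ⟨t, t', htt, ht, ht'⟩
      · exact Or.inl ⟨e3 t, e3 t', by simpa using htt, ht, ht'⟩
      · exact Or.inr ⟨e3 t, e3 t', by simpa using htt, h t, h t', ht, ht'⟩
  have hZ' : ∃ b, b ≠ e ∧ b ∉ Z := by
    by_contra hcon'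
    push Not at hcon'
    exact hZne (Subset.antisymm hZ (fun i hi => hcon' i (by simpa using hi)))
  rcases htwo with ⟨a, b, hab, ha, hb⟩ | ⟨a, b, hab, hae, hbe, ha, hb⟩
  · obtain ⟨b', hb'e, hb'Z⟩ := hZ'
    exact hfinish Z (fun i _ => Iff.rfl) (good H ⟨a, ha, b, hb, hab⟩
      ⟨b', hb'Z, e, hZe, hb'e⟩)
  · obtain ⟨z, hz⟩ := hZn
    refine hfinish (insert e Z) (fun i hi => ?_) (good H ⟨z, Or.inr hz, e, Or.inl rfl, ?_⟩
      ⟨a, ?_, b, ?_, hab⟩)
    · rw [Set.mem_insert_iff]
      constructor
      · rintro (h | h)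
        · exact absurd h hi
        · exact h
      · exact Or.inr
    · rintro rfl; exact hZe hz
    · rintro (h | h)
      · exact hae h
      · exact ha h
    · rintro (h | h)
      · exact hbe h
      · exact hb h

end DStep

end Pool.Agent.Lib.MP_a7207a_co
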