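import Pool.Agent.Lib.MP_a7207a_co.Last
import Pool.Agent.Lib.MP_a7207a_co.Game

section

/-!
# The lower bound for the matrix depth
-/

set_option linter.unusedSectionVars false

namespace Pool.Agent.Lib.MP_a7207a_co

open Set Matroid Function Module

/-- The direction of the second line. -/
def rho : Fin 4 → ℚ := fun j => -((j.val : ℚ) + 1)

lemma rho_inj : Injective rho := by
  intro i j h
  unfold rho at h
  have : (i.val : ℚ) = j.val := by linarith
  exact Fin.ext (by exact_mod_cast this)

lemma rho_neg (j : Fin 4) : rho j < 0 := by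
  unfold rho
  have : (0 : ℚ) ≤ j.val := Nat.cast_nonneg _
  linarith

lemma okA : OK 0 rho rho where
  alt := Or.inl ⟨rfl, rfl⟩
  inj := rho_inj
  h1 := fun j => (rho_neg j).ne
  h2 := by
    intro j s t h
    have h1 := mul_neg_of_pos_of_neg (par_pos s) (rho_neg j)
    have h2 := par_pos t
    simp only [Pi.zero_apply] at h
    linarith
  h3 := by
    intro j l s hjl h
    simp only [Pi.zero_apply, zero_add] at h
    exact hjl (rho_inj (mul_left_cancel₀ (par_pos s).ne' h))
  h4 := by
    intro j l t hjl h
    simp only [Pi.zero_apply, zero_sub] at h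
    have h1 : par t * (rho j - rho l) = 0 := by linarith
    have h2 := (mul_eq_zero.1 h1).resolve_left (par_pos t).ne'
    exact hjl (rho_inj (by linarith))

/-- The map of the first matrix. -/
abbrev PA : (E → ℚ) →ₗ[ℚ] V := Phi 0 rho

lemma comb_zero {x y : ℚ} {j l : Fin 4} (hjl : j ≠ l) (h1 : x + y * rho j = 0)
    (h2 : x + y * rho l = 0) : x = 0 ∧ y = 0 := by
  have h3 : y * (rho j - rho l) = 0 := by linarith
  have h4 : y = 0 := (mul_eq_zero.1 h3).resolve_right (sub_ne_zero.2 fun h => hjl (rho_inj h))
  rw [h4] at h1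
  exact ⟨by linarith, h4⟩

/-- Words on the frame and one point of the first line. -/
def W2 (f : Fin 4 → ℚ) (t : Fin 8) (u : ℚ) : E → ℚ :=
  Sum.elim f (Sum.elim (Pi.single t u) 0)

/-- Words on the frame and one point of the second line. -/
def W3 (f : Fin 4 → ℚ) (s : Fin 8) (u : ℚ) : E → ℚ :=
  Sum.elim f (Sum.elim 0 (Pi.single s u))

lemma W2_e1 (f : Fin 4 → ℚ) (t : Fin 8) (u : ℚ) (j : Fin 4) : W2 f t u (e1 j) = f j := rfl
lemma W2_e2 (f : Fin 4 → ℚ) (t : Fin 8) (u : ℚ) (t' : Fin 8) :
    W2 f t u (e2 t') = (Pi.single t u : Fin 8 → ℚ) t' := rfl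
lemma W2_e3 (f : Fin 4 → ℚ) (t : Fin 8) (u : ℚ) (s : Fin 8) : W2 f t u (e3 s) = 0 := rfl
lemma W3_e1 (f : Fin 4 → ℚ) (t : Fin 8) (u : ℚ) (j : Fin 4) : W3 f t u (e1 j) = f j := rfl
lemma W3_e3 (f : Fin 4 → ℚ) (t : Fin 8) (u : ℚ) (t' : Fin 8) :
    W3 f t u (e3 t') = (Pi.single t u : Fin 8 → ℚ) t' := rfl
lemma W3_e2 (f : Fin 4 → ℚ) (t : Fin 8) (u : ℚ) (s : Fin 8) : W3 f t u (e2 s) = 0 := rfl

lemma PA_W2 (f : Fin 4 → ℚ) (t : Fin 8) (u : ℚ) : PA (W2 f t u) = (u, fun j => f j + par t * u) := by
  ext
  · rw [Phi_fst]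
    simp only [W2_e2, W2_e3, Finset.sum_pi_single', Finset.mem_univ, if_true,
      Finset.sum_const_zero, add_zero]
  · rw [Phi_snd]
    simp only [W2_e1, W2_e2, W2_e3, Finset.sum_const_zero, mul_zero, add_zero]
    simp [Pi.single_apply]

lemma PA_W3 (f : Fin 4 → ℚ) (s : Fin 8) (u : ℚ) :
    PA (W3 f s u) = (u, fun j => f j + rho j * (par s * u)) := by
  ext
  · rw [Phi_fst]
    simp only [W3_e2, W3_e3, Finset.sum_pi_single', Finset.mem_univ, if_true,
      Finset.sum_const_zero, zero_add]
  · rw [Phi_snd]
    simp only [W3_e1, W3_e2, W3_e3, Finset.sum_const_zero, mul_zero, add_zero]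
    simp [Pi.single_apply]

lemma W2_mem (f : Fin 4 → ℚ) (t : Fin 8) (u : ℚ) : W2 f t u ∈ Sup ℚ (insert (e2 t) (range e1)) := by
  intro i hi
  rcases i with j | t' | s
  · exact absurd (Or.inr ⟨j, rfl⟩) hi
  · have : t' ≠ t := by
      rintro rfl
      exact hi (Or.inl rfl)
    simp [W2, this]
  · rfl

lemma W3_mem (f : Fin 4 → ℚ) (s : Fin 8) (u : ℚ) : W3 f s u ∈ Sup ℚ (insert (e3 s) (range e1)) := by
  intro i hi
  rcases i with j | t | s'
  · exact absurd (Or.inr ⟨j, rfl⟩) hi
  · rfl
  · have : s' ≠ s := by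
      rintro rfl
      exact hi (Or.inl rfl)
    simp [W3, this]

lemma eq_W2 {d : E → ℚ} {t : Fin 8} (hd : d ∈ Sup ℚ (insert (e2 t) (range e1))) :
    d = W2 (fun j => d (e1 j)) t (d (e2 t)) := by
  funext i
  rcases i with j | t' | s
  · rfl
  · by_cases h : t' = t
    · subst h; simp [W2]
    · rw [hd _ (by simp [h])]
      simp [W2, h]
  · rw [hd _ (by simp)]
    rfl

lemma eq_W3 {d : E → ℚ} {s : Fin 8} (hd : d ∈ Sup ℚ (insert (e3 s) (range e1))) :
    d = W3 (fun j => d (e1 j)) s (d (e3 s)) := by
  funext i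
  rcases i with j | t | s'
  · rfl
  · rw [hd _ (by simp)]
    rfl
  · by_cases h : s' = s
    · subst h; simp [W3]
    · rw [hd _ (by simp [h])]
      simp [W3, h]

/-- A short word on a line. -/
structure Short2 (L : Submodule ℚ (E → ℚ)) (K : Set E) (c : E → ℚ) (a p : ℚ) : Prop where
  mem : c ∈ L
  val : PA c = (a, fun _ => p)
  ne : a ≠ 0 ∨ p ≠ 0

/-- A short word on the second line. -/
structure Short3 (L : Submodule ℚ (E → ℚ)) (K : Set E) (c : E → ℚ) (a p : ℚ) : Prop where
  mem : c ∈ L
  val : PA c = (a, fun j => p * rho j)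
  ne : a ≠ 0 ∨ p ≠ 0

lemma pair_of_ncard {X : Set E} {f : Fin 8 → E} (hX : X ⊆ range f)
    (h2 : X.ncard ≤ 2) : ∃ t t', t ≠ t' ∧ X ⊆ {f t, f t'} := by
  have h3 : X.ncard = 0 ∨ X.ncard = 1 ∨ X.ncard = 2 := by omega
  rcases h3 with h3 | h3 | h3
  · rw [Set.ncard_eq_zero (Set.toFinite _)] at h3
    exact ⟨0, 1, by decide, by rw [h3]; exact empty_subset _⟩
  · rw [Set.ncard_eq_one] at h3
    obtain ⟨x, rfl⟩ := h3
    obtain ⟨t, rfl⟩ := hX rfl
    obtain ⟨t', ht'⟩ := exists_ne t
    exact ⟨t, t', ht'.symm, by intro i hi; exact Or.inl hi⟩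
  · rw [Set.ncard_eq_two] at h3
    obtain ⟨x, y, hxy, rfl⟩ := h3
    obtain ⟨t, rfl⟩ := hX (Or.inl rfl)
    obtain ⟨t', rfl⟩ := hX (Or.inr rfl)
    exact ⟨t, t', fun h => hxy (by rw [h]), Subset.rfl⟩

lemma sum_two {w c : Fin 8 → ℚ} {t t' : Fin 8} (h : t ≠ t') (hc : ∀ i, i ≠ t → i ≠ t' → c i = 0) :
    ∑ i, w i * c i = w t * c t + w t' * c t' := by
  apply Finset.sum_eq_add t t' h
  · rintro i _ ⟨h1, h2⟩
    rw [hc i h1 h2, mul_zero]
  · intro h; exact absurd (Finset.mem_univ _) h
  · intro h; exact absurd (Finset.mem_univ _) h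

/-- Values of words on the first line. -/
lemma short2_val {c : E → ℚ} {t t' : Fin 8} (h : t ≠ t') (hc : support c ⊆ {e2 t, e2 t'}) :
    PA c = (c (e2 t) + c (e2 t'), fun _ => par t * c (e2 t) + par t' * c (e2 t')) := by
  have h1 : ∀ j, c (e1 j) = 0 := by
    intro j; by_contra h1; have := hc h1; simp at this
  have h3 : ∀ s, c (e3 s) = 0 := by
    intro s; by_contra h1; have := hc h1; simp at this
  have h2 : ∀ i, i ≠ t → i ≠ t' → c (e2 i) = 0 := by
    intro i hi hi'; by_contra h1; have := hc h1; simp [hi, hi'] at this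
  have h4 := sum_two (w := fun _ => 1) (c := fun i => c (e2 i)) h h2
  have h5 := sum_two (w := par) (c := fun i => c (e2 i)) h h2
  simp only [one_mul] at h4
  ext
  · rw [Phi_fst, h4]
    simp [h3]
  · rw [Phi_snd, h5]
    simp [h1, h3]

lemma short3_val {c : E → ℚ} {t t' : Fin 8} (h : t ≠ t') (hc : support c ⊆ {e3 t, e3 t'}) :
    PA c = (c (e3 t) + c (e3 t'), fun j => (par t * c (e3 t) + par t' * c (e3 t')) * rho j) := by
  have h1 : ∀ j, c (e1 j) = 0 := by
    intro j; by_contra h1; have := hc h1; simp at this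
  have h3 : ∀ s, c (e2 s) = 0 := by
    intro s; by_contra h1; have := hc h1; simp at this
  have h2 : ∀ i, i ≠ t → i ≠ t' → c (e3 i) = 0 := by
    intro i hi hi'; by_contra h1; have := hc h1; simp [hi, hi'] at this
  have h4 := sum_two (w := fun _ => 1) (c := fun i => c (e3 i)) h h2
  have h5 := sum_two (w := par) (c := fun i => c (e3 i)) h h2
  simp only [one_mul] at h4
  ext
  · rw [Phi_fst, h4]
    simp [h3]
  · rw [Phi_snd, h5]
    simp [h1, h3, mul_comm]

lemma lin_two {x y : ℚ} {t t' : Fin 8} (h : t ≠ t') (h1 : x + y = 0)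
    (h2 : par t * x + par t' * y = 0) : x = 0 ∧ y = 0 := by
  have h3 : (par t - par t') * x = 0 := by
    have : y = -x := by linarith
    rw [this] at h2; linarith
  have h4 := (mul_eq_zero.1 h3).resolve_left (sub_ne_zero.2 (par_inj h))
  exact ⟨h4, by linarith⟩

/-- The elements of the first line in `K`. -/
abbrev L2 (K : Set E) : Set E := range e2 ∩ K
/-- The elements of the second line in `K`. -/
abbrev L3 (K : Set E) : Set E := range e3 ∩ K

lemma ncard_line {f : Fin 8 → E} (hf : Injective f) {K : Set E}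
    (hK : ∀ t t', t ≠ t' → f t ∈ K ∨ f t' ∈ K) : 7 ≤ (range f ∩ K).ncard := by
  classical
  have h1 : (range f ∩ K) = f '' {t | f t ∈ K} := by
    ext i
    constructor
    · rintro ⟨⟨t, rfl⟩, hi⟩
      exact ⟨t, hi, rfl⟩
    · rintro ⟨t, ht, rfl⟩
      exact ⟨⟨t, rfl⟩, ht⟩
  rw [h1, Set.ncard_image_of_injective _ hf]
  have h2 : ({t | f t ∈ K}ᶜ : Set (Fin 8)).ncard ≤ 1 := by
    rw [Set.ncard_le_one (Set.toFinite _)]
    intro a ha b hb
    by_contra hab
    rcases hK a b hab with h | h
    · exact ha h
    · exact hb h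
  have h3 := Set.ncard_add_ncard_compl {t | f t ∈ K} (Set.toFinite _) (Set.toFinite _)
  rw [Nat.card_eq_fintype_card, Fintype.card_fin] at h3
  omega

lemma e1_inj : Injective e1 := Sum.inl_injective
lemma e2_inj : Injective e2 := Sum.inr_injective.comp Sum.inl_injective
lemma e3_inj : Injective e3 := Sum.inr_injective.comp Sum.inr_injective

/-- The dependencies among the points of a line. -/
lemma finrank_line2 {X : Set E} (hX : X ⊆ range e2) :
    X.ncard ≤ finrank ℚ ↥(LinearMap.ker PA ⊓ Sup ℚ X) + 2 := by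
  let a : (E → ℚ) →ₗ[ℚ] ℚ := ∑ t, LinearMap.proj (e2 t)
  let p : (E → ℚ) →ₗ[ℚ] ℚ := ∑ t, par t • LinearMap.proj (e2 t)
  have h1 := finrank_inf_ker (Sup ℚ X) a
  have h2 := finrank_inf_ker (Sup ℚ X ⊓ LinearMap.ker a) p
  rw [finrank_Sup] at h1
  have h3 : (Sup ℚ X ⊓ LinearMap.ker a) ⊓ LinearMap.ker p ≤ LinearMap.ker PA ⊓ Sup ℚ X := by
    rintro c ⟨⟨hc, ha⟩, hp⟩
    refine ⟨?_, hc⟩
    have hc1 : ∀ j, c (e1 j) = 0 := by
      intro j; exact hc _ (fun h => by have := hX h; simp at this)
    have hc3 : ∀ s, c (e3 s) = 0 := by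
      intro s; exact hc _ (fun h => by have := hX h; simp at this)
    have ha' : ∑ t, c (e2 t) = 0 := by
      have : a c = 0 := ha
      simpa [a, LinearMap.sum_apply] using this
    have hp' : ∑ t, par t * c (e2 t) = 0 := by
      have : p c = 0 := hp
      simpa [p, LinearMap.sum_apply] using this
    rw [SetLike.mem_coe, LinearMap.mem_ker]
    ext
    · rw [Phi_fst, ha']; simp [hc3]
    · rw [Phi_snd, hp']; simp [hc1, hc3]
  have h4 := Submodule.finrank_mono h3
  omega

lemma finrank_line3 {X : Set E} (hX : X ⊆ range e3) :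
    X.ncard ≤ finrank ℚ ↥(LinearMap.ker PA ⊓ Sup ℚ X) + 2 := by
  let a : (E → ℚ) →ₗ[ℚ] ℚ := ∑ t, LinearMap.proj (e3 t)
  let p : (E → ℚ) →ₗ[ℚ] ℚ := ∑ t, par t • LinearMap.proj (e3 t)
  have h1 := finrank_inf_ker (Sup ℚ X) a
  have h2 := finrank_inf_ker (Sup ℚ X ⊓ LinearMap.ker a) p
  rw [finrank_Sup] at h1
  have h3 : (Sup ℚ X ⊓ LinearMap.ker a) ⊓ LinearMap.ker p ≤ LinearMap.ker PA ⊓ Sup ℚ X := by
    rintro c ⟨⟨hc, ha⟩, hp⟩
    refine ⟨?_, hc⟩
    have hc1 : ∀ j, c (e1 j) = 0 := by
      intro j; exact hc _ (fun h => by have := hX h; simp at this)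
    have hc3 : ∀ s, c (e2 s) = 0 := by
      intro s; exact hc _ (fun h => by have := hX h; simp at this)
    have ha' : ∑ t, c (e3 t) = 0 := by
      have : a c = 0 := ha
      simpa [a, LinearMap.sum_apply] using this
    have hp' : ∑ t, par t * c (e3 t) = 0 := by
      have : p c = 0 := hp
      simpa [p, LinearMap.sum_apply] using this
    rw [SetLike.mem_coe, LinearMap.mem_ker]
    ext
    · rw [Phi_fst, ha']; simp [hc3]
    · rw [Phi_snd, hp']; simp [hc1, hc3]
  have h4 := Submodule.finrank_mono h3
  omega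

/-- The data of the final position. -/
structure Fin2 (L₂ : Submodule ℚ (E → ℚ)) (K : Set E) : Prop where
  ld : LD 2 L₂ K
  k2 : ∀ t t', t ≠ t' → e2 t ∈ K ∨ e2 t' ∈ K
  k3 : ∀ t t', t ≠ t' → e3 t ∈ K ∨ e3 t' ∈ K
  dim : ∀ W : Submodule ℚ (E → ℚ), finrank ℚ ↥(LinearMap.ker PA ⊓ W) ≤ finrank ℚ ↥(L₂ ⊓ W) + 2

lemma exists_short2 {L₂ : Submodule ℚ (E → ℚ)} {K : Set E} (h : Fin2 L₂ K) :
    ∃ c ∈ L₂, c ≠ 0 ∧ ∃ t t', t ≠ t' ∧ support c ⊆ {e2 t, e2 t'} ∧ support c ⊆ K := by
  have h1 := ncard_line e2_inj h.k2
  have h2 := finrank_line2 (X := range e2 ∩ K) inter_subset_left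
  have h3 := h.dim (Sup ℚ (range e2 ∩ K))
  obtain ⟨c, hc, hcX, hc0, hc2⟩ := short_word h.ld (X := range e2 ∩ K) inter_subset_right (by omega)
  have h4 := mem_Sup_iff.1 hcX
  obtain ⟨t, t', htt, hs⟩ := pair_of_ncard (h4.trans inter_subset_left) hc2
  exact ⟨c, hc, hc0, t, t', htt, hs, h4.trans inter_subset_right⟩

lemma exists_short3 {L₂ : Submodule ℚ (E → ℚ)} {K : Set E} (h : Fin2 L₂ K) :
    ∃ c ∈ L₂, c ≠ 0 ∧ ∃ t t', t ≠ t' ∧ support c ⊆ {e3 t, e3 t'} ∧ support c ⊆ K := by
  have h1 := ncard_line e3_inj h.k3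
  have h2 := finrank_line3 (X := range e3 ∩ K) inter_subset_left
  have h3 := h.dim (Sup ℚ (range e3 ∩ K))
  obtain ⟨c, hc, hcX, hc0, hc2⟩ := short_word h.ld (X := range e3 ∩ K) inter_subset_right (by omega)
  have h4 := mem_Sup_iff.1 hcX
  obtain ⟨t, t', htt, hs⟩ := pair_of_ncard (h4.trans inter_subset_left) hc2
  exact ⟨c, hc, hc0, t, t', htt, hs, h4.trans inter_subset_right⟩

lemma ne_of_pair2 {c : E → ℚ} {t t' : Fin 8} (h : t ≠ t') (hc : support c ⊆ {e2 t, e2 t'})
    (hc0 : c ≠ 0) (h1 : c (e2 t) + c (e2 t') = 0)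
    (h2 : par t * c (e2 t) + par t' * c (e2 t') = 0) : False := by
  obtain ⟨h3, h4⟩ := lin_two h h1 h2
  apply hc0
  funext i
  by_contra hi
  rcases hc hi with rfl | h5
  · exact hi h3
  · rw [Set.mem_singleton_iff.1 h5] at hi; exact hi h4

lemma ne_of_pair3 {c : E → ℚ} {t t' : Fin 8} (h : t ≠ t') (hc : support c ⊆ {e3 t, e3 t'})
    (hc0 : c ≠ 0) (h1 : c (e3 t) + c (e3 t') = 0)
    (h2 : par t * c (e3 t) + par t' * c (e3 t') = 0) : False := by
  obtain ⟨h3, h4⟩ := lin_two h h1 h2
  apply hc0
  funext i
  by_contra hi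
  rcases hc hi with rfl | h5
  · exact hi h3
  · rw [Set.mem_singleton_iff.1 h5] at hi; exact hi h4

/-- The mixed case: all dependencies have values in the line spanned by `(1, 0)`. -/
lemma no_mixed {L₂ : Submodule ℚ (E → ℚ)} {K : Set E} (h : LD 2 L₂ K)
    (hL : ∀ c ∈ L₂, (PA c).2 = 0) (hK : ∀ c ∈ L₂, c ∈ Sup ℚ K)
    (hcomb : ∀ r r', (PA r).2 = 0 → (PA r').2 = 0 → ∃ x y : ℚ, (x ≠ 0 ∨ y ≠ 0) ∧
      x • r + y • r' ∈ L₂)
    {c : E → ℚ} (hc : c ∈ L₂) (hc0 : c ≠ 0) {t t' : Fin 8} (htt : t ≠ t')
    (hcs : support c ⊆ {e2 t, e2 t'}) {c' : E → ℚ} (hc' : c' ∈ L₂) (hc0' : c' ≠ 0) {s s' : Fin 8}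
    (hss : s ≠ s') (hcs' : support c' ⊆ {e3 s, e3 s'}) : False := by
  -- both words have full support
  have hv := short2_val htt hcs
  have hp : par t * c (e2 t) + par t' * c (e2 t') = 0 := by
    have := congrFun (hL c hc) 0
    rwa [hv] at this
  have hct : c (e2 t) ≠ 0 := by
    intro h0
    rw [h0, mul_zero, zero_add] at hp
    have h1 := (mul_eq_zero.1 hp).resolve_left (par_pos t').ne'
    exact ne_of_pair2 htt hcs hc0 (by rw [h0, h1, add_zero]) (by rw [h0, h1]; ring)
  have hct' : c (e2 t') ≠ 0 := by
    intro h0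
    rw [h0, mul_zero, add_zero] at hp
    have h1 := (mul_eq_zero.1 hp).resolve_left (par_pos t).ne'
    exact hct h1
  have hv' := short3_val hss hcs'
  have hp' : par s * c' (e3 s) + par s' * c' (e3 s') = 0 := by
    have := congrFun (hL c' hc') 0
    rw [hv'] at this
    exact (mul_eq_zero.1 this).resolve_right (rho_neg 0).ne
  have hcs1 : c' (e3 s) ≠ 0 := by
    intro h0
    rw [h0, mul_zero, zero_add] at hp'
    have h1 := (mul_eq_zero.1 hp').resolve_left (par_pos s').ne'
    exact ne_of_pair3 hss hcs' hc0' (by rw [h0, h1, add_zero]) (by rw [h0, h1]; ring)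
  have hcs2 : c' (e3 s') ≠ 0 := by
    intro h0
    rw [h0, mul_zero, add_zero] at hp'
    have h1 := (mul_eq_zero.1 hp').resolve_left (par_pos s).ne'
    exact hcs1 h1
  -- the combination
  set rt : E → ℚ := W2 (fun _ => - par t) t 1 with hrt
  set rs : E → ℚ := W3 (fun j => - (par s * rho j)) s 1 with hrs
  have hrt2 : (PA rt).2 = 0 := by
    rw [hrt, PA_W2]
    funext j
    simp
  have hrs2 : (PA rs).2 = 0 := by
    rw [hrs, PA_W3]
    funext j
    simp only [Pi.zero_apply]
    ring
  obtain ⟨x, y, hxy, hr⟩ := hcomb rt rs hrt2 hrs2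
  set r : E → ℚ := x • rt + y • rs with hrdef
  have hr_t : r (e2 t) = x := by simp [hrdef, hrt, hrs, W2, W3]
  have hr_s : r (e3 s) = y := by simp [hrdef, hrt, hrs, W2, W3]
  have hr_out : ∀ i, i ∉ (insert (e2 t) (insert (e3 s) (range e1)) : Set E) → r i = 0 := by
    intro i hi
    simp only [Set.mem_insert_iff, not_or] at hi
    rw [hrdef, Pi.add_apply, Pi.smul_apply, Pi.smul_apply, hrt, hrs,
      W2_mem _ _ _ i (by simp only [Set.mem_insert_iff, not_or]; exact ⟨hi.1, hi.2.2⟩),
      W3_mem _ _ _ i (by simp only [Set.mem_insert_iff, not_or]; exact ⟨hi.2.1, hi.2.2⟩)]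
    simp
  -- words inside the support of `r` have few zeros on the frame
  have hW : ∀ d ∈ L₂, support d ⊆ support r → ∀ j l, j ≠ l → d (e1 j) = 0 → d (e1 l) = 0 →
      d = 0 := by
    intro d hd hds j l hjl hj hl
    have hd_out : ∀ i, i ∉ (insert (e2 t) (insert (e3 s) (range e1)) : Set E) → d i = 0 := by
      intro i hi
      by_contra hdi
      exact hds hdi (hr_out i hi)
    have hd2 : ∀ i, i ≠ t → d (e2 i) = 0 := by
      intro i hi; apply hd_out; simp [hi]
    have hd3 : ∀ i, i ≠ s → d (e3 i) = 0 := by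
      intro i hi; apply hd_out; simp [hi]
    have hsum2 : ∑ i, par i * d (e2 i) = par t * d (e2 t) :=
      Finset.sum_eq_single t (fun i _ hi => by rw [hd2 i hi, mul_zero])
        (fun h => absurd (Finset.mem_univ _) h)
    have hsum3 : ∑ i, par i * d (e3 i) = par s * d (e3 s) :=
      Finset.sum_eq_single s (fun i _ hi => by rw [hd3 i hi, mul_zero])
        (fun h => absurd (Finset.mem_univ _) h)
    have hval : ∀ k, d (e1 k) + par t * d (e2 t) + rho k * (par s * d (e3 s)) = 0 := by
      intro k
      have := congrFun (hL d hd) k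
      rw [Phi_snd, hsum2, hsum3] at this
      simpa using this
    have h1 := hval j
    have h2 := hval l
    rw [hj] at h1
    rw [hl] at h2
    obtain ⟨h3, h4⟩ := comb_zero (x := par t * d (e2 t)) (y := par s * d (e3 s)) hjl
      (by linarith) (by linarith)
    have h5 := (mul_eq_zero.1 h3).resolve_left (par_pos t).ne'
    have h6 := (mul_eq_zero.1 h4).resolve_left (par_pos s).ne'
    funext i
    rcases i with k | k | k
    · have := hval k
      rw [h5, h6] at this
      simpa using this
    · by_cases hk : k = t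
      · rw [hk]; exact h5
      · exact hd2 k hk
    · by_cases hk : k = s
      · rw [hk]; exact h6
      · exact hd3 k hk
  -- finish with one of the two lines
  have hfin : ∀ z z' : E, r z ≠ 0 → (∀ j, z ≠ e1 j) → ∀ c ∈ L₂, support c ⊆ {z, z'} →
      c z ≠ 0 → c z' ≠ 0 → ({z} : Set E).indicator c ∉ L₂ → False := by
    intro z z' hrz hze c hc hcs hcz hcz' hind
    obtain ⟨d, hd, hdr, hdz⟩ := exists_minWord' hr hrz
    refine no_circuit h hd (hK d hd.mem) hdz ?_ hc hcs (mem_Sup_iff.1 (hK c hc) hcz') hcz hcz' hind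
    -- the support has at least three elements
    by_contra hlt
    have h2 : (support d).ncard ≤ 2 := by omega
    -- three frame coordinates and `z`
    have : ∃ j l, j ≠ l ∧ d (e1 j) = 0 ∧ d (e1 l) = 0 := by
      by_contra hcon
      push Not at hcon
      have h3 : ∃ a b : Fin 4, a ≠ b ∧ d (e1 a) ≠ 0 ∧ d (e1 b) ≠ 0 := by
        by_cases h0 : d (e1 0) = 0
        · exact ⟨1, 2, by decide, hcon 0 1 (by decide) h0, hcon 0 2 (by decide) h0⟩
        · by_cases h1 : d (e1 1) = 0
          · exact ⟨0, 2, by decide, h0, hcon 1 2 (by decide) h1⟩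
          · exact ⟨0, 1, by decide, h0, h1⟩
      obtain ⟨a, b, hab, ha, hb⟩ := h3
      have h4 : ({z, e1 a, e1 b} : Set E) ⊆ support d := by
        rintro i (rfl | rfl | hi)
        · exact hdz
        · exact ha
        · rw [Set.mem_singleton_iff.1 hi]; exact hb
      have h5 := Set.ncard_le_ncard h4 (Set.toFinite _)
      have h6 : ({z, e1 a, e1 b} : Set E).ncard = 3 := by
        rw [Set.ncard_insert_of_notMem, Set.ncard_pair (fun h => hab (e1_inj h))]
        simp only [Set.mem_insert_iff, Set.mem_singleton_iff, not_or]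
        exact ⟨hze a, hze b⟩
      omega
    obtain ⟨j, l, hjl, hj, hl⟩ := this
    have := hW d hd.mem hdr j l hjl hj hl
    rw [this] at hdz
    exact hdz rfl
  have hnotL : ∀ (z : E) (c : E → ℚ), c z ≠ 0 → (∀ j, z ≠ e1 j) →
      ({z} : Set E).indicator c ∉ L₂ := by
    intro z c hcz hze hmem
    have h1 := hL _ hmem
    have h2 : ({z} : Set E).indicator c = (c z) • Pi.single z (1 : ℚ) := by
      funext i
      by_cases hi : i = z
      · subst hi; simp
      · simp [hi]
    rw [h2, map_smul] at h1
    have h3 : (vec 0 rho z).2 = 0 := by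
      have : c z • (vec 0 rho z).2 = 0 := h1
      exact (smul_eq_zero.1 this).resolve_left hcz
    rcases z with j | t | s
    · exact hze j rfl
    · rw [vec_e2] at h3
      have := congrFun h3 0
      exact (par_pos t).ne' this
    · rw [vec_e3] at h3
      have := congrFun h3 0
      simp only [Pi.zero_apply, zero_add] at this
      exact (mul_ne_zero (par_pos s).ne' (rho_neg 0).ne) this
  rcases hxy with hx | hy
  · exact hfin (e2 t) (e2 t') (by rw [hr_t]; exact hx) (by simp) c hc hcs hct hct'
      (hnotL _ c hct (by simp))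
  · exact hfin (e3 s) (e3 s') (by rw [hr_s]; exact hy) (by simp) c' hc' hcs' hcs1 hcs2
      (hnotL _ c' hcs1 (by simp))

end Pool.Agent.Lib.MP_a7207a_co
end

section

/-!
# Two c*-steps
-/

set_option linter.unusedSectionVars false

namespace Pool.Agent.Lib.MP_a7207a_co

open Set Matroid Function Module

lemma three_dep {A : Submodule ℚ V} (h : finrank ℚ A ≤ 2) {u v w : V} (hu : u ∈ A) (hv : v ∈ A)
    (hw : w ∈ A) : ∃ x y z : ℚ, (x ≠ 0 ∨ y ≠ 0 ∨ z ≠ 0) ∧ x • u + y • v + z • w = 0 := by
  have h1 : ¬ LinearIndependent ℚ (![⟨u, hu⟩, ⟨v, hv⟩, ⟨w, hw⟩] : Fin 3 → A) := by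
    intro h1
    have := h1.fintype_card_le_finrank
    rw [Fintype.card_fin] at this
    omega
  rw [Fintype.not_linearIndependent_iff] at h1
  obtain ⟨g, hg, i, hi⟩ := h1
  refine ⟨g 0, g 1, g 2, ?_, ?_⟩
  · fin_cases i
    · exact Or.inl hi
    · exact Or.inr (Or.inl hi)
    · exact Or.inr (Or.inr hi)
  · have := congrArg Subtype.val hg
    simpa [Fin.sum_univ_three] using this

lemma two_span {A : Submodule ℚ V} (h : finrank ℚ A ≤ 2) {u v : V} (hu : u ∈ A) (hv : v ∈ A)
    (hind : ∀ x y : ℚ, x • u + y • v = 0 → x = 0 ∧ y = 0) {w : V} (hw : w ∈ A) :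
    ∃ x y : ℚ, w = x • u + y • v := by
  obtain ⟨x, y, z, h1, h2⟩ := three_dep h hu hv hw
  by_cases hz : z = 0
  · exfalso
    rw [hz, zero_smul, add_zero] at h2
    obtain ⟨h3, h4⟩ := hind x y h2
    rcases h1 with h | h | h
    · exact h h3
    · exact h h4
    · exact h hz
  · refine ⟨-(x / z), -(y / z), ?_⟩
    have h3 : z • (w + (x / z) • u + (y / z) • v) = 0 := by
      rw [← h2]
      have e1 : z * (x / z) = x := by field_simp
      have e2 : z * (y / z) = y := by field_simp
      rw [smul_add, smul_add, smul_smul, smul_smul, e1, e2]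
      abel
    have h4 := (smul_eq_zero.1 h3).resolve_left hz
    have h5 : w = w + (x / z) • u + (y / z) • v - (x / z) • u - (y / z) • v := by abel
    rw [h5, h4]
    module

/-- Restricting a word to `K` when the outside elements have vectors in `A`. -/
lemma restrict_word {A : Submodule ℚ V} {K : Set E} (hK : ∀ e, e ∉ K → vec 0 rho e ∈ A)
    {c : E → ℚ} (hc : PA c ∈ A) : PA (K.indicator c) ∈ A := by
  have hout : PA ((Kᶜ).indicator c) ∈ A := by
    have h1 : (Kᶜ).indicator c = ∑ e, ((Kᶜ).indicator c e) • Pi.single e (1 : ℚ) := by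
      funext i
      rw [Finset.sum_apply]
      simp [Pi.single_apply]
    rw [h1, map_sum]
    refine Submodule.sum_mem _ fun e _ => ?_
    rw [map_smul]
    by_cases he : e ∈ Kᶜ
    · exact Submodule.smul_mem _ _ (hK e he)
    · rw [Set.indicator_of_notMem he, zero_smul]; exact A.zero_mem
  have hsplit : K.indicator c = c - (Kᶜ).indicator c := by
    rw [Set.indicator_compl]; abel
  rw [hsplit, map_sub]
  exact A.sub_mem hc hout

lemma two_outside (k l : Fin 4) : ∃ j j' : Fin 4, j ≠ j' ∧ j ≠ k ∧ j' ≠ k ∧ j ≠ l ∧ j' ≠ l := by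
  revert k l; decide

/-- A short circuit through a point of a line when the line has a parallel copy. -/
lemma few_frame {r : E → ℚ} {z : E} (hz : ∀ j, z ≠ e1 j) (hrz : r z ≠ 0)
    (h : (support r).ncard ≤ 2) : ∃ k, ∀ j, j ≠ k → r (e1 j) = 0 := by
  by_contra hcon
  push Not at hcon
  obtain ⟨a, ha0, ha⟩ := hcon 0
  obtain ⟨b, hba, hb⟩ := hcon a
  have h4 : ({z, e1 a, e1 b} : Set E) ⊆ support r := by
    rintro i (rfl | rfl | hi)
    · exact hrz
    · exact ha
    · rw [Set.mem_singleton_iff.1 hi]; exact hb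
  have h5 := Set.ncard_le_ncard h4 (Set.toFinite _)
  have h6 : ({z, e1 a, e1 b} : Set E).ncard = 3 := by
    rw [Set.ncard_insert_of_notMem, Set.ncard_pair (fun h => hba (e1_inj h).symm)]
    simp only [Set.mem_insert_iff, Set.mem_singleton_iff, not_or]
    exact ⟨hz a, hz b⟩
  omega

lemma indicator_single {c : E → ℚ} (z : E) :
    ({z} : Set E).indicator c = (c z) • Pi.single z (1 : ℚ) := by
  funext i
  by_cases hi : i = z
  · subst hi; simp
  · simp [hi]

lemma line_word {L₂ : Submodule ℚ (E → ℚ)} {K : Set E} (h : LD 2 L₂ K) {A : Submodule ℚ V}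
    (hA : ∀ c, c ∈ L₂ ↔ PA c ∈ A) (hK : ∀ e, e ∉ K → vec 0 rho e ∈ A) {z z' : E} (hzz : z ≠ z')
    (hz : ∀ j, z ≠ e1 j) (hzA : vec 0 rho z ∉ A) (hz'A : vec 0 rho z' ∉ A) {x y : ℚ}
    (hx : x ≠ 0) (hy : y ≠ 0) (hxy : x • vec 0 rho z + y • vec 0 rho z' ∈ A) {r₀ : E → ℚ}
    (hr₀ : PA r₀ ∈ A) (hr₀z : r₀ z ≠ 0) :
    ∃ r, r ∈ L₂ ∧ support r ⊆ support r₀ ∧ r z ≠ 0 ∧ ∃ k, ∀ j, j ≠ k → r (e1 j) = 0 := by
  have hin : ∀ e, vec 0 rho e ∉ A → e ∈ K := by
    intro e he
    by_contra h
    exact he (hK e h)
  have h1 : K.indicator r₀ ∈ L₂ := by rw [hA]; exact restrict_word hK hr₀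
  obtain ⟨r, hr, hrs, hrz⟩ := exists_minWord' h1 (x := z) (by
    rw [Set.indicator_of_mem (hin z hzA)]; exact hr₀z)
  have hrK : r ∈ Sup ℚ K := by
    rw [mem_Sup_iff]
    intro i hi
    by_contra hiK
    exact hrs hi (Set.indicator_of_notMem hiK r₀)
  have hrr : support r ⊆ support r₀ := by
    intro i hi
    have h2 := hrs hi
    rw [Function.mem_support, Set.indicator_of_mem (mem_Sup_iff.1 hrK hi)] at h2
    exact h2
  refine ⟨r, hr.mem, hrr, hrz, ?_⟩
  apply few_frame hz hrz
  by_contra hlt
  set c : E → ℚ := x • Pi.single z 1 + y • Pi.single z' 1 with hc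
  have hcz : c z = x := by simp [hc, hzz]
  have hcz' : c z' = y := by simp [hc, Ne.symm hzz]
  refine no_circuit h (z := z) (z' := z') (c := c) hr hrK hrz (by omega) ?_ ?_ (hin _ hz'A) ?_ ?_ ?_
  · rw [hA, hc, map_add, map_smul, map_smul]; exact hxy
  · intro i hi
    by_contra hi'
    simp only [Set.mem_insert_iff, Set.mem_singleton_iff, not_or] at hi'
    apply hi
    simp [hc, hi'.1, hi'.2]
  · rw [hcz]; exact hx
  · rw [hcz']; exact hy
  · rw [hA, indicator_single, hcz, map_smul]
    intro h2
    apply hzA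
    have := A.smul_mem x⁻¹ h2
    rwa [smul_smul, inv_mul_cancel₀ hx, one_smul] at this

/-- The case of two c*-steps. -/
lemma no_cc {L₂ : Submodule ℚ (E → ℚ)} {K : Set E} (hF : Fin2 L₂ K) {A : Submodule ℚ V}
    (hA : ∀ c, c ∈ L₂ ↔ PA c ∈ A) (hdim : finrank ℚ A ≤ 2)
    (hK : ∀ e, e ∉ K → vec 0 rho e ∈ A) : False := by
  have hin : ∀ e, vec 0 rho e ∉ A → e ∈ K := by
    intro e he
    by_contra h
    exact he (hK e h)
  by_cases h10 : ((1, 0) : V) ∈ A
  · by_cases h01 : ((0, fun _ => 1) : V) ∈ A
    · -- the span of `(1,0)` and `(0,1)`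
      have hsp : ∀ w ∈ A, ∀ j l, w.2 j = w.2 l := by
        intro w hw j l
        obtain ⟨x, y, rfl⟩ := two_span hdim h10 h01 (by
          intro x y hxy
          have e1 := congrArg Prod.fst hxy
          have e2 := congrFun (congrArg Prod.snd hxy) 0
          simp at e1 e2
          exact ⟨e1, e2⟩) hw
        simp
      have hmem : ∀ w : V, (∀ j l, w.2 j = w.2 l) → w ∈ A := by
        intro w hw
        have : w = w.1 • ((1, 0) : V) + w.2 0 • ((0, fun _ => 1) : V) := by
          ext j
          · simp
          · simp [hw j 0]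
        rw [this]
        exact A.add_mem (A.smul_mem _ h10) (A.smul_mem _ h01)
      refine no_plane hF.ld (X := insert (e3 0) (range e1)) ?_ (d₁ := W3 (fun _ => 1) 0 0)
        (d₂ := W3 (fun j => - (par 0 * rho j)) 0 1) ?_ (W3_mem _ _ _) ?_ (W3_mem _ _ _)
        (fun j => Or.inr ⟨j, rfl⟩) ?_ ?_ ?_
      · rintro i (rfl | ⟨j, rfl⟩)
        · apply hin
          intro h
          have := hsp _ h 0 1
          rw [vec_e3] at this
          simp only [Pi.zero_apply, zero_add] at this
          exact absurd (rho_inj (mul_left_cancel₀ (par_pos _).ne' this)) (by decide)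
        · apply hin
          intro h
          obtain ⟨l, hl⟩ := exists_ne j
          have := hsp _ h j l
          rw [vec_e1] at this
          simp [hl] at this
      · rw [hA, PA_W3]
        apply hmem
        intro j l; simp
      · rw [hA, PA_W3]
        apply hmem
        intro j l
        simp only
        ring
      · rintro i (rfl | ⟨j, rfl⟩)
        · right; right
          rw [W3_e3]; simp
        · exact Or.inl ⟨j, rfl⟩
      · intro d hd hdX j l hjl hj hl
        have e1 := eq_W3 hdX
        rw [hA, e1, PA_W3] at hd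
        have e2 := hsp _ hd
        simp only at e2
        have e3 := e2 j l
        rw [hj, hl, zero_add, zero_add] at e3
        have e4 : (par 0 * d (MP_a7207a_co.e3 0)) * (rho j - rho l) = 0 := by linarith
        have e5 := (mul_eq_zero.1 e4).resolve_right (sub_ne_zero.2 fun h => hjl (rho_inj h))
        have e6 := (mul_eq_zero.1 e5).resolve_left (par_pos _).ne'
        rw [e1]
        funext i
        rcases i with k | k | k
        · have := e2 k j
          rw [hj, e6] at this
          simpa [W3] using this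
        · rfl
        · change W3 _ _ _ (MP_a7207a_co.e3 k) = 0
          rw [W3_e3, e6]; simp
      · intro x y hxy
        have e1 := congrFun hxy (e3 0)
        have e2 := congrFun hxy (MP_a7207a_co.e1 0)
        simp only [Pi.add_apply, Pi.smul_apply, W3_e3, W3_e1, smul_eq_mul, Pi.single_eq_same,
          mul_zero, zero_add, mul_one, Pi.zero_apply] at e1 e2
        rw [e1] at e2
        exact ⟨by linarith, e1⟩
    · by_cases h0r : ((0, rho) : V) ∈ A
      · -- the span of `(1,0)` and `(0,rho)`
        have hsp : ∀ w ∈ A, ∃ y : ℚ, ∀ j, w.2 j = y * rho j := by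
          intro w hw
          obtain ⟨x, y, rfl⟩ := two_span hdim h10 h0r (by
            intro x y hxy
            have e1 := congrArg Prod.fst hxy
            have e2 := congrFun (congrArg Prod.snd hxy) 0
            simp only [Prod.fst_add, Prod.smul_fst, smul_eq_mul, mul_one, mul_zero, add_zero,
              Prod.fst_zero, Prod.snd_add, Prod.smul_snd, smul_zero, zero_add, Pi.smul_apply,
              Prod.snd_zero, Pi.zero_apply] at e1 e2
            exact ⟨e1, (mul_eq_zero.1 e2).resolve_right (rho_neg 0).ne⟩) hw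
          exact ⟨y, fun j => by simp⟩
        have hmem : ∀ w : V, (∃ y : ℚ, ∀ j, w.2 j = y * rho j) → w ∈ A := by
          rintro w ⟨y, hy⟩
          have : w = w.1 • ((1, 0) : V) + y • ((0, rho) : V) := by
            ext j
            · simp
            · simp [hy j]
          rw [this]
          exact A.add_mem (A.smul_mem _ h10) (A.smul_mem _ h0r)
        refine no_plane hF.ld (X := insert (e2 0) (range e1)) ?_ (d₁ := W2 rho 0 0)
          (d₂ := W2 (fun _ => - par 0) 0 1) ?_ (W2_mem _ _ _) ?_ (W2_mem _ _ _)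
          (fun j => Or.inr ⟨j, rfl⟩) ?_ ?_ ?_
        · rintro i (rfl | ⟨j, rfl⟩)
          · apply hin
            intro h
            obtain ⟨y, hy⟩ := hsp _ h
            rw [vec_e2] at hy
            simp only at hy
            have e1 := hy 0
            have e2 := hy 1
            obtain ⟨e3, e4⟩ := comb_zero (x := par 0) (y := -y) (j := 0) (l := 1) (by decide)
              (by linarith) (by linarith)
            exact (par_pos 0).ne' e3
          · apply hin
            intro h
            obtain ⟨l, hl⟩ := exists_ne j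
            obtain ⟨y, hy⟩ := hsp _ h
            rw [vec_e1] at hy
            have e1 := hy l
            have e2 := hy j
            simp only [Pi.single_eq_of_ne hl, Pi.single_eq_same] at e1 e2
            have e3 := (mul_eq_zero.1 e1.symm).resolve_right (rho_neg l).ne
            rw [e3, zero_mul] at e2
            exact one_ne_zero e2
        · rw [hA, PA_W2]
          exact hmem _ ⟨1, fun j => by simp⟩
        · rw [hA, PA_W2]
          exact hmem _ ⟨0, fun j => by simp⟩
        · rintro i (rfl | ⟨j, rfl⟩)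
          · right; right
            rw [W2_e2]; simp
          · exact Or.inl ⟨j, rfl⟩
        · intro d hd hdX j l hjl hj hl
          have e1 := eq_W2 hdX
          rw [hA, e1, PA_W2] at hd
          obtain ⟨y, hy⟩ := hsp _ hd
          simp only at hy
          have e2 := hy j
          have e3 := hy l
          rw [hj, zero_add] at e2
          rw [hl, zero_add] at e3
          obtain ⟨e4, e5⟩ := comb_zero (x := par 0 * d (MP_a7207a_co.e2 0)) (y := -y) hjl
            (by linarith) (by linarith)
          have e6 := (mul_eq_zero.1 e4).resolve_left (par_pos _).ne'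
          have e7 : y = 0 := by linarith
          rw [e1]
          funext i
          rcases i with k | k | k
          · have := hy k
            rw [e6, e7] at this
            simpa [W2] using this
          · change W2 _ _ _ (MP_a7207a_co.e2 k) = 0
            rw [W2_e2, e6]; simp
          · rfl
        · intro x y hxy
          have e1 := congrFun hxy (e2 0)
          have e2 := congrFun hxy (MP_a7207a_co.e1 0)
          simp only [Pi.add_apply, Pi.smul_apply, W2_e2, W2_e1, smul_eq_mul, Pi.single_eq_same,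
            mul_zero, zero_add, mul_one, Pi.zero_apply] at e1 e2
          rw [e1, zero_mul, add_zero] at e2
          exact ⟨(mul_eq_zero.1 e2).resolve_right (rho_neg 0).ne, e1⟩
      · -- short circuits through points of the lines
        have hv2 : ∀ t, vec 0 rho (e2 t) ∉ A := by
          intro t h
          rw [vec_e2] at h
          apply h01
          have h1 := A.smul_mem (par t)⁻¹ (A.sub_mem h h10)
          convert h1 using 1
          ext j
          · simp
          · simp [(par_pos t).ne']
        have hv3 : ∀ t, vec 0 rho (e3 t) ∉ A := by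
          intro t h
          rw [vec_e3] at h
          apply h0r
          have h1 := A.smul_mem (par t)⁻¹ (A.sub_mem h h10)
          convert h1 using 1
          ext j
          · simp
          · simp [(par_pos t).ne']
        obtain ⟨r, hr, hrs, hrz, k, hk⟩ := line_word hF.ld hA hK (z := e2 0) (z' := e2 1)
          (by simp) (by simp) (hv2 0) (hv2 1) (x := par 1) (y := - par 0) (par_pos 1).ne'
          (neg_ne_zero.2 (par_pos 0).ne') (by
            rw [vec_e2, vec_e2]
            have := A.smul_mem (par 1 - par 0) h10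
            convert this using 1
            ext j
            · simp; ring
            · simp; ring) (r₀ := W2 (fun _ => - par 0) 0 1) (by
            rw [PA_W2]
            convert h10 using 1
            ext j
            · rfl
            · simp) (by rw [W2_e2]; simp)
        obtain ⟨r', hr', hrs', hrz', l, hl⟩ := line_word hF.ld hA hK (z := e3 0) (z' := e3 1)
          (by simp) (by simp) (hv3 0) (hv3 1) (x := par 1) (y := - par 0) (par_pos 1).ne'
          (neg_ne_zero.2 (par_pos 0).ne') (by
            rw [vec_e3, vec_e3]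
            have := A.smul_mem (par 1 - par 0) h10
            convert this using 1
            ext j
            · simp; ring
            · simp; ring) (r₀ := W3 (fun j => - (par 0 * rho j)) 0 1) (by
            rw [PA_W3]
            convert h10 using 1
            ext j
            · rfl
            · simp; ring) (by rw [W3_e3]; simp)
        have hr2 : r ∈ Sup ℚ (insert (e2 0) (range e1)) :=
          mem_Sup_iff.2 (hrs.trans (mem_Sup_iff.1 (W2_mem _ _ _)))
        have hr3 : r' ∈ Sup ℚ (insert (e3 0) (range e1)) :=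
          mem_Sup_iff.2 (hrs'.trans (mem_Sup_iff.1 (W3_mem _ _ _)))
        have hw : ((0, fun j => r (e1 j) + par 0 * r (e2 0)) : V) ∈ A := by
          rw [hA, eq_W2 hr2, PA_W2] at hr
          have h1 := A.sub_mem hr (A.smul_mem (r (e2 0)) h10)
          convert h1 using 1
          ext j
          · simp
          · simp
        have hw' : ((0, fun j => r' (e1 j) + rho j * (par 0 * r' (e3 0))) : V) ∈ A := by
          rw [hA, eq_W3 hr3, PA_W3] at hr'
          have h1 := A.sub_mem hr' (A.smul_mem (r' (e3 0)) h10)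
          convert h1 using 1
          ext j
          · simp
          · simp
        obtain ⟨x, y, z, hxyz, h0⟩ := three_dep hdim h10 hw hw'
        have e1 := congrArg Prod.fst h0
        simp only [Prod.fst_add, Prod.smul_fst, smul_eq_mul, mul_one, mul_zero, add_zero,
          Prod.fst_zero] at e1
        have e2 : ∀ j, j ≠ k → j ≠ l → y * (par 0 * r (MP_a7207a_co.e2 0)) +
            (z * (par 0 * r' (e3 0))) * rho j = 0 := by
          intro j hjk hjl
          have := congrFun (congrArg Prod.snd h0) j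
          simp only [Prod.snd_add, Prod.smul_snd, Pi.add_apply, Pi.smul_apply, smul_eq_mul,
            Prod.snd_zero, Pi.zero_apply, hk j hjk, hl j hjl, e1, mul_zero, zero_add] at this
          linarith
        obtain ⟨j, j', hjj, h1, h2, h3, h4⟩ := two_outside k l
        obtain ⟨h5, h6⟩ := comb_zero hjj (e2 j h1 h3) (e2 j' h2 h4)
        have hy : y = 0 := (mul_eq_zero.1 h5).resolve_right (mul_ne_zero (par_pos 0).ne' hrz)
        have hz : z = 0 := (mul_eq_zero.1 h6).resolve_right (mul_ne_zero (par_pos 0).ne' hrz')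
        rcases hxyz with h | h | h
        · exact h e1
        · exact h hy
        · exact h hz
  · -- short words with nonzero slopes
    obtain ⟨c, hc, hc0, t, t', htt, hcs, hcK⟩ := exists_short2 hF
    obtain ⟨c', hc', hc0', s, s', hss, hcs', hcK'⟩ := exists_short3 hF
    have hα : ∃ α : ℚ, ((α, fun _ => 1) : V) ∈ A := by
      rw [hA, short2_val htt hcs] at hc
      set p := par t * c (e2 t) + par t' * c (e2 t') with hp
      set a := c (e2 t) + c (e2 t') with ha
      have hp0 : p ≠ 0 := by
        intro hp0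
        have ha0 : a ≠ 0 := fun ha0 => ne_of_pair2 htt hcs hc0 ha0 hp0
        apply h10
        have := A.smul_mem a⁻¹ hc
        convert this using 1
        ext j
        · simp [ha0]
        · simp [hp0]
      refine ⟨p⁻¹ * a, ?_⟩
      have := A.smul_mem p⁻¹ hc
      convert this using 1
      ext j
      · simp
      · simp [hp0]
    have hβ : ∃ β : ℚ, ((β, rho) : V) ∈ A := by
      rw [hA, short3_val hss hcs'] at hc'
      set p := par s * c' (e3 s) + par s' * c' (e3 s') with hp
      set a := c' (e3 s) + c' (e3 s') with ha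
      have hp0 : p ≠ 0 := by
        intro hp0
        have ha0 : a ≠ 0 := fun ha0 => ne_of_pair3 hss hcs' hc0' ha0 hp0
        apply h10
        have := A.smul_mem a⁻¹ hc'
        convert this using 1
        ext j
        · simp [ha0]
        · simp [hp0]
      refine ⟨p⁻¹ * a, ?_⟩
      have := A.smul_mem p⁻¹ hc'
      convert this using 1
      ext j
      · simp
      · simp [hp0]
    obtain ⟨α, hα⟩ := hα
    obtain ⟨β, hβ⟩ := hβ
    have hind : ∀ x y : ℚ, x • ((α, fun _ => 1) : V) + y • ((β, rho) : V) = 0 →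
        x = 0 ∧ y = 0 := by
      intro x y hxy
      have e1 := congrFun (congrArg Prod.snd hxy) 0
      have e2 := congrFun (congrArg Prod.snd hxy) 1
      simp only [Prod.snd_add, Prod.smul_snd, Pi.add_apply, Pi.smul_apply, smul_eq_mul, mul_one,
        Prod.snd_zero, Pi.zero_apply] at e1 e2
      exact comb_zero (by decide) e1 e2
    have hsp : ∀ w ∈ A, ∃ x y : ℚ, w.1 = x * α + y * β ∧ ∀ j, w.2 j = x + y * rho j := by
      intro w hw
      obtain ⟨x, y, rfl⟩ := two_span hdim hα hβ hind hw
      exact ⟨x, y, by simp, fun j => by simp⟩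
    have hmem : ∀ x y : ℚ, ((x * α + y * β, fun j => x + y * rho j) : V) ∈ A := by
      intro x y
      have := A.add_mem (A.smul_mem x hα) (A.smul_mem y hβ)
      convert this using 1
      ext j
      · simp
      · simp
    have hframe : ∀ j, e1 j ∈ K := by
      intro j
      apply hin
      intro h
      obtain ⟨x, y, -, hy⟩ := hsp _ h
      rw [vec_e1] at hy
      obtain ⟨a, b, hab, ha, hb, -⟩ := two_outside j j
      have e1 := hy a
      have e2 := hy b
      simp only [Pi.single_eq_of_ne ha, Pi.single_eq_of_ne hb] at e1 e2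
      obtain ⟨e3, e4⟩ := comb_zero hab e1.symm e2.symm
      have e5 := hy j
      rw [e3, e4] at e5
      simp at e5
    by_cases hαβ : α = 0 ∧ β = 0
    · refine no_plane hF.ld (X := range e1) ?_ (d₁ := W2 (fun _ => 1) 0 0)
        (d₂ := W2 rho 0 0) ?_ ?_ ?_ ?_ (fun j => ⟨j, rfl⟩) ?_ ?_ ?_
      · rintro i ⟨j, rfl⟩
        exact hframe j
      · rw [hA, PA_W2]
        have := hmem 1 0
        convert this using 1
        ext j
        · simp [hαβ.1]
        · simp
      · intro i hi
        rcases i with k | k | k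
        · exact absurd ⟨k, rfl⟩ hi
        · change W2 _ _ _ (e2 k) = 0
          rw [W2_e2]; simp
        · rfl
      · rw [hA, PA_W2]
        have := hmem 0 1
        convert this using 1
        ext j
        · simp [hαβ.2]
        · simp
      · intro i hi
        rcases i with k | k | k
        · exact absurd ⟨k, rfl⟩ hi
        · change W2 _ _ _ (e2 k) = 0
          rw [W2_e2]; simp
        · rfl
      · rintro i ⟨j, rfl⟩
        exact Or.inl ⟨j, rfl⟩
      · intro d hd hdX j l hjl hj hl
        have hdX' : d ∈ Sup ℚ (insert (e2 0) (range e1)) := Sup_mono (Set.subset_insert _ _) hdX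
        have e1 := eq_W2 hdX'
        have e0 : d (e2 0) = 0 := hdX _ (by simp)
        rw [hA, e1, PA_W2] at hd
        obtain ⟨x, y, -, hy⟩ := hsp _ hd
        simp only [e0, mul_zero, add_zero] at hy
        have e2 := hy j
        have e3 := hy l
        rw [hj] at e2
        rw [hl] at e3
        obtain ⟨e4, e5⟩ := comb_zero hjl e2.symm e3.symm
        funext i
        rcases i with k | k | k
        · have := hy k
          rw [e4, e5] at this
          simpa using this
        · exact hdX _ (by simp)
        · exact hdX _ (by simp)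
      · intro x y hxy
        have e1 := congrFun hxy (MP_a7207a_co.e1 0)
        have e2 := congrFun hxy (MP_a7207a_co.e1 1)
        simp only [Pi.add_apply, Pi.smul_apply, W2_e1, smul_eq_mul, mul_one, Pi.zero_apply] at e1 e2
        exact comb_zero (by decide) e1 e2
    · -- choose a point of the first line outside `A`
      obtain ⟨t, ht⟩ : ∃ t : Fin 8, par t * α ≠ 1 := by
        by_contra hcon
        push Not at hcon
        have h1 := hcon 0
        have h2 := hcon 1
        have h3 : (par 0 - par 1) * α = 0 := by linarith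
        have h4 := (mul_eq_zero.1 h3).resolve_left (sub_ne_zero.2 (par_inj (by decide)))
        rw [h4] at h1
        simp at h1
      have key : ∀ x y : ℚ, ∀ j l, j ≠ l → x + y * rho j = par t * (x * α + y * β) →
          x + y * rho l = par t * (x * α + y * β) → x = 0 ∧ y = 0 := by
        intro x y j l hjl h1 h2
        obtain ⟨h3, h4⟩ := comb_zero (x := x - par t * (x * α + y * β)) (y := y) hjl
          (by linarith) (by linarith)
        rw [h4] at h3
        have h5 : x * (1 - par t * α) = 0 := by linarith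
        exact ⟨(mul_eq_zero.1 h5).resolve_right (fun h => ht (by linarith)), h4⟩
      refine no_plane hF.ld (X := insert (e2 t) (range e1)) ?_
        (d₁ := W2 (fun _ => 1 - par t * α) t α) (d₂ := W2 (fun j => rho j - par t * β) t β)
        ?_ (W2_mem _ _ _) ?_ (W2_mem _ _ _) (fun j => Or.inr ⟨j, rfl⟩) ?_ ?_ ?_
      · rintro i (rfl | ⟨j, rfl⟩)
        · apply hin
          intro h
          obtain ⟨x, y, hx, hy⟩ := hsp _ h
          rw [vec_e2] at hx hy
          simp only at hx hy
          obtain ⟨h3, h4⟩ := key x y 0 1 (by decide) (by rw [← hx, ← hy]; ring)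
            (by rw [← hx, ← hy]; ring)
          rw [h3, h4] at hx
          simp at hx
        · exact hframe j
      · rw [hA, PA_W2]
        have := hmem 1 0
        convert this using 1
        ext j
        · simp
        · simp
      · rw [hA, PA_W2]
        have := hmem 0 1
        convert this using 1
        ext j
        · simp
        · simp
      · rintro i (rfl | ⟨j, rfl⟩)
        · right
          rw [W2_e2, W2_e2, Pi.single_eq_same, Pi.single_eq_same]
          by_contra hcon
          push Not at hcon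
          exact hαβ hcon
        · exact Or.inl ⟨j, rfl⟩
      · intro d hd hdX j l hjl hj hl
        have e1 := eq_W2 hdX
        rw [hA, e1, PA_W2] at hd
        obtain ⟨x, y, hx, hy⟩ := hsp _ hd
        simp only at hx hy
        have e2 := hy j
        have e3 := hy l
        rw [hj, zero_add, hx] at e2
        rw [hl, zero_add, hx] at e3
        obtain ⟨e4, e5⟩ := key x y j l hjl e2.symm e3.symm
        rw [e4, e5, zero_mul, zero_mul, add_zero] at hx
        rw [e1]
        funext i
        rcases i with k | k | k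
        · have := hy k
          rw [e4, e5, hx] at this
          simpa [W2] using this
        · change W2 _ _ _ (MP_a7207a_co.e2 k) = 0
          rw [W2_e2, hx]; simp
        · rfl
      · intro x y hxy
        have e0 := congrFun hxy (e2 t)
        have e1 := congrFun hxy (MP_a7207a_co.e1 0)
        have e2 := congrFun hxy (MP_a7207a_co.e1 1)
        simp only [Pi.add_apply, Pi.smul_apply, W2_e1, W2_e2, Pi.single_eq_same, smul_eq_mul,
          Pi.zero_apply] at e0 e1 e2
        apply hind
        ext j
        · simpa using e0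
        · -- all coordinates
          have e3 : x + y * rho 0 = par t * (x * α + y * β) := by linarith
          have e4 : x + y * rho 1 = par t * (x * α + y * β) := by linarith
          obtain ⟨h3, h4⟩ := key x y 0 1 (by decide) e3 e4
          simp [h3, h4]

end Pool.Agent.Lib.MP_a7207a_co
end

section

/-!
# Existence and effect of the matrix steps
-/

set_option linter.unusedSectionVars false

namespace Pool.Agent.Lib.MP_a7207a_co

open Set Matroid Function

variable {F : Type*} [Field F] {α : Type*} [Fintype α]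

/-- The pivot matrix. -/
def pivot {n : ℕ} (v : Fin n → F) (i : Fin n) : Matrix (Fin n) (Fin n) F :=
  Matrix.of fun a b => if a = i then (if b = i then (v i)⁻¹ else 0)
    else ((if b = a then 1 else 0) - (if b = i then v a * (v i)⁻¹ else 0))

lemma pivot_mulVec {n : ℕ} (v : Fin n → F) (i : Fin n) (x : Fin n → F) (a : Fin n) :
    (pivot v i).mulVec x a = if a = i then (v i)⁻¹ * x i else x a - v a * (v i)⁻¹ * x i := by
  unfold pivot Matrix.mulVec dotProduct
  by_cases h : a = i
  · subst h
    simp
  · simp [h, sub_mul, Finset.sum_sub_distrib]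

lemma pivot_inj {n : ℕ} {v : Fin n → F} {i : Fin n} (hv : v i ≠ 0) :
    Injective (pivot v i).mulVec := by
  intro x y h
  have hi := congrFun h i
  rw [pivot_mulVec, pivot_mulVec, if_pos rfl, if_pos rfl] at hi
  have hi' : x i = y i := mul_left_cancel₀ (inv_ne_zero hv) hi
  funext a
  by_cases ha : a = i
  · rw [ha]; exact hi'
  · have := congrFun h a
    rw [pivot_mulVec, pivot_mulVec, if_neg ha, if_neg ha, hi'] at this
    exact sub_left_inj.1 this

lemma pivot_self {n : ℕ} {v : Fin n → F} {i : Fin n} (hv : v i ≠ 0) :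
    (pivot v i).mulVec v = Pi.single i 1 := by
  funext a
  rw [pivot_mulVec]
  by_cases ha : a = i
  · subst ha; simp [hv]
  · rw [if_neg ha, Pi.single_eq_of_ne ha, mul_assoc, inv_mul_cancel₀ hv, mul_one, sub_self]

/-- A c*-step along a nonzero vector `v` exists, and its effect on the dependencies. -/
lemma exists_cstep {m : ℕ} (A : Matrix (Fin (m + 1)) α F) {v : Fin (m + 1) → F} (hv : v ≠ 0) :
    ∃ A' : Matrix (Fin m) α F, IsCStep A A' ∧
      ∀ c, c ∈ dep A' ↔ ∃ x : F, A.mulVec c = x • v := by
  obtain ⟨i, hi⟩ : ∃ i, v i ≠ 0 := by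
    by_contra hcon
    push Not at hcon
    exact hv (funext hcon)
  refine ⟨(pivot v i * A).submatrix i.succAbove id, ⟨v, pivot v i, i, ?_, pivot_self hi, rfl⟩, ?_⟩
  · exact Matrix.mulVec_injective_iff_isUnit.1 (pivot_inj hi)
  · intro c
    have hmul : ((pivot v i * A).submatrix i.succAbove id).mulVec c =
        fun a => (pivot v i).mulVec (A.mulVec c) (i.succAbove a) := by
      rw [Matrix.mulVec_mulVec]
      rfl
    rw [mem_dep, hmul]
    constructor
    · intro h
      refine ⟨(pivot v i).mulVec (A.mulVec c) i, ?_⟩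
      apply pivot_inj hi
      show (pivot v i).mulVec _ = (pivot v i).mulVec _
      rw [Matrix.mulVec_smul, pivot_self hi]
      funext a
      rcases Fin.eq_self_or_eq_succAbove i a with rfl | ⟨b, rfl⟩
      · simp
      · have := congrFun h b
        simp only [Pi.zero_apply] at this
        rw [this]
        simp
    · rintro ⟨x, hx⟩
      rw [hx, Matrix.mulVec_smul, pivot_self hi]
      funext a
      simp

/-- The effect of any c*-step on the dependencies. -/
lemma dep_of_cstep {m : ℕ} {A : Matrix (Fin (m + 1)) α F} {A' : Matrix (Fin m) α F}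
    (h : IsCStep A A') : ∃ v : Fin (m + 1) → F, v ≠ 0 ∧
      ∀ c, c ∈ dep A' ↔ ∃ x : F, A.mulVec c = x • v := by
  obtain ⟨v, P, i, hP, hv, rfl⟩ := h
  have hinj := Matrix.mulVec_injective_of_isUnit hP
  refine ⟨v, ?_, fun c => ?_⟩
  · rintro rfl
    rw [Matrix.mulVec_zero] at hv
    have := congrFun hv i
    simp at this
  · have hmul : ((P * A).submatrix i.succAbove id).mulVec c =
        fun a => P.mulVec (A.mulVec c) (i.succAbove a) := by
      rw [Matrix.mulVec_mulVec]
      rfl
    rw [mem_dep, hmul]
    constructor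
    · intro h
      refine ⟨P.mulVec (A.mulVec c) i, ?_⟩
      apply hinj
      show P.mulVec _ = P.mulVec _
      rw [Matrix.mulVec_smul, hv]
      funext a
      rcases Fin.eq_self_or_eq_succAbove i a with rfl | ⟨b, rfl⟩
      · simp
      · have := congrFun h b
        simp only [Pi.zero_apply] at this
        rw [this]
        simp
    · rintro ⟨x, hx⟩
      rw [hx, Matrix.mulVec_smul, hv]
      funext a
      simp

lemma mem_dep_snoc {m : ℕ} {A : Matrix (Fin m) α F} {w : α → F} {c : α → F} :
    c ∈ dep (Matrix.of (Fin.snoc (fun i => A i) w) : Matrix (Fin (m + 1)) α F) ↔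
      c ∈ dep A ∧ ∑ j, w j * c j = 0 := by
  rw [mem_dep', mem_dep']
  constructor
  · intro h
    refine ⟨fun i => ?_, ?_⟩
    · have := h i.castSucc
      simpa [Matrix.of_apply, Fin.snoc_castSucc] using this
    · have := h (Fin.last m)
      simpa [Matrix.of_apply, Fin.snoc_last] using this
  · rintro ⟨h1, h2⟩ i
    refine Fin.lastCases ?_ (fun i => ?_) i
    · simpa [Matrix.of_apply, Fin.snoc_last] using h2
    · simpa [Matrix.of_apply, Fin.snoc_castSucc] using h1 i

/-- A d*-step along `w`, and its effect on the dependencies. -/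
lemma exists_dstep {m : ℕ} (A : Matrix (Fin m) α F) (w : α → F) :
    ∃ A' : Matrix (Fin (m + 1)) α F, IsDStep A A' ∧
      ∀ c, c ∈ dep A' ↔ c ∈ dep A ∧ ∑ j, w j * c j = 0 :=
  ⟨_, ⟨w, rfl⟩, fun _ => mem_dep_snoc⟩

/-! ### From matrices to matroids -/

/-- Words on `Option α`. -/
def oext (x : F) (c : α → F) : Option α → F := fun o => o.elim x c

lemma transf {n m₀ m₁ : ℕ} {B : Matrix (Fin n) (Option α) F} {A₀ : Matrix (Fin m₀) α F}
    {A₁ : Matrix (Fin m₁) α F} (h0 : ∀ c, c ∈ dep A₀ ↔ oext 0 c ∈ dep B)
    (h1 : ∀ c, c ∈ dep A₁ ↔ ∃ x, oext x c ∈ dep B) (hne : oext 1 (0 : α → F) ∉ dep B)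
    (S : Set α) : ∃ N : Matroid (Option α), none ∈ N.E ∧
      colMatroid A₀ ↾ S = (N ＼ {none}).comap some ∧
      colMatroid A₁ ↾ S = (N ／ {none}).comap some := by
  have hoext : ∀ (d : Option α → F), d = oext (d none) (fun i => d (some i)) := by
    intro d; funext o; cases o <;> rfl
  have hnoneI : (colMatroid B ↾ insert none (some '' S)).Indep {none} := by
    rw [restrict_indep_iff]
    refine ⟨?_, by intro o ho; exact Or.inl ho⟩
    rw [colMatroid_indep]
    intro d hd hdI
    have h2 : d = d none • oext 1 (0 : α → F) := by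
      funext o
      cases o with
      | none => simp [oext]
      | some i => simp [oext, hdI (some i) (by simp)]
    by_cases h3 : d none = 0
    · rw [h2, h3, zero_smul]
    · exfalso
      apply hne
      rw [h2] at hd
      have := (dep B).smul_mem (d none)⁻¹ hd
      rwa [smul_smul, inv_mul_cancel₀ h3, one_smul] at this
  refine ⟨colMatroid B ↾ insert none (some '' S), by rw [restrict_ground_eq]; exact Or.inl rfl,
    ?_, ?_⟩
  · refine Matroid.ext_indep ?_ ?_
    · rw [restrict_ground_eq, comap_ground_eq, delete_ground, restrict_ground_eq]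
      ext i
      simp
    · intro I hI
      rw [restrict_ground_eq] at hI
      rw [restrict_indep_iff, comap_indep_iff, delete_indep_iff, restrict_indep_iff,
        colMatroid_indep, colMatroid_indep]
      constructor
      · rintro ⟨h2, -⟩
        refine ⟨⟨⟨?_, ?_⟩, ?_⟩, (Option.some_injective α).injOn⟩
        · intro d hd hdI
          have h3 : d none = 0 := hdI none (by simp)
          have h4 := h2 (fun i => d (some i)) ((h0 _).2 (by rw [← h3, ← hoext]; exact hd)) (by
            intro i hi
            exact hdI (some i) (by simpa using hi))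
          funext o
          cases o with
          | none => exact h3
          | some i => exact congrFun h4 i
        · rintro _ ⟨i, hi, rfl⟩
          exact Or.inr ⟨i, hI hi, rfl⟩
        · rw [Set.disjoint_left]
          rintro _ ⟨i, hi, rfl⟩ h3
          simp at h3
      · rintro ⟨⟨⟨h2, -⟩, -⟩, -⟩
        refine ⟨?_, hI⟩
        intro c hc hcI
        have h3 := h2 (oext 0 c) ((h0 c).1 hc) (by
          intro o ho
          cases o with
          | none => rfl
          | some i => exact hcI i (fun h => ho ⟨i, h, rfl⟩))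
        funext i
        exact congrFun h3 (some i)
  · refine Matroid.ext_indep ?_ ?_
    · rw [restrict_ground_eq, comap_ground_eq, contract_ground, restrict_ground_eq]
      ext i
      simp
    · intro I hI
      rw [restrict_ground_eq] at hI
      rw [comap_indep_iff, hnoneI.contract_indep_iff, restrict_indep_iff, restrict_indep_iff,
        colMatroid_indep, colMatroid_indep]
      constructor
      · rintro ⟨h2, -⟩
        refine ⟨⟨?_, ⟨?_, ?_⟩⟩, (Option.some_injective α).injOn⟩
        · rw [Set.disjoint_left]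
          rintro _ ⟨i, hi, rfl⟩ h3
          simp at h3
        · intro d hd hdI
          have h4 := h2 (fun i => d (some i)) ((h1 _).2 ⟨d none, by rw [← hoext]; exact hd⟩) (by
            intro i hi
            exact hdI (some i) (by simpa using hi))
          have h5 : d = d none • oext 1 (0 : α → F) := by
            funext o
            cases o with
            | none => simp [oext]
            | some i =>
              have : d (some i) = 0 := congrFun h4 i
              simp [oext, this]
          by_cases h6 : d none = 0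
          · rw [h5, h6, zero_smul]
          · exfalso
            apply hne
            rw [h5] at hd
            have := (dep B).smul_mem (d none)⁻¹ hd
            rwa [smul_smul, inv_mul_cancel₀ h6, one_smul] at this
        · rintro _ (⟨i, hi, rfl⟩ | h3)
          · exact Or.inr ⟨i, hI hi, rfl⟩
          · exact Or.inl h3
      · rintro ⟨⟨-, ⟨h2, -⟩⟩, -⟩
        refine ⟨?_, hI⟩
        intro c hc hcI
        obtain ⟨x, hx⟩ := (h1 c).1 hc
        have h3 := h2 (oext x c) hx (by
          intro o ho
          cases o with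
          | none => exact absurd (Or.inr rfl) ho
          | some i => exact hcI i (fun h => ho (Or.inl ⟨i, h, rfl⟩)))
        funext i
        exact congrFun h3 (some i)

/-- A matrix with an additional column. -/
def addCol {m : ℕ} (A : Matrix (Fin m) α F) (v : Fin m → F) : Matrix (Fin m) (Option α) F :=
  fun i o => o.elim (v i) (A i)

lemma mem_dep_addCol {m : ℕ} {A : Matrix (Fin m) α F} {v : Fin m → F} {x : F} {c : α → F} :
    oext x c ∈ dep (addCol A v) ↔ A.mulVec c = (-x) • v := by
  rw [mem_dep']
  have h1 : ∀ i, ∑ j, addCol A v i j * oext x c j = v i * x + (A.mulVec c) i := by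
    intro i
    rw [Fintype.sum_option]
    rfl
  constructor
  · intro h
    funext i
    have := h i
    rw [h1] at this
    rw [Pi.smul_apply, smul_eq_mul]
    linear_combination this
  · intro h i
    rw [h1, h, Pi.smul_apply, smul_eq_mul]
    ring

lemma isCTransformation_of_cstep {m : ℕ} {A : Matrix (Fin (m + 1)) α F} {A' : Matrix (Fin m) α F}
    (h : IsCStep A A') (S : Set α) :
    IsCTransformation (colMatroid A ↾ S) (colMatroid A' ↾ S) := by
  obtain ⟨v, hv, hdep⟩ := dep_of_cstep h
  apply transf (B := addCol A v)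
  · intro c
    rw [mem_dep_addCol, mem_dep, neg_zero, zero_smul]
  · intro c
    rw [hdep]
    constructor
    · rintro ⟨x, hx⟩
      exact ⟨-x, by rw [mem_dep_addCol, neg_neg]; exact hx⟩
    · rintro ⟨x, hx⟩
      exact ⟨-x, mem_dep_addCol.1 hx⟩
  · rw [mem_dep_addCol, Matrix.mulVec_zero]
    intro h0
    apply hv
    have : (-1 : F) • v = 0 := h0.symm
    simpa using this

lemma isDTransformation_of_dstep {m : ℕ} {A : Matrix (Fin m) α F} {A' : Matrix (Fin (m + 1)) α F}
    (h : IsDStep A A') (S : Set α) :
    IsDTransformation (colMatroid A ↾ S) (colMatroid A' ↾ S) := by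
  obtain ⟨w, rfl⟩ := h
  set A' : Matrix (Fin (m + 1)) α F := Matrix.of (Fin.snoc (fun i => A i) w) with hA'
  have hlast : ∀ c i, A'.mulVec c (Fin.castSucc i) = A.mulVec c i := by
    intro c i
    simp [hA', Matrix.mulVec, dotProduct, Matrix.of_apply, Fin.snoc_castSucc]
  have := transf (B := addCol A' (Pi.single (Fin.last m) 1)) (A₀ := A') (A₁ := A) ?_ ?_ ?_ S
  · obtain ⟨N, h1, h2, h3⟩ := this
    exact ⟨N, h1, h3, h2⟩
  · intro c
    rw [mem_dep_addCol, mem_dep, neg_zero, zero_smul]
  · intro c
    rw [mem_dep]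
    constructor
    · intro h
      refine ⟨- A'.mulVec c (Fin.last m), ?_⟩
      rw [mem_dep_addCol, neg_neg]
      funext i
      refine Fin.lastCases ?_ (fun i => ?_) i
      · simp
      · rw [hlast, h]
        simp
    · rintro ⟨x, hx⟩
      rw [mem_dep_addCol] at hx
      funext i
      rw [← hlast, hx]
      simp
  · rw [mem_dep_addCol, Matrix.mulVec_zero]
    intro h0
    have := congrFun h0 (Fin.last m)
    simp at this

/-- The matroid depth of the column matroid is at most the matrix depth. -/
theorem matroidDepthLE_of_matrixDepthLE {m : ℕ} {A : Matrix (Fin m) α F} {S : Set α} {k : ℕ}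
    (h : MatrixDepthLE A S k) : MatroidDepthLE (colMatroid A ↾ S) k := by
  induction h with
  | small A S k h => exact MatroidDepthLE.small _ _ (by rw [restrict_ground_eq]; exact h)
  | split A S k h h' ih =>
    refine MatroidDepthLE.split _ _ h fun X hX => ?_
    have hXS : X ⊆ S := hX.1.1
    rw [restrict_restrict_eq _ hXS]
    exact ih X hX
  | cstep A A' S k h h₁ h₂ h₃ h' ih =>
    exact MatroidDepthLE.step _ _ k h (by rw [restrict_ground_eq]; exact h₁)
      (Or.inl (isCTransformation_of_cstep h₂ S)) h₃ ih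
  | dstep A A' S k h h₁ h₂ h₃ h' ih =>
    exact MatroidDepthLE.step _ _ k h (by rw [restrict_ground_eq]; exact h₁)
      (Or.inr (isDTransformation_of_dstep h₂ S)) h₃ ih

end Pool.Agent.Lib.MP_a7207a_co
end
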