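import Pool.Agent.Lib.MP_a7207a_co.Steps

section

/-!
# The matrix depth is finite
-/

set_option linter.unusedSectionVars false

namespace Pool.Agent.Lib.MP_a7207a_co

open Set Matroid Function

variable {F : Type*} [Field F] {α : Type*} [Fintype α]

lemma Rel.symm {L : Submodule F (α → F)} {K : Set α} {x y : α} (h : Rel L K x y) :
    Rel L K y x := by
  obtain ⟨d, h1, h2, h3, h4⟩ := h
  exact ⟨d, h1, h2, h4, h3⟩

lemma rel_of_connected {m : ℕ} {A : Matrix (Fin m) α F} {S : Set α}
    (h : IsConnected (colMatroid A ↾ S)) {x y : α} (hx : x ∈ S) (hy : y ∈ S) (hxy : x ≠ y) :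
    Rel (dep A) S x y :=
  (linked_iff.1 h.1).2 x hx y hy hxy

lemma isConnected_iff {m : ℕ} {A : Matrix (Fin m) α F} {S : Set α} :
    IsConnected (colMatroid A ↾ S) ↔ ∀ x ∈ S, ∀ y ∈ S, x ≠ y → Rel (dep A) S x y := by
  constructor
  · intro h x hx y hy hxy
    exact rel_of_connected h hx hy hxy
  · intro h
    exact ⟨linked_iff.2 ⟨Subset.rfl, h⟩, fun _ hX _ => hX.1⟩

/-- Sets without circuits of size at least two have depth one. -/
lemma depth_one {m : ℕ} {A : Matrix (Fin m) α F} {S : Set α}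
    (h : ∀ x ∈ S, ∀ y ∈ S, x ≠ y → ¬ Rel (dep A) S x y) : MatrixDepthLE A S 1 := by
  by_cases hs : S.Subsingleton
  · exact MatrixDepthLE.small A S 0 hs
  · have hns := hs
    rw [Set.not_subsingleton_iff] at hs
    obtain ⟨x, hx, y, hy, hxy⟩ := hs
    refine MatrixDepthLE.split A S 1 (fun hc => h x hx y hy hxy (rel_of_connected hc hx hy hxy))
      fun X hX => MatrixDepthLE.small A X 0 ?_
    intro a ha b hb
    by_contra hab
    obtain ⟨hXS, hX'⟩ := linked_iff.1 hX.1
    exact h a (hXS ha) b (hXS hb) hab (hX' a ha b hb hab)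

/-- A component is connected. -/
lemma component_connected {m : ℕ} {A : Matrix (Fin m) α F} {S X : Set α}
    (hX : IsComponent (colMatroid A ↾ S) X) : IsConnected (colMatroid A ↾ X) := by
  obtain ⟨hXS, hX'⟩ := linked_iff.1 hX.1
  rw [isConnected_iff]
  intro x hx y hy hxy
  obtain ⟨d, hd, hdS, hdx, hdy⟩ := hX' x hx y hy hxy
  refine ⟨d, hd, ?_, hdx, hdy⟩
  intro z hz
  by_contra hzX
  have hzS : z ∈ S := hdS hz
  have hzr : ∀ w ∈ X, Rel (dep A) S z w := by
    intro w hw
    have h1 : Rel (dep A) S z x := ⟨d, hd, hdS, hz, hdx⟩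
    by_cases hwx : x = w
    · rw [← hwx]; exact h1
    · exact h1.trans (hX' x hx w hw hwx)
  have hlink : Linked (colMatroid A ↾ S) (insert z X) := by
    rw [linked_iff]
    refine ⟨Set.insert_subset hzS hXS, ?_⟩
    rintro a (rfl | ha) b (rfl | hb) hab
    · exact absurd rfl hab
    · exact hzr b hb
    · exact (hzr a ha).symm
    · exact hX' a ha b hb hab
  exact hzX (hX.2 hlink (Set.subset_insert _ _) (Or.inl rfl))

lemma of_connected {m : ℕ} {k : ℕ}
    (h : ∀ (A : Matrix (Fin m) α F) (S : Set α), IsConnected (colMatroid A ↾ S) →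
      MatrixDepthLE A S k) (A : Matrix (Fin m) α F) (S : Set α) : MatrixDepthLE A S k := by
  by_cases hc : IsConnected (colMatroid A ↾ S)
  · exact h A S hc
  · exact MatrixDepthLE.split A S k hc fun X hX => h A X (component_connected hX)

lemma indep_singleton_iff {m : ℕ} {A : Matrix (Fin m) α F} [DecidableEq α] {x : α} :
    (colMatroid A).Indep {x} ↔ Pi.single x (1 : F) ∉ dep A := by
  rw [colMatroid_indep]
  constructor
  · intro h hx
    have := h _ hx (by
      intro i hi
      have : i ≠ x := by simpa using hi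
      simp [this])
    have := congrFun this x
    simp at this
  · intro h c hc hcx
    by_contra hc0
    have h1 : c = c x • Pi.single x (1 : F) := by
      funext i
      by_cases hi : i = x
      · subst hi; simp
      · rw [hcx i (by simpa using hi)]; simp [hi]
    have h2 : c x ≠ 0 := by
      intro h2
      rw [h2, zero_smul] at h1
      exact hc0 h1
    apply h
    rw [h1] at hc
    have := (dep A).smul_mem (c x)⁻¹ hc
    rwa [smul_smul, inv_mul_cancel₀ h2, one_smul] at this

/-- The matrix depth is finite. -/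
theorem exists_depth (m : ℕ) : ∀ (A : Matrix (Fin m) α F) (S : Set α),
    MatrixDepthLE A S (m + 1) := by
  classical
  induction m with
  | zero =>
    intro A S
    apply depth_one
    rintro x - y - hxy ⟨d, hd, -, hdx, hdy⟩
    have h1 : Pi.single x (1 : F) ∈ dep A := by
      rw [mem_dep]
      funext i
      exact i.elim0
    have h2 := hd.min _ h1 (by
      intro h
      have := congrFun h x
      simp at this) (by
      intro i hi
      have : i = x := by
        by_contra h
        exact hi (by simp [h])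
      rw [this]; exact hdx)
    have h3 : y ∈ support (Pi.single x (1 : F) : α → F) := by rw [h2]; exact hdy
    apply h3
    simp [Ne.symm hxy]
  | succ m ih =>
    apply of_connected
    intro A S hS
    by_cases hs : S.Subsingleton
    · exact MatrixDepthLE.small A S _ hs
    · have hns := hs
      rw [Set.not_subsingleton_iff] at hs
      obtain ⟨x, hx, y, hy, hxy⟩ := hs
      obtain ⟨d, hd, -, hdx, hdy⟩ := rel_of_connected hS hx hy hxy
      have h1 : Pi.single x (1 : F) ∉ dep A := by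
        intro h1
        have h2 := hd.min _ h1 (by
          intro h
          have := congrFun h x
          simp at this) (by
          intro i hi
          have : i = x := by
            by_contra h
            exact hi (by simp [h])
          rw [this]; exact hdx)
        have h3 : y ∈ support (Pi.single x (1 : F) : α → F) := by rw [h2]; exact hdy
        apply h3
        simp [Ne.symm hxy]
      have hv : A.mulVec (Pi.single x 1) ≠ 0 := fun h => h1 (mem_dep.2 h)
      obtain ⟨A', hA', hdep⟩ := exists_cstep A hv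
      have h2 : Pi.single x (1 : F) ∈ dep A' := (hdep _).2 ⟨1, by rw [one_smul]⟩
      refine MatrixDepthLE.cstep A A' S (m + 1) hS hns hA' ?_ (ih A' S)
      intro heq
      have h3 : (colMatroid A ↾ S).Indep {x} := by
        rw [restrict_indep_iff, indep_singleton_iff]
        exact ⟨h1, Set.singleton_subset_iff.2 hx⟩
      rw [← heq, restrict_indep_iff, indep_singleton_iff] at h3
      exact h3.1 h2

end Pool.Agent.Lib.MP_a7207a_co
end

section

/-!
# The lower bound: the matrix depth of the first matrix is at least five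
-/

set_option linter.unusedSectionVars false

namespace Pool.Agent.Lib.MP_a7207a_co

open Set Matroid Function Module

lemma par_lemma {f : V} {a p a' p' : ℚ} (h : ((a, fun _ => p) : V) ∈ Submodule.span ℚ {f})
    (h' : ((a', fun j => p' * rho j) : V) ∈ Submodule.span ℚ {f}) (hne : a ≠ 0 ∨ p ≠ 0)
    (hne' : a' ≠ 0 ∨ p' ≠ 0) : p = 0 ∧ p' = 0 := by
  obtain ⟨x, hx⟩ := Submodule.mem_span_singleton.1 h
  obtain ⟨y, hy⟩ := Submodule.mem_span_singleton.1 h'
  have hx0 : x ≠ 0 := by
    intro h0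
    rw [h0, zero_smul] at hx
    have e1 := congrArg Prod.fst hx
    have e2 := congrFun (congrArg Prod.snd hx) 0
    simp only [Prod.fst_zero, Prod.snd_zero, Pi.zero_apply] at e1 e2
    rcases hne with h | h
    · exact h e1.symm
    · exact h e2.symm
  have hy0 : y ≠ 0 := by
    intro h0
    rw [h0, zero_smul] at hy
    have e1 := congrArg Prod.fst hy
    have e2 := congrFun (congrArg Prod.snd hy) 0
    simp only [Prod.fst_zero, Prod.snd_zero, Pi.zero_apply] at e1 e2
    rcases hne' with h | h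
    · exact h e1.symm
    · exact h ((mul_eq_zero.1 e2.symm).resolve_right (rho_neg 0).ne)
  have key : ∀ j, -(y * p) + (x * p') * rho j = 0 := by
    intro j
    have e1 := congrFun (congrArg Prod.snd hx) j
    have e2 := congrFun (congrArg Prod.snd hy) j
    simp only [Prod.smul_snd, Pi.smul_apply, smul_eq_mul] at e1 e2
    rw [← e1, mul_assoc, ← e2]
    ring
  obtain ⟨h1, h2⟩ := comb_zero (j := 0) (l := 1) (by decide) (key 0) (key 1)
  exact ⟨(mul_eq_zero.1 (neg_eq_zero.1 h1)).resolve_left hy0, (mul_eq_zero.1 h2).resolve_left hx0⟩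

lemma vec_snd_ne (e : E) : (vec 0 rho e).2 ≠ 0 := by
  rcases e with j | t | s
  · rw [vec_e1]
    intro h
    have := congrFun h j
    simp at this
  · rw [vec_e2]
    intro h
    exact (par_pos t).ne' (congrFun h 0)
  · rw [vec_e3]
    intro h
    have := congrFun h 0
    simp only [Pi.zero_apply, zero_add] at this
    exact (mul_ne_zero (par_pos s).ne' (rho_neg 0).ne) this

/-- On each line at most one vector lies in a given one-dimensional space. -/
lemma not_both2 {A₁ : Submodule ℚ V} {f : V} (hA : A₁ ≤ Submodule.span ℚ {f}) {t t' : Fin 8}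
    (htt : t ≠ t') : vec 0 rho (e2 t) ∉ A₁ ∨ vec 0 rho (e2 t') ∉ A₁ := by
  by_contra hcon
  push Not at hcon
  obtain ⟨x, hx⟩ := Submodule.mem_span_singleton.1 (hA hcon.1)
  obtain ⟨y, hy⟩ := Submodule.mem_span_singleton.1 (hA hcon.2)
  rw [vec_e2] at hx hy
  have e1 : x * f.1 = 1 := congrArg Prod.fst hx
  have e2 : y * f.1 = 1 := congrArg Prod.fst hy
  have e3 : x * f.2 0 = par t := congrFun (congrArg Prod.snd hx) 0
  have e4 : y * f.2 0 = par t' := congrFun (congrArg Prod.snd hy) 0
  have hf : f.1 ≠ 0 := by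
    intro h
    rw [h, mul_zero] at e1
    exact zero_ne_one e1
  have hxy : x = y := mul_right_cancel₀ hf (e1.trans e2.symm)
  rw [hxy, e4] at e3
  exact par_inj htt e3.symm

lemma not_both3 {A₁ : Submodule ℚ V} {f : V} (hA : A₁ ≤ Submodule.span ℚ {f}) {t t' : Fin 8}
    (htt : t ≠ t') : vec 0 rho (e3 t) ∉ A₁ ∨ vec 0 rho (e3 t') ∉ A₁ := by
  by_contra hcon
  push Not at hcon
  obtain ⟨x, hx⟩ := Submodule.mem_span_singleton.1 (hA hcon.1)
  obtain ⟨y, hy⟩ := Submodule.mem_span_singleton.1 (hA hcon.2)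
  rw [vec_e3] at hx hy
  have e1 : x * f.1 = 1 := congrArg Prod.fst hx
  have e2 : y * f.1 = 1 := congrArg Prod.fst hy
  have e3 : x * f.2 0 = 0 + par t * rho 0 := congrFun (congrArg Prod.snd hx) 0
  have e4 : y * f.2 0 = 0 + par t' * rho 0 := congrFun (congrArg Prod.snd hy) 0
  have hf : f.1 ≠ 0 := by
    intro h
    rw [h, mul_zero] at e1
    exact zero_ne_one e1
  have hxy : x = y := mul_right_cancel₀ hf (e1.trans e2.symm)
  rw [hxy, e4, zero_add, zero_add] at e3
  exact par_inj htt (mul_right_cancel₀ (rho_neg 0).ne e3).symm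

/-- The values of the two short words. -/
lemma snd_zero_of_span {L₂ : Submodule ℚ (E → ℚ)} {f : V}
    (hL : ∀ c ∈ L₂, PA c ∈ Submodule.span ℚ {f}) {c : E → ℚ} (hc : c ∈ L₂) (hc0 : c ≠ 0)
    {t t' : Fin 8} (htt : t ≠ t') (hcs : support c ⊆ {e2 t, e2 t'}) {c' : E → ℚ} (hc' : c' ∈ L₂)
    (hc0' : c' ≠ 0) {s s' : Fin 8} (hss : s ≠ s') (hcs' : support c' ⊆ {e3 s, e3 s'}) :
    f.2 = 0 ∧ (PA c).1 ≠ 0 ∧ (PA c).2 = 0 := by
  have h1 := hL c hc
  have h2 := hL c' hc'
  rw [short2_val htt hcs] at h1 ⊢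
  rw [short3_val hss hcs'] at h2
  have hne : c (e2 t) + c (e2 t') ≠ 0 ∨ par t * c (e2 t) + par t' * c (e2 t') ≠ 0 := by
    by_contra hcon
    push Not at hcon
    exact ne_of_pair2 htt hcs hc0 hcon.1 hcon.2
  have hne' : c' (e3 s) + c' (e3 s') ≠ 0 ∨ par s * c' (e3 s) + par s' * c' (e3 s') ≠ 0 := by
    by_contra hcon
    push Not at hcon
    exact ne_of_pair3 hss hcs' hc0' hcon.1 hcon.2
  obtain ⟨h3, h4⟩ := par_lemma h1 h2 hne hne'
  have h5 : c (e2 t) + c (e2 t') ≠ 0 := hne.resolve_right (fun h => h h3)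
  obtain ⟨x, hx⟩ := Submodule.mem_span_singleton.1 h1
  have hx0 : x ≠ 0 := by
    intro h0
    rw [h0, zero_smul] at hx
    exact h5 (congrArg Prod.fst hx).symm
  refine ⟨?_, h5, ?_⟩
  · have h6 : x • f.2 = 0 := by
      have := congrArg Prod.snd hx
      rw [Prod.smul_snd] at this
      rw [this]
      funext j
      exact h3
    exact (smul_eq_zero.1 h6).resolve_left hx0
  · funext j
    exact h3

lemma exists_comb (w : (E → ℚ) →ₗ[ℚ] ℚ) (a b : E → ℚ) :
    ∃ x y : ℚ, (x ≠ 0 ∨ y ≠ 0) ∧ w (x • a + y • b) = 0 := by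
  by_cases h0 : w a = 0 ∧ w b = 0
  · exact ⟨1, 0, Or.inl one_ne_zero, by simp [h0.1]⟩
  · refine ⟨w b, - w a, ?_, ?_⟩
    · by_contra hcon
      push Not at hcon
      exact h0 ⟨neg_eq_zero.1 hcon.2, hcon.1⟩
    · rw [map_add, map_smul, map_smul, smul_eq_mul, smul_eq_mul]; ring

lemma finrank_span_le_one (x : V) : finrank ℚ (Submodule.span ℚ {x}) ≤ 1 := by
  have := finrank_span_le_card (R := ℚ) ({x} : Set V)
  simpa using this

/-- The main lower bound. -/
theorem not_ld4 : ¬ LD 4 (LinearMap.ker PA) univ := by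
  intro h4
  have hc0 : Conn (LinearMap.ker PA) univ := by
    have h1 := conn_c okA (A₁ := ⊥) (f := 0) bot_le
    have h2 : {e | vec 0 rho e ∉ (⊥ : Submodule ℚ V)} = univ := by
      ext e
      simp only [Submodule.mem_bot, Set.mem_ofPred_eq, Set.mem_univ, iff_true]
      exact vec_ne_zero e
    rw [h2, Submodule.comap_bot] at h1
    exact h1
  have hnsu : ¬ (univ : Set E).Subsingleton := by
    intro h
    have := h (mem_univ (e1 0)) (mem_univ (e1 1))
    simp at this
  rcases h4 univ Subset.rfl hc0 with h | ⟨L₁, hL₁, h3⟩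
  · exact hnsu h
  have hdim : ∀ L₂, (CS L₁ L₂ ∨ DS L₁ L₂) → ∀ W : Submodule ℚ (E → ℚ),
      finrank ℚ ↥(LinearMap.ker PA ⊓ W) ≤ finrank ℚ ↥(L₂ ⊓ W) + 2 := by
    intro L₂ hL₂ W
    have i1 := finrank_step hL₁ W
    have i2 := finrank_step hL₂ W
    omega
  rcases hL₁ with ⟨hle, ρ, hρ⟩ | hDS
  · -- first step a c*-step
    set A₁ : Submodule ℚ V := L₁.map PA with hA₁
    have hL₁A : ∀ c, c ∈ L₁ ↔ PA c ∈ A₁ := by
      intro c
      constructor
      · intro hc; exact ⟨c, hc, rfl⟩
      · rintro ⟨d, hd, hdc⟩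
        have : c - d ∈ L₁ := hle (by rw [LinearMap.mem_ker, map_sub, hdc, sub_self])
        have h5 := L₁.add_mem this hd
        rwa [sub_add_cancel] at h5
    have hA₁f : A₁ ≤ Submodule.span ℚ {PA ρ} := by
      rintro _ ⟨c, hc, rfl⟩
      obtain ⟨a, ha, b, hb, rfl⟩ := Submodule.mem_sup.1 (hρ hc)
      obtain ⟨x, rfl⟩ := Submodule.mem_span_singleton.1 hb
      rw [map_add, LinearMap.mem_ker.1 ha, zero_add, map_smul]
      exact Submodule.smul_mem _ _ (Submodule.mem_span_singleton_self _)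
    have hcomap : A₁.comap PA = L₁ := by
      ext c; rw [Submodule.mem_comap, hL₁A]
    have hc1 := conn_c okA hA₁f
    rw [hcomap] at hc1
    set K₁ : Set E := {e | vec 0 rho e ∉ A₁} with hK₁
    have hk2 : ∀ t t', t ≠ t' → e2 t ∈ K₁ ∨ e2 t' ∈ K₁ := fun t t' h => not_both2 hA₁f h
    have hk3 : ∀ t t', t ≠ t' → e3 t ∈ K₁ ∨ e3 t' ∈ K₁ := fun t t' h => not_both3 hA₁f h
    have hns : ¬ K₁.Subsingleton := by
      intro h
      rcases hk2 0 1 (by decide) with h1 | h1 <;> rcases hk3 0 1 (by decide) with h2 | h2 <;>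
      · have := h h1 h2
        simp at this
    rcases h3 K₁ (subset_univ _) hc1 with h | ⟨L₂, hL₂, h2⟩
    · exact hns h
    have hF : Fin2 L₂ K₁ := ⟨h2, hk2, hk3, hdim L₂ hL₂⟩
    rcases hL₂ with ⟨hle₂, ρ', hρ'⟩ | ⟨hle₂, w, hw⟩
    · -- two c*-steps
      refine no_cc hF (A := L₂.map PA) ?_ ?_ ?_
      · intro c
        constructor
        · intro hc; exact ⟨c, hc, rfl⟩
        · rintro ⟨d, hd, hdc⟩
          have : c - d ∈ L₂ := hle₂ (hle (by rw [LinearMap.mem_ker, map_sub, hdc, sub_self]))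
          have h5 := L₂.add_mem this hd
          rwa [sub_add_cancel] at h5
      · have h5 : L₂.map PA ≤ Submodule.span ℚ {PA ρ} ⊔ Submodule.span ℚ {PA ρ'} := by
          rintro _ ⟨c, hc, rfl⟩
          obtain ⟨a, ha, b, hb, rfl⟩ := Submodule.mem_sup.1 (hρ' hc)
          obtain ⟨x, rfl⟩ := Submodule.mem_span_singleton.1 hb
          rw [map_add, map_smul]
          exact Submodule.add_mem_sup (hA₁f ⟨a, ha, rfl⟩)
            (Submodule.smul_mem _ _ (Submodule.mem_span_singleton_self _))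
        have h6 := Submodule.finrank_mono h5
        have h7 := Submodule.finrank_add_le_finrank_add_finrank (Submodule.span ℚ {PA ρ})
          (Submodule.span ℚ {PA ρ'})
        have h8 := finrank_span_le_one (PA ρ)
        have h9 := finrank_span_le_one (PA ρ')
        omega
      · intro e he
        have h5 : vec 0 rho e ∈ A₁ := by
          by_contra h; exact he h
        exact Submodule.map_mono hle₂ h5
    · -- a c*-step and a d*-step
      obtain ⟨c, hc, hc0, t, t', htt, hcs, hcK⟩ := exists_short2 hF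
      obtain ⟨c', hc', hc0', s, s', hss, hcs', hcK'⟩ := exists_short3 hF
      have hspan : ∀ c ∈ L₂, PA c ∈ Submodule.span ℚ {PA ρ} := by
        intro c hc
        exact hA₁f ((hL₁A c).1 (hle₂ hc))
      obtain ⟨hf, hc1', hc2'⟩ := snd_zero_of_span hspan hc hc0 htt hcs hc' hc0' hss hcs'
      have hA2 : ∀ v ∈ A₁, v.2 = 0 := by
        intro v hv
        obtain ⟨x, rfl⟩ := Submodule.mem_span_singleton.1 (hA₁f hv)
        rw [Prod.smul_snd, hf, smul_zero]
      refine no_mixed h2 (fun d hd => hA2 _ ((hL₁A d).1 (hle₂ hd))) ?_ ?_ hc hc0 htt hcs hc' hc0'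
        hss hcs'
      · intro d _ i hi
        exfalso
        apply hi
        intro h
        exact vec_snd_ne i (hA2 _ h)
      · intro r r' hr hr'
        have hmem : ∀ r, (PA r).2 = 0 → r ∈ L₁ := by
          intro r hr
          rw [hL₁A]
          have h5 := A₁.smul_mem ((PA r).1 / (PA c).1) ((hL₁A c).1 (hle₂ hc))
          convert h5 using 1
          refine Prod.ext ?_ ?_
          · rw [Prod.smul_fst, smul_eq_mul, div_mul_cancel₀ _ hc1']
          · rw [Prod.smul_snd, hc2', smul_zero, hr]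
        obtain ⟨x, y, hxy, hw0⟩ := exists_comb w r r'
        exact ⟨x, y, hxy, hw ⟨L₁.add_mem (L₁.smul_mem _ (hmem r hr)) (L₁.smul_mem _ (hmem r' hr')),
          hw0⟩⟩
  · -- first step a d*-step
    obtain ⟨hle, w, hw⟩ := id hDS
    have hK : ∃ K₁ : Set E, L₁ ≤ Sup ℚ K₁ ∧ Conn L₁ K₁ ∧ ∀ a b, a ≠ b → a ∈ K₁ ∨ b ∈ K₁ := by
      rcases conn_d okA hDS with h | ⟨e, he, h⟩
      · exact ⟨univ, by rw [Sup_univ]; exact le_top, h, fun a _ _ => Or.inl (mem_univ a)⟩
      · refine ⟨{e}ᶜ, he, h, fun a b hab => ?_⟩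
        by_contra hcon
        simp only [Set.mem_compl_iff, Set.mem_singleton_iff, not_or, not_not] at hcon
        exact hab (hcon.1.trans hcon.2.symm)
    obtain ⟨K₁, hK₁, hc1, hk⟩ := hK
    have hk2 : ∀ t t', t ≠ t' → e2 t ∈ K₁ ∨ e2 t' ∈ K₁ := fun t t' h => hk _ _ (by simpa using h)
    have hk3 : ∀ t t', t ≠ t' → e3 t ∈ K₁ ∨ e3 t' ∈ K₁ := fun t t' h => hk _ _ (by simpa using h)
    have hns : ¬ K₁.Subsingleton := by
      intro h
      rcases hk2 0 1 (by decide) with h1 | h1 <;> rcases hk3 0 1 (by decide) with h2 | h2 <;>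
      · have := h h1 h2
        simp at this
    rcases h3 K₁ (subset_univ _) hc1 with h | ⟨L₂, hL₂, h2⟩
    · exact hns h
    have hF : Fin2 L₂ K₁ := ⟨h2, hk2, hk3, hdim L₂ hL₂⟩
    obtain ⟨c, hc, hc0, t, t', htt, hcs, hcK⟩ := exists_short2 hF
    obtain ⟨c', hc', hc0', s, s', hss, hcs', hcK'⟩ := exists_short3 hF
    rcases hL₂ with ⟨hle₂, ρ', hρ'⟩ | ⟨hle₂, w', hw'⟩
    · -- a d*-step and a c*-step
      have hdec : ∀ d ∈ L₂, ∃ l ∈ L₁, ∃ x : ℚ, d = l + x • ρ' := by
        intro d hd
        obtain ⟨a, ha, b, hb, rfl⟩ := Submodule.mem_sup.1 (hρ' hd)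
        obtain ⟨x, rfl⟩ := Submodule.mem_span_singleton.1 hb
        exact ⟨a, ha, x, rfl⟩
      have hspan : ∀ c ∈ L₂, PA c ∈ Submodule.span ℚ {PA ρ'} := by
        intro d hd
        obtain ⟨l, hl, x, rfl⟩ := hdec d hd
        rw [map_add, LinearMap.mem_ker.1 (hle hl), zero_add, map_smul]
        exact Submodule.smul_mem _ _ (Submodule.mem_span_singleton_self _)
      obtain ⟨hf, hc1', hc2'⟩ := snd_zero_of_span hspan hc hc0 htt hcs hc' hc0' hss hcs'
      refine no_mixed h2 ?_ ?_ ?_ hc hc0 htt hcs hc' hc0' hss hcs'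
      · intro d hd
        obtain ⟨x, hx⟩ := Submodule.mem_span_singleton.1 (hspan d hd)
        rw [← hx, Prod.smul_snd, hf, smul_zero]
      · -- supports
        obtain ⟨l, hl, x, hlx⟩ := hdec c hc
        have hx0 : x ≠ 0 := by
          rintro rfl
          rw [zero_smul, add_zero] at hlx
          apply hc1'
          rw [hlx, LinearMap.mem_ker.1 (hle hl)]
          rfl
        have hρK : ρ' ∈ Sup ℚ K₁ := by
          have h5 : x • ρ' ∈ Sup ℚ K₁ := by
            have : x • ρ' = c - l := by rw [hlx]; abel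
            rw [this]
            exact (Sup ℚ K₁).sub_mem (mem_Sup_iff.2 hcK) (hK₁ hl)
          have h6 := (Sup ℚ K₁).smul_mem x⁻¹ h5
          rwa [smul_smul, inv_mul_cancel₀ hx0, one_smul] at h6
        intro d hd
        obtain ⟨l', hl', x', rfl⟩ := hdec d hd
        exact (Sup ℚ K₁).add_mem (hK₁ hl') ((Sup ℚ K₁).smul_mem _ hρK)
      · intro r r' hr hr'
        set a := (PA c).1 with ha
        obtain ⟨x, y, hxy, hw0⟩ := exists_comb w (r - ((PA r).1 / a) • c)
          (r' - ((PA r').1 / a) • c)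
        have hker : ∀ r, (PA r).2 = 0 → PA (r - ((PA r).1 / a) • c) = 0 := by
          intro r hr
          rw [map_sub, map_smul]
          refine Prod.ext ?_ ?_
          · rw [Prod.fst_sub, Prod.smul_fst, smul_eq_mul, ← ha, div_mul_cancel₀ _ hc1', sub_self]
            rfl
          · rw [Prod.snd_sub, Prod.smul_snd, hc2', smul_zero, hr, sub_zero]
            rfl
        refine ⟨x, y, hxy, ?_⟩
        have h5 : x • (r - ((PA r).1 / a) • c) + y • (r' - ((PA r').1 / a) • c) ∈ L₁ := by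
          apply hw
          refine ⟨?_, hw0⟩
          rw [SetLike.mem_coe, LinearMap.mem_ker, map_add, map_smul, map_smul, hker r hr,
            hker r' hr', smul_zero, smul_zero, add_zero]
        have h6 := L₂.add_mem (hle₂ h5)
          (L₂.smul_mem (x * ((PA r).1 / a) + y * ((PA r').1 / a)) hc)
        convert h6 using 1
        module
    · -- two d*-steps
      have h5 : PA c = 0 := LinearMap.mem_ker.1 (hle (hle₂ hc))
      rw [short2_val htt hcs] at h5
      exact ne_of_pair2 htt hcs hc0 (congrArg Prod.fst h5) (congrFun (congrArg Prod.snd h5) 0)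

/-- The matrix depth of the first matrix is not at most four. -/
theorem not_depth4 {k : ℕ} (hk : k ≤ 4) : ¬ MatrixDepthLE (mat 0 rho) univ k := by
  intro h
  have h1 := ld_of_depth h
  rw [dep_mat] at h1
  have h2 : ∀ n m : ℕ, LD n (LinearMap.ker PA) univ → LD (n + m) (LinearMap.ker PA) univ := by
    intro n m hn
    induction m with
    | zero => exact hn
    | succ m ih => exact ih.succ
  have h3 := h2 k (4 - k) h1
  rw [Nat.add_sub_cancel' hk] at h3
  exact not_ld4 h3

end Pool.Agent.Lib.MP_a7207a_co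
end

section

/-!
# All configurations satisfying `OK` have the same column matroid
-/

set_option linter.unusedSectionVars false

namespace Pool.Agent.Lib.MP_a7207a_co

open Set Matroid Function Module

/-- The combinatorial description of the independent sets. -/
def Comb (I : Set E) : Prop :=
  (e2 ⁻¹' I).ncard ≤ 2 ∧ (e3 ⁻¹' I).ncard ≤ 2 ∧ (e2 ⁻¹' I).ncard + (e3 ⁻¹' I).ncard ≤ 3 ∧
    (e1 ⁻¹' I).ncard + ((e2 ⁻¹' I).ncard + (e3 ⁻¹' I).ncard) ≤ 5

lemma ncard_le_of_map {κ σ : Fin 4 → ℚ} {I X : Set E}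
    (hI : ∀ c ∈ LinearMap.ker (Phi κ σ), c ∈ Sup ℚ I → c = 0) (hX : X ⊆ I) {T : Submodule ℚ V}
    (hT : ∀ e ∈ X, vec κ σ e ∈ T) : X.ncard ≤ finrank ℚ T := by
  rw [← finrank_Sup (F := ℚ) X]
  have h1 : ∀ c ∈ Sup ℚ X, Phi κ σ c ∈ T := by
    intro c hc
    have h2 : c = ∑ e, (c e) • Pi.single e (1 : ℚ) := by
      funext i
      rw [Finset.sum_apply]
      simp [Pi.single_apply]
    rw [h2, map_sum]
    refine Submodule.sum_mem _ fun e _ => ?_
    rw [map_smul]
    by_cases he : e ∈ X
    · exact T.smul_mem _ (hT e he)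
    · rw [hc e he, zero_smul]; exact T.zero_mem
  let f : Sup ℚ X →ₗ[ℚ] T := ((Phi κ σ).domRestrict (Sup ℚ X)).codRestrict T
    (fun c => h1 c.1 c.2)
  apply LinearMap.finrank_le_finrank_of_injective (f := f)
  rw [injective_iff_map_eq_zero]
  intro c hc
  apply Subtype.ext
  apply hI _ _ (Sup_mono hX c.2)
  rw [LinearMap.mem_ker]
  exact congrArg Subtype.val hc

lemma finrank_span2 (u v : V) : finrank ℚ (Submodule.span ℚ {u, v}) ≤ 2 := by
  classical
  have h := finrank_span_finset_le_card (R := ℚ) ({u, v} : Finset V)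
  rw [Finset.coe_pair] at h
  exact h.trans Finset.card_le_two

lemma finrank_span3 (u v w : V) : finrank ℚ (Submodule.span ℚ {u, v, w}) ≤ 3 := by
  classical
  have h := finrank_span_finset_le_card (R := ℚ) ({u, v, w} : Finset V)
  have h2 : (({u, v, w} : Finset V) : Set V) = {u, v, w} := by simp
  rw [h2] at h
  exact h.trans Finset.card_le_three

lemma comb_of_indep {κ σ β : Fin 4 → ℚ} (H : OK κ σ β) {I : Set E}
    (hI : ∀ c ∈ LinearMap.ker (Phi κ σ), c ∈ Sup ℚ I → c = 0) : Comb I := by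
  have hd23 : Disjoint (e2 '' (e2 ⁻¹' I)) (e3 '' (e3 ⁻¹' I)) := by
    rw [Set.disjoint_left]
    rintro _ ⟨t, -, rfl⟩ ⟨s, -, h⟩
    simp at h
  have hd1 : Disjoint (e1 '' (e1 ⁻¹' I)) (e2 '' (e2 ⁻¹' I) ∪ e3 '' (e3 ⁻¹' I)) := by
    rw [Set.disjoint_left]
    rintro _ ⟨j, -, rfl⟩ (⟨s, -, h⟩ | ⟨s, -, h⟩)
    · simp at h
    · simp at h
  have hsub2 : e2 '' (e2 ⁻¹' I) ⊆ I := image_preimage_subset _ _
  have hsub3 : e3 '' (e3 ⁻¹' I) ⊆ I := image_preimage_subset _ _
  have hsub1 : e1 '' (e1 ⁻¹' I) ⊆ I := image_preimage_subset _ _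
  have hc2 : (e2 '' (e2 ⁻¹' I)).ncard = (e2 ⁻¹' I).ncard := Set.ncard_image_of_injective _ e2_inj
  have hc3 : (e3 '' (e3 ⁻¹' I)).ncard = (e3 ⁻¹' I).ncard := Set.ncard_image_of_injective _ e3_inj
  have hc1 : (e1 '' (e1 ⁻¹' I)).ncard = (e1 ⁻¹' I).ncard := Set.ncard_image_of_injective _ e1_inj
  have hc23 : (e2 '' (e2 ⁻¹' I) ∪ e3 '' (e3 ⁻¹' I)).ncard =
      (e2 ⁻¹' I).ncard + (e3 ⁻¹' I).ncard := by
    rw [Set.ncard_union_eq hd23 (Set.toFinite _) (Set.toFinite _), hc2, hc3]
  have hc123 : (e1 '' (e1 ⁻¹' I) ∪ (e2 '' (e2 ⁻¹' I) ∪ e3 '' (e3 ⁻¹' I))).ncard =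
      (e1 ⁻¹' I).ncard + ((e2 ⁻¹' I).ncard + (e3 ⁻¹' I).ncard) := by
    rw [Set.ncard_union_eq hd1 (Set.toFinite _) (Set.toFinite _), hc23, hc1]
  refine ⟨?_, ?_, ?_, ?_⟩
  · rw [← hc2]
    refine (ncard_le_of_map hI hsub2 (T := Submodule.span ℚ {(1, 0), (0, fun _ => 1)}) ?_).trans
      (finrank_span2 _ _)
    rintro _ ⟨t, -, rfl⟩
    rw [vec_e2, Submodule.mem_span_pair]
    refine ⟨1, par t, ?_⟩
    ext
    · simp
    · simp
  · rw [← hc3]
    refine (ncard_le_of_map hI hsub3 (T := Submodule.span ℚ {(1, κ), (0, σ)}) ?_).trans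
      (finrank_span2 _ _)
    rintro _ ⟨t, -, rfl⟩
    rw [vec_e3, Submodule.mem_span_pair]
    refine ⟨1, par t, ?_⟩
    ext
    · simp
    · simp
  · rw [← hc23]
    refine (ncard_le_of_map hI (union_subset hsub2 hsub3)
      (T := Submodule.span ℚ {(1, 0), (0, fun _ => 1), (0, β)}) ?_).trans (finrank_span3 _ _ _)
    rintro _ (⟨t, -, rfl⟩ | ⟨t, -, rfl⟩)
    · rw [vec_e2, Submodule.mem_span_triple]
      refine ⟨1, par t, 0, ?_⟩
      ext
      · simp
      · simp
    · rw [vec_e3, Submodule.mem_span_triple]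
      rcases H.alt with ⟨rfl, rfl⟩ | ⟨rfl, rfl⟩
      · refine ⟨1, 0, par t, ?_⟩
        ext
        · simp
        · simp
      · refine ⟨1, par t, 1, ?_⟩
        ext
        · simp
        · simp
          ring
  · rw [← hc123]
    refine (ncard_le_of_map hI (union_subset hsub1 (union_subset hsub2 hsub3)) (T := ⊤)
      (fun _ _ => Submodule.mem_top)).trans ?_
    rw [finrank_top]
    simp [V]

lemma pair_cover {S : Set (Fin 8)} (h : S.ncard ≤ 2) : ∃ t t', t ≠ t' ∧ S ⊆ {t, t'} ∧
    (S.ncard ≤ 1 → t' ∉ S) ∧ (S.ncard = 0 → t ∉ S) := by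
  have h3 : S.ncard = 0 ∨ S.ncard = 1 ∨ S.ncard = 2 := by omega
  rcases h3 with h3 | h3 | h3
  · rw [Set.ncard_eq_zero (Set.toFinite _)] at h3
    subst h3
    exact ⟨0, 1, by decide, empty_subset _, fun _ => Set.notMem_empty _,
      fun _ => Set.notMem_empty _⟩
  · have h4 := h3
    rw [Set.ncard_eq_one] at h3
    obtain ⟨x, rfl⟩ := h3
    obtain ⟨t', ht'⟩ := exists_ne x
    exact ⟨x, t', ht'.symm, by intro i hi; exact Or.inl hi, fun _ => by simpa using ht',
      fun h => by omega⟩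
  · have h4 := h3
    rw [Set.ncard_eq_two] at h3
    obtain ⟨x, y, hxy, rfl⟩ := h3
    exact ⟨x, y, hxy, Subset.rfl, fun h => by omega, fun h => by omega⟩

lemma exists_one {S : Set (Fin 4)} (h : S.ncard ≤ 3) : ∃ j, j ∉ S := by
  by_contra hcon
  push Not at hcon
  have : S = univ := by ext; simp [hcon]
  rw [this, Set.ncard_univ, Nat.card_eq_fintype_card, Fintype.card_fin] at h
  omega

lemma exists_two {S : Set (Fin 4)} (h : S.ncard ≤ 2) : ∃ j l, j ≠ l ∧ j ∉ S ∧ l ∉ S := by
  obtain ⟨j, hj⟩ := exists_one (S := S) (by omega)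
  have h1 : (insert j S).ncard ≤ 3 := (Set.ncard_insert_le _ _).trans (by omega)
  obtain ⟨l, hl⟩ := exists_one h1
  rw [Set.mem_insert_iff, not_or] at hl
  exact ⟨j, l, fun h => hl.1 h.symm, hj, hl.2⟩

lemma indep_of_comb {κ σ β : Fin 4 → ℚ} (H : OK κ σ β) {I : Set E} (hI : Comb I) :
    ∀ c ∈ LinearMap.ker (Phi κ σ), c ∈ Sup ℚ I → c = 0 := by
  intro c hc hcI
  rw [LinearMap.mem_ker] at hc
  obtain ⟨h2, h3, h23, h123⟩ := hI
  obtain ⟨t, t', htt, hS2, hS2a, hS2b⟩ := pair_cover h2
  obtain ⟨s, s', hss, hS3, hS3a, hS3b⟩ := pair_cover h3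
  have ht : ∀ i, i ≠ t → i ≠ t' → c (e2 i) = 0 := by
    intro i hi hi'
    apply hcI
    intro h
    rcases hS2 h with h | h
    · exact hi h
    · exact hi' h
  have hs : ∀ i, i ≠ s → i ≠ s' → c (e3 i) = 0 := by
    intro i hi hi'
    apply hcI
    intro h
    rcases hS3 h with h | h
    · exact hi h
    · exact hi' h
  set x := c (e2 t) with hx
  set y := c (e2 t') with hy
  set z := c (e3 s) with hz
  set w := c (e3 s') with hw
  have s1 := sum_two (w := fun _ => 1) (c := fun i => c (e2 i)) htt ht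
  have s2 := sum_two (w := par) (c := fun i => c (e2 i)) htt ht
  have s3 := sum_two (w := fun _ => 1) (c := fun i => c (e3 i)) hss hs
  have s4 := sum_two (w := par) (c := fun i => c (e3 i)) hss hs
  simp only [one_mul] at s1 s3
  have hfst : x + y + (z + w) = 0 := by
    have := congrArg Prod.fst hc
    rw [Phi_fst, s1, s3] at this
    exact this
  have hsnd : ∀ j, c (e1 j) + (par t * x + par t' * y) + κ j * (z + w) +
      σ j * (par s * z + par s' * w) = 0 := by
    intro j
    have := congrFun (congrArg Prod.snd hc) j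
    rw [Phi_snd, s2, s3, s4] at this
    exact this
  have hE : ∀ j, j ∉ e1 ⁻¹' I → (par t * x + par t' * y) + κ j * (z + w) +
      σ j * (par s * z + par s' * w) = 0 := by
    intro j hj
    have h4 := hsnd j
    rw [hcI (e1 j) hj, zero_add] at h4
    exact h4
  -- it suffices to treat the two lines
  suffices hsuff : x = 0 ∧ y = 0 ∧ z = 0 ∧ w = 0 by
    obtain ⟨hx0, hy0, hz0, hw0⟩ := hsuff
    funext i
    rcases i with j | i | i
    · have h4 := hsnd j
      rw [hx0, hy0, hz0, hw0] at h4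
      simpa using h4
    · by_cases h5 : i = t
      · rw [h5]; exact hx0
      · by_cases h6 : i = t'
        · rw [h6]; exact hy0
        · exact ht i h5 h6
    · by_cases h5 : i = s
      · rw [h5]; exact hz0
      · by_cases h6 : i = s'
        · rw [h6]; exact hw0
        · exact hs i h5 h6
  set n2 := (e2 ⁻¹' I).ncard with hn2
  set n3 := (e3 ⁻¹' I).ncard with hn3
  set n1 := (e1 ⁻¹' I).ncard with hn1
  have hy0 : n2 ≤ 1 → y = 0 := fun h => hcI _ (hS2a h)
  have hx0 : n2 = 0 → x = 0 := fun h => hcI _ (hS2b h)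
  have hw0 : n3 ≤ 1 → w = 0 := fun h => hcI _ (hS3a h)
  have hz0 : n3 = 0 → z = 0 := fun h => hcI _ (hS3b h)
  have hcases : (n2 = 2 ∧ n3 = 1) ∨ (n2 = 1 ∧ n3 = 2) ∨ (n2 = 2 ∧ n3 = 0) ∨
      (n2 = 1 ∧ n3 = 1) ∨ (n2 = 0 ∧ n3 = 2) ∨ (n2 ≤ 1 ∧ n3 = 0) ∨ (n2 = 0 ∧ n3 ≤ 1) := by omega
  rcases hcases with ⟨ha, hb⟩ | ⟨ha, hb⟩ | ⟨ha, hb⟩ | ⟨ha, hb⟩ | ⟨ha, hb⟩ | ⟨ha, hb⟩ | ⟨ha, hb⟩
  · obtain ⟨j, l, hjl, hj, hl⟩ := exists_two (S := e1 ⁻¹' I) (by omega)
    have e1 := hE j hj
    have e2 := hE l hl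
    have hw1 := hw0 (by omega)
    rw [hw1] at e1 e2 hfst
    have e3 : ((κ j + par s * σ j) - (κ l + par s * σ l)) * z = 0 := by linarith
    have hz1 : z = 0 := (mul_eq_zero.1 e3).resolve_left (sub_ne_zero.2 (H.h3 j l s hjl))
    rw [hz1] at e1 hfst
    obtain ⟨h5, h6⟩ := lin_two htt (x := x) (y := y) (by linarith) (by linarith)
    exact ⟨h5, h6, hz1, hw1⟩
  · obtain ⟨j, l, hjl, hj, hl⟩ := exists_two (S := e1 ⁻¹' I) (by omega)
    have e1 := hE j hj
    have e2 := hE l hl
    have hy1 := hy0 (by omega)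
    rw [hy1] at e1 e2 hfst
    have hzw : z + w = -x := by linarith
    rw [hzw] at e1 e2
    have e3 : ((κ j - par t) * σ l - (κ l - par t) * σ j) * x = 0 := by
      linear_combination (-σ l) * e1 + σ j * e2
    have hx1 : x = 0 := (mul_eq_zero.1 e3).resolve_left (sub_ne_zero.2 (H.h4 j l t hjl))
    rw [hx1] at e1 hzw
    have e4 : σ j * (par s * z + par s' * w) = 0 := by linarith
    have e5 := (mul_eq_zero.1 e4).resolve_left (H.h1 j)
    obtain ⟨h5, h6⟩ := lin_two hss (x := z) (y := w) (by linarith) e5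
    exact ⟨hx1, hy1, h5, h6⟩
  · obtain ⟨j, hj⟩ := exists_one (S := e1 ⁻¹' I) (by omega)
    have e1 := hE j hj
    have hz1 := hz0 hb
    have hw1 := hw0 (by omega)
    rw [hz1, hw1] at e1 hfst
    obtain ⟨h5, h6⟩ := lin_two htt (x := x) (y := y) (by linarith) (by linarith)
    exact ⟨h5, h6, hz1, hw1⟩
  · obtain ⟨j, hj⟩ := exists_one (S := e1 ⁻¹' I) (by omega)
    have e1 := hE j hj
    have hy1 := hy0 (by omega)
    have hw1 := hw0 (by omega)
    rw [hy1, hw1] at e1 hfst
    have hx1 : x = -z := by linarith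
    rw [hx1] at e1
    have e3 : ((κ j + par s * σ j) - par t) * z = 0 := by linarith
    have hz1 : z = 0 := (mul_eq_zero.1 e3).resolve_left (sub_ne_zero.2 (H.h2 j s t))
    exact ⟨by rw [hx1, hz1, neg_zero], hy1, hz1, hw1⟩
  · obtain ⟨j, hj⟩ := exists_one (S := e1 ⁻¹' I) (by omega)
    have e1 := hE j hj
    have hx1 := hx0 ha
    have hy1 := hy0 (by omega)
    rw [hx1, hy1] at e1 hfst
    have hzw : z + w = 0 := by linarith
    rw [hzw] at e1
    have e4 : σ j * (par s * z + par s' * w) = 0 := by linarith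
    have e5 := (mul_eq_zero.1 e4).resolve_left (H.h1 j)
    obtain ⟨h5, h6⟩ := lin_two hss (x := z) (y := w) hzw e5
    exact ⟨hx1, hy1, h5, h6⟩
  · have hz1 := hz0 hb
    have hw1 := hw0 (by omega)
    have hy1 := hy0 ha
    rw [hz1, hw1, hy1] at hfst
    exact ⟨by linarith, hy1, hz1, hw1⟩
  · have hx1 := hx0 ha
    have hw1 := hw0 hb
    have hy1 := hy0 (by omega)
    rw [hx1, hw1, hy1] at hfst
    exact ⟨hx1, hy1, by linarith, hw1⟩

/-- The independent sets of the column matroid. -/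
theorem indep_iff_comb {κ σ β : Fin 4 → ℚ} (H : OK κ σ β) {I : Set E} :
    (colMatroid (mat κ σ)).Indep I ↔ Comb I := by
  rw [colMatroid_indep, dep_mat]
  exact ⟨comb_of_indep H, indep_of_comb H⟩

/-- All configurations have the same column matroid. -/
theorem colMatroid_eq {κ σ β κ' σ' β' : Fin 4 → ℚ} (H : OK κ σ β) (H' : OK κ' σ' β') :
    colMatroid (mat κ σ) = colMatroid (mat κ' σ') := by
  refine Matroid.ext_indep (by rw [colMatroid_ground, colMatroid_ground]) ?_
  intro I _
  rw [indep_iff_comb H, indep_iff_comb H']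

/-- The parameters of the second matrix. -/
def gam : Fin 4 → ℚ := fun j => 10 * ((j.val : ℚ) + 1)

lemma gam_inj : Injective gam := by
  intro i j h
  unfold gam at h
  have : (i.val : ℚ) = j.val := by linarith
  exact Fin.ext (by exact_mod_cast this)

lemma okA' : OK gam 1 gam where
  alt := Or.inr ⟨rfl, rfl⟩
  inj := gam_inj
  h1 := fun j => one_ne_zero
  h2 := by
    intro j s t h
    have h1 := one_le_par s
    have h2 := par_le t
    have h3 : (0 : ℚ) ≤ j.val := Nat.cast_nonneg _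
    simp only [Pi.one_apply, mul_one, gam] at h
    linarith
  h3 := by
    intro j l s hjl h
    simp only [Pi.one_apply, mul_one, add_left_inj] at h
    exact hjl (gam_inj h)
  h4 := by
    intro j l t hjl h
    simp only [Pi.one_apply, mul_one, sub_left_inj] at h
    exact hjl (gam_inj h)

end Pool.Agent.Lib.MP_a7207a_co
end

section

/-!
# The upper bound: the matrix depth of the second matrix is at most four
-/

set_option linter.unusedSectionVars false

namespace Pool.Agent.Lib.MP_a7207a_co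

open Set Matroid Function Module

section General

variable {F : Type*} [Field F] {α : Type*} [Fintype α]

/-- Separators. -/
lemma sep_rel {L : Submodule F (α → F)} {Y S : Set α} (hY : ∀ c ∈ L, Y.indicator c ∈ L)
    {x y : α} (hx : x ∈ Y) (hy : y ∉ Y) : ¬ Rel L S x y := by
  rintro ⟨d, hd, -, hdx, hdy⟩
  have h1 := hd.min _ (hY d hd.mem) (by
    intro h
    have := congrFun h x
    rw [Set.indicator_of_mem hx] at this
    exact hdx this) (by
    intro i hi
    by_contra hdi
    apply hi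
    have : d i = 0 := by simpa using hdi
    by_cases hiY : i ∈ Y
    · rw [Set.indicator_of_mem hiY]; exact this
    · rw [Set.indicator_of_notMem hiY])
  have h2 : y ∈ support (Y.indicator d) := by rw [h1]; exact hdy
  exact h2 (Set.indicator_of_notMem hy d)

lemma single_word [DecidableEq α] {L : Submodule F (α → F)} {d : α → F} (hd : d ∈ L) {x : α}
    (hdx : d x ≠ 0) (h : ∀ i, i ≠ x → d i = 0) : Pi.single x (1 : F) ∈ L := by
  have h1 : d = d x • Pi.single x (1 : F) := by
    funext i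
    by_cases hi : i = x
    · subst hi; simp
    · rw [h i hi]; simp [hi]
  rw [h1] at hd
  have := L.smul_mem (d x)⁻¹ hd
  rwa [smul_smul, inv_mul_cancel₀ hdx, one_smul] at this

lemma no_rel_of_single [DecidableEq α] {L : Submodule F (α → F)} {S : Set α} {x y : α}
    (hx : Pi.single x (1 : F) ∈ L) (hxy : x ≠ y) : ¬ Rel L S x y := by
  rintro ⟨d, hd, -, hdx, hdy⟩
  have h2 := hd.min _ hx (by
    intro h
    have := congrFun h x
    simp at this) (by
    intro i hi
    have : i = x := by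
      by_contra h
      exact hi (by simp [h])
    rw [this]; exact hdx)
  have h3 : y ∈ support (Pi.single x (1 : F) : α → F) := by rw [h2]; exact hdy
  apply h3
  simp [Ne.symm hxy]

lemma ne_of_connected {m m' : ℕ} {A : Matrix (Fin m) α F} {A' : Matrix (Fin m') α F} {S : Set α}
    (h : IsConnected (colMatroid A ↾ S)) (h' : ¬ IsConnected (colMatroid A' ↾ S)) :
    colMatroid A' ↾ S ≠ colMatroid A ↾ S := by
  intro heq
  rw [heq] at h'
  exact h' h

/-- A parallel class has depth at most two. -/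
lemma depth_parallel [DecidableEq α] {m : ℕ} {A : Matrix (Fin (m + 1)) α F} {S : Set α}
    (h1 : ∀ x ∈ S, Pi.single x (1 : F) ∉ dep A)
    (h2 : ∀ x ∈ S, ∀ y ∈ S, Pi.single x (1 : F) - Pi.single y (1 : F) ∈ dep A) :
    MatrixDepthLE A S 2 := by
  by_cases hs : S.Subsingleton
  · exact MatrixDepthLE.small A S 1 hs
  have hconn : IsConnected (colMatroid A ↾ S) := by
    rw [isConnected_iff]
    intro x hx y hy hxy
    have hcx : (Pi.single x (1 : F) - Pi.single y (1 : F) : α → F) x = 1 := by simp [hxy]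
    have hcy : (Pi.single x (1 : F) - Pi.single y (1 : F) : α → F) y = -1 := by
      simp [Ne.symm hxy]
    have hsup : support (Pi.single x (1 : F) - Pi.single y (1 : F) : α → F) = {x, y} := by
      ext i
      simp only [Function.mem_support, Set.mem_insert_iff, Set.mem_singleton_iff]
      constructor
      · intro h
        by_contra hcon
        rw [not_or] at hcon
        apply h
        simp [hcon.1, hcon.2]
      · rintro (rfl | rfl)
        · rw [hcx]; exact one_ne_zero
        · rw [hcy]; exact neg_ne_zero.2 one_ne_zero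
    refine ⟨Pi.single x 1 - Pi.single y 1, ⟨h2 x hx y hy, ?_, ?_⟩, ?_, ?_, ?_⟩
    · intro h
      have := congrFun h x
      rw [hcx] at this
      exact one_ne_zero this
    · intro d hd hd0 hds
      rw [hsup] at hds ⊢
      apply Subset.antisymm hds
      have hout : ∀ i, i ≠ x → i ≠ y → d i = 0 := by
        intro i hi hi'
        by_contra hdi
        rcases hds hdi with h | h
        · exact hi h
        · exact hi' h
      have hdx : d x ≠ 0 := by
        intro hdx
        have hdy : d y ≠ 0 := by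
          intro hdy
          apply hd0
          funext i
          by_cases hi : i = x
          · rw [hi]; exact hdx
          · by_cases hi' : i = y
            · rw [hi']; exact hdy
            · exact hout i hi hi'
        refine h1 y hy (single_word hd hdy fun i hi => ?_)
        by_cases hi' : i = x
        · rw [hi']; exact hdx
        · exact hout i hi' hi
      have hdy : d y ≠ 0 := by
        intro hdy
        refine h1 x hx (single_word hd hdx fun i hi => ?_)
        by_cases hi' : i = y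
        · rw [hi']; exact hdy
        · exact hout i hi hi'
      rintro i (rfl | hi)
      · exact hdx
      · rw [Set.mem_singleton_iff.1 hi]; exact hdy
    · rw [hsup]
      rintro i (rfl | hi)
      · exact hx
      · rw [Set.mem_singleton_iff.1 hi]; exact hy
    · rw [hcx]; exact one_ne_zero
    · rw [hcy]; exact neg_ne_zero.2 one_ne_zero
  have hns := hs
  rw [Set.not_subsingleton_iff] at hs
  obtain ⟨x, hx, y, hy, hxy⟩ := hs
  have hv : A.mulVec (Pi.single x 1) ≠ 0 := fun h => h1 x hx (mem_dep.2 h)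
  obtain ⟨A', hA', hdep⟩ := exists_cstep A hv
  have h3 : ∀ z ∈ S, Pi.single z (1 : F) ∈ dep A' := by
    intro z hz
    rw [hdep]
    refine ⟨1, ?_⟩
    have := mem_dep.1 (h2 z hz x hx)
    rw [Matrix.mulVec_sub, sub_eq_zero] at this
    rw [this, one_smul]
  have h4 : ∀ a ∈ S, ∀ b ∈ S, a ≠ b → ¬ Rel (dep A') S a b :=
    fun a ha b _ hab => no_rel_of_single (h3 a ha) hab
  refine MatrixDepthLE.cstep A A' S 1 hconn hns hA' (ne_of_connected hconn ?_) (depth_one h4)
  intro hc
  exact h4 x hx y hy hxy (rel_of_connected hc hx hy hxy)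

end General

/-- The map of the second matrix. -/
abbrev PB : (E → ℚ) →ₗ[ℚ] V := Phi gam 1

lemma mat_mulVec (κ σ : Fin 4 → ℚ) (c : E → ℚ) :
    (mat κ σ).mulVec c = Fin.cons (Phi κ σ c).1 (Phi κ σ c).2 := by
  have h0 : ∑ j, mat κ σ 0 j * c j = (Phi κ σ c).1 := by
    rw [Phi_fst]
    simp [mat, Fintype.sum_sum_type]
  have h1 : ∀ i : Fin 4, ∑ j, mat κ σ i.succ j * c j = (Phi κ σ c).2 i := by
    intro i
    rw [Phi_snd]
    simp only [mat, Fin.cases_succ, Fintype.sum_sum_type, Sum.elim_inl, Sum.elim_inr, ite_mul,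
      one_mul, zero_mul, Finset.sum_ite_eq', Finset.mem_univ, if_true]
    have h2 : ∑ s, (κ i + par s * σ i) * c (Sum.inr (Sum.inr s)) =
        κ i * ∑ s, c (e3 s) + σ i * ∑ s, par s * c (e3 s) := by
      rw [Finset.mul_sum, Finset.mul_sum, ← Finset.sum_add_distrib]
      exact Finset.sum_congr rfl fun s _ => by ring
    rw [h2]
    ring
  funext i
  refine Fin.cases ?_ (fun j => ?_) i
  · exact h0
  · exact h1 j

lemma univ_not_subsingleton : ¬ (univ : Set E).Subsingleton := by
  intro h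
  have := h (mem_univ (e1 0)) (mem_univ (e1 1))
  simp at this

/-- The position after the first step: dependencies. -/
lemma exists_B1 : ∃ B : Matrix (Fin 4) E ℚ, IsCStep (mat gam 1) B ∧
    dep B = (Submodule.span ℚ {((0, fun _ => 1) : V)}).comap PB := by
  have hv : (Fin.cons 0 (fun _ => 1) : Fin 5 → ℚ) ≠ 0 := by
    intro h
    have h1 : (Fin.cons 0 (fun _ => 1) : Fin 5 → ℚ) (Fin.succ 0) = 0 := by rw [h]; rfl
    rw [Fin.cons_succ] at h1
    exact one_ne_zero h1
  obtain ⟨B, hB, hdep⟩ := exists_cstep (mat gam 1) hv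
  refine ⟨B, hB, ?_⟩
  ext c
  rw [hdep, Submodule.mem_comap, Submodule.mem_span_singleton, mat_mulVec]
  constructor
  · rintro ⟨x, hx⟩
    refine ⟨x, ?_⟩
    refine Prod.ext ?_ ?_
    · have := congrFun hx 0
      simpa using this.symm
    · funext j
      have := congrFun hx j.succ
      simpa using this.symm
  · rintro ⟨x, hx⟩
    refine ⟨x, ?_⟩
    rw [← hx]
    funext i
    refine Fin.cases ?_ (fun j => ?_) i
    · simp
    · simp

lemma mem_line {c : E → ℚ} : c ∈ (Submodule.span ℚ {((0, fun _ => 1) : V)}).comap PB ↔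
    ∑ t, c (e2 t) + ∑ s, c (e3 s) = 0 ∧ ∃ x, ∀ j, c (e1 j) + ∑ t, par t * c (e2 t) +
      gam j * ∑ s, c (e3 s) + ∑ s, par s * c (e3 s) = x := by
  rw [Submodule.mem_comap, Submodule.mem_span_singleton]
  constructor
  · rintro ⟨x, hx⟩
    have h1 := congrArg Prod.fst hx
    rw [Phi_fst] at h1
    refine ⟨by rw [← h1]; simp, x, fun j => ?_⟩
    have h2 := congrFun (congrArg Prod.snd hx) j
    rw [Phi_snd] at h2
    simp only [Prod.smul_snd, Pi.smul_apply, smul_eq_mul, mul_one, Pi.one_apply, one_mul] at h2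
    exact h2.symm
  · rintro ⟨h1, x, h2⟩
    refine ⟨x, ?_⟩
    refine Prod.ext ?_ ?_
    · rw [Phi_fst, h1]; simp
    · funext j
      rw [Phi_snd]
      simp only [Prod.smul_snd, Pi.smul_apply, smul_eq_mul, mul_one, Pi.one_apply, one_mul]
      exact (h2 j).symm

/-- The position after two steps. -/
lemma exists_B2 {B : Matrix (Fin 4) E ℚ}
    (hB : dep B = (Submodule.span ℚ {((0, fun _ => 1) : V)}).comap PB) :
    ∃ B' : Matrix (Fin 5) E ℚ, IsDStep B B' ∧ ∀ c, c ∈ dep B' ↔
      (∃ x, ∀ j, c (e1 j) = x) ∧ ∑ t, c (e2 t) = 0 ∧ ∑ s, c (e3 s) = 0 := by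
  obtain ⟨B', hB', hdep⟩ := exists_dstep B (Sum.elim 0 (Sum.elim 0 1) : E → ℚ)
  refine ⟨B', hB', fun c => ?_⟩
  have hsum : ∑ j, (Sum.elim 0 (Sum.elim 0 1) : E → ℚ) j * c j = ∑ s, c (e3 s) := by
    simp [Fintype.sum_sum_type]
  rw [hdep, hsum, hB, mem_line]
  constructor
  · rintro ⟨⟨h1, x, hx⟩, h3⟩
    rw [h3, add_zero] at h1
    refine ⟨⟨x - ∑ t, par t * c (e2 t) - ∑ s, par s * c (e3 s), fun j => ?_⟩, h1, h3⟩
    have := hx j
    rw [h3, mul_zero, add_zero] at this
    linarith
  · rintro ⟨⟨x, hx⟩, h2, h3⟩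
    refine ⟨⟨by rw [h2, h3, add_zero], x + ∑ t, par t * c (e2 t) + ∑ s, par s * c (e3 s),
      fun j => ?_⟩, h3⟩
    rw [h3, hx, mul_zero, add_zero]

section Final

variable {B : Matrix (Fin 5) E ℚ} (hB : ∀ c, c ∈ dep B ↔
  (∃ x, ∀ j, c (e1 j) = x) ∧ ∑ t, c (e2 t) = 0 ∧ ∑ s, c (e3 s) = 0)

include hB

lemma sep1 : ∀ c ∈ dep B, (range e1).indicator c ∈ dep B := by
  intro c hc
  rw [hB] at hc ⊢
  obtain ⟨⟨x, hx⟩, -, -⟩ := hc
  refine ⟨⟨x, fun j => ?_⟩, ?_, ?_⟩
  · rw [Set.indicator_of_mem (mem_range_self j)]; exact hx j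
  · exact Finset.sum_eq_zero fun t _ => Set.indicator_of_notMem (by simp) c
  · exact Finset.sum_eq_zero fun t _ => Set.indicator_of_notMem (by simp) c

lemma sep2 : ∀ c ∈ dep B, (range e2).indicator c ∈ dep B := by
  intro c hc
  rw [hB] at hc ⊢
  obtain ⟨-, h2, -⟩ := hc
  refine ⟨⟨0, fun j => ?_⟩, ?_, ?_⟩
  · exact Set.indicator_of_notMem (by simp) c
  · rw [← h2]
    exact Finset.sum_congr rfl fun t _ => Set.indicator_of_mem (mem_range_self t) c
  · exact Finset.sum_eq_zero fun t _ => Set.indicator_of_notMem (by simp) c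

lemma sep3 : ∀ c ∈ dep B, (range e3).indicator c ∈ dep B := by
  intro c hc
  rw [hB] at hc ⊢
  obtain ⟨-, -, h3⟩ := hc
  refine ⟨⟨0, fun j => ?_⟩, ?_, ?_⟩
  · exact Set.indicator_of_notMem (by simp) c
  · exact Finset.sum_eq_zero fun t _ => Set.indicator_of_notMem (by simp) c
  · rw [← h3]
    exact Finset.sum_congr rfl fun t _ => Set.indicator_of_mem (mem_range_self t) c

lemma depth_T2 : MatrixDepthLE B (range e2) 2 := by
  apply depth_parallel
  · rintro _ ⟨t, rfl⟩ h
    have := ((hB _).1 h).2.1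
    rw [Finset.sum_eq_single t] at this
    · simp at this
    · intro b _ hb
      simp [hb]
    · intro h; exact absurd (Finset.mem_univ _) h
  · rintro _ ⟨t, rfl⟩ _ ⟨t', rfl⟩
    rw [hB]
    refine ⟨⟨0, fun j => by simp⟩, ?_, ?_⟩
    · simp only [Pi.sub_apply, Finset.sum_sub_distrib]
      have key : ∀ t : Fin 8, ∑ x, (Pi.single (e2 t) (1 : ℚ) : E → ℚ) (e2 x) = 1 := by
        intro t
        rw [Finset.sum_eq_single t]
        · simp
        · intro b _ hb
          simp [hb]
        · intro h; exact absurd (Finset.mem_univ _) h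
      rw [key, key, sub_self]
    · simp

lemma depth_T3 : MatrixDepthLE B (range e3) 2 := by
  apply depth_parallel
  · rintro _ ⟨t, rfl⟩ h
    have := ((hB _).1 h).2.2
    rw [Finset.sum_eq_single t] at this
    · simp at this
    · intro b _ hb
      simp [hb]
    · intro h; exact absurd (Finset.mem_univ _) h
  · rintro _ ⟨t, rfl⟩ _ ⟨t', rfl⟩
    rw [hB]
    refine ⟨⟨0, fun j => by simp⟩, ?_, ?_⟩
    · simp
    · simp only [Pi.sub_apply, Finset.sum_sub_distrib]
      have key : ∀ t : Fin 8, ∑ x, (Pi.single (e3 t) (1 : ℚ) : E → ℚ) (e3 x) = 1 := by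
        intro t
        rw [Finset.sum_eq_single t]
        · simp
        · intro b _ hb
          simp [hb]
        · intro h; exact absurd (Finset.mem_univ _) h
      rw [key, key, sub_self]

lemma conn_T1 : IsConnected (colMatroid B ↾ range e1) := by
  apply isConnected_of_conn
  intro Y hY hYn hYne
  obtain ⟨y, hy⟩ := hYn
  obtain ⟨j, rfl⟩ := hY hy
  have : ∃ l, e1 l ∉ Y := by
    by_contra hcon
    push Not at hcon
    apply hYne
    apply Subset.antisymm hY
    rintro _ ⟨l, rfl⟩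
    exact hcon l
  obtain ⟨l, hl⟩ := this
  refine ⟨Sum.elim 1 0, ?_, ?_, ?_⟩
  · rw [hB]
    exact ⟨⟨1, fun j => rfl⟩, by simp, by simp⟩
  · intro i hi
    rcases i with k | k
    · exact absurd ⟨k, rfl⟩ hi
    · rfl
  · rw [hB]
    rintro ⟨⟨x, hx⟩, -, -⟩
    have h1 := hx j
    have h2 := hx l
    rw [Set.indicator_of_mem hy] at h1
    rw [Set.indicator_of_notMem hl] at h2
    rw [← h2] at h1
    exact one_ne_zero (α := ℚ) h1

lemma depth_T1 : MatrixDepthLE B (range e1) 2 := by
  obtain ⟨B', hB', hdep⟩ := exists_dstep B (Pi.single (e1 0) 1 : E → ℚ)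
  have h4 : ∀ a ∈ range e1, ∀ b ∈ range e1, a ≠ b → ¬ Rel (dep B') (range e1) a b := by
    rintro _ ⟨j, rfl⟩ b _ _ ⟨d, hd, -, hdx, -⟩
    obtain ⟨h1, h2⟩ := (hdep d).1 hd.mem
    obtain ⟨⟨x, hx⟩, -, -⟩ := (hB d).1 h1
    have h3 : d (e1 0) = 0 := by
      rw [Finset.sum_eq_single (e1 0)] at h2
      · simpa using h2
      · intro b _ hb
        simp [hb]
      · intro h; exact absurd (Finset.mem_univ _) h
    apply hdx
    rw [hx j, ← hx 0, h3]
  have hns : ¬ (range e1).Subsingleton := by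
    intro h
    have := h ⟨0, rfl⟩ ⟨1, rfl⟩
    simp at this
  refine MatrixDepthLE.dstep B B' (range e1) 1 (conn_T1 hB) hns hB'
    (ne_of_connected (conn_T1 hB) ?_) (depth_one h4)
  intro hc
  exact h4 (e1 0) ⟨0, rfl⟩ (e1 1) ⟨1, rfl⟩ (by simp) (rel_of_connected hc ⟨0, rfl⟩ ⟨1, rfl⟩
    (by simp))

lemma conn_T2 : Linked (colMatroid B ↾ univ) (range e2) := by
  apply linked_of_conn (subset_univ _)
  intro Y hY hYn hYne
  obtain ⟨y, hy⟩ := hYn
  obtain ⟨j, rfl⟩ := hY hy
  have : ∃ l, e2 l ∉ Y := by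
    by_contra hcon
    push Not at hcon
    apply hYne
    apply Subset.antisymm hY
    rintro _ ⟨l, rfl⟩
    exact hcon l
  obtain ⟨l, hl⟩ := this
  have key : ∀ t : Fin 8, ∑ x, (Pi.single (e2 t) (1 : ℚ) : E → ℚ) (e2 x) = 1 := by
    intro t
    rw [Finset.sum_eq_single t]
    · simp
    · intro b _ hb
      simp [hb]
    · intro h; exact absurd (Finset.mem_univ _) h
  refine ⟨Pi.single (e2 j) 1 - Pi.single (e2 l) 1, ?_, ?_, ?_⟩
  · rw [hB]
    refine ⟨⟨0, fun j => by simp⟩, ?_, ?_⟩
    · simp only [Pi.sub_apply, Finset.sum_sub_distrib]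
      rw [key, key, sub_self]
    · simp
  · intro i hi
    have h1 : i ≠ e2 j := fun h => hi (h ▸ ⟨j, rfl⟩)
    have h2 : i ≠ e2 l := fun h => hi (h ▸ ⟨l, rfl⟩)
    simp [h1, h2]
  · rw [hB]
    rintro ⟨-, h2, -⟩
    have h3 : Y.indicator (Pi.single (e2 j) (1 : ℚ) - Pi.single (e2 l) 1 : E → ℚ) =
        Pi.single (e2 j) 1 := by
      funext i
      by_cases hi : i ∈ Y
      · rw [Set.indicator_of_mem hi]
        have : i ≠ e2 l := fun h => hl (h ▸ hi)
        simp [this]
      · rw [Set.indicator_of_notMem hi]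
        have : i ≠ e2 j := fun h => hi (h ▸ hy)
        simp [this]
    rw [h3, key] at h2
    exact one_ne_zero h2

lemma conn_T3 : Linked (colMatroid B ↾ univ) (range e3) := by
  apply linked_of_conn (subset_univ _)
  intro Y hY hYn hYne
  obtain ⟨y, hy⟩ := hYn
  obtain ⟨j, rfl⟩ := hY hy
  have : ∃ l, e3 l ∉ Y := by
    by_contra hcon
    push Not at hcon
    apply hYne
    apply Subset.antisymm hY
    rintro _ ⟨l, rfl⟩
    exact hcon l
  obtain ⟨l, hl⟩ := this
  have key : ∀ t : Fin 8, ∑ x, (Pi.single (e3 t) (1 : ℚ) : E → ℚ) (e3 x) = 1 := by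
    intro t
    rw [Finset.sum_eq_single t]
    · simp
    · intro b _ hb
      simp [hb]
    · intro h; exact absurd (Finset.mem_univ _) h
  refine ⟨Pi.single (e3 j) 1 - Pi.single (e3 l) 1, ?_, ?_, ?_⟩
  · rw [hB]
    refine ⟨⟨0, fun j => by simp⟩, ?_, ?_⟩
    · simp
    · simp only [Pi.sub_apply, Finset.sum_sub_distrib]
      rw [key, key, sub_self]
  · intro i hi
    have h1 : i ≠ e3 j := fun h => hi (h ▸ ⟨j, rfl⟩)
    have h2 : i ≠ e3 l := fun h => hi (h ▸ ⟨l, rfl⟩)
    simp [h1, h2]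
  · rw [hB]
    rintro ⟨-, -, h2⟩
    have h3 : Y.indicator (Pi.single (e3 j) (1 : ℚ) - Pi.single (e3 l) 1 : E → ℚ) =
        Pi.single (e3 j) 1 := by
      funext i
      by_cases hi : i ∈ Y
      · rw [Set.indicator_of_mem hi]
        have : i ≠ e3 l := fun h => hl (h ▸ hi)
        simp [this]
      · rw [Set.indicator_of_notMem hi]
        have : i ≠ e3 j := fun h => hi (h ▸ hy)
        simp [this]
    rw [h3, key] at h2
    exact one_ne_zero h2

lemma not_conn : ¬ IsConnected (colMatroid B ↾ univ) := by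
  intro hc
  exact sep_rel (sep1 hB) (x := e1 0) (y := e2 0) ⟨0, rfl⟩ (by simp)
    (rel_of_connected hc (mem_univ _) (mem_univ _) (by simp))

lemma component_eq {X T : Set E} (hX : IsComponent (colMatroid B ↾ univ) X)
    (hT : Linked (colMatroid B ↾ univ) T) (hsep : ∀ c ∈ dep B, T.indicator c ∈ dep B) {x : E}
    (hx : x ∈ X) (hxT : x ∈ T) : X = T := by
  have h1 : X ⊆ T := by
    intro y hy
    by_contra hyT
    have hxy : x ≠ y := fun h => hyT (h ▸ hxT)
    exact sep_rel hsep hxT hyT ((linked_iff.1 hX.1).2 x hx y hy hxy)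
  exact Subset.antisymm h1 (hX.2 hT h1)

lemma depth_B2 : MatrixDepthLE B univ 2 := by
  refine MatrixDepthLE.split B univ 2 (not_conn hB) fun X hX => ?_
  by_cases hXn : X.Nonempty
  · obtain ⟨x, hx⟩ := hXn
    rcases x with j | t | s
    · have hL : Linked (colMatroid B ↾ univ) (range e1) := by
        rw [linked_iff]
        refine ⟨subset_univ _, fun a ha b hb hab => ?_⟩
        exact (rel_of_connected (conn_T1 hB) ha hb hab).mono (subset_univ _)
      rw [component_eq hB hX hL (sep1 hB) hx ⟨j, rfl⟩]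
      exact depth_T1 hB
    · rw [component_eq hB hX (conn_T2 hB) (sep2 hB) hx ⟨t, rfl⟩]
      exact depth_T2 hB
    · rw [component_eq hB hX (conn_T3 hB) (sep3 hB) hx ⟨s, rfl⟩]
      exact depth_T3 hB
  · rw [Set.not_nonempty_iff_eq_empty] at hXn
    rw [hXn]
    exact MatrixDepthLE.small B ∅ 1 Set.subsingleton_empty

end Final

lemma vec_not_line (e : E) : vec gam 1 e ∉ Submodule.span ℚ {((0, fun _ => 1) : V)} := by
  intro h
  obtain ⟨x, hx⟩ := Submodule.mem_span_singleton.1 h
  rcases e with j | t | s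
  · rw [vec_e1] at hx
    obtain ⟨l, hl⟩ := exists_ne j
    have h1 := congrFun (congrArg Prod.snd hx) j
    have h2 := congrFun (congrArg Prod.snd hx) l
    simp only [Prod.smul_snd, Pi.smul_apply, smul_eq_mul, mul_one, Pi.single_eq_same,
      Pi.single_eq_of_ne hl] at h1 h2
    rw [h1] at h2
    exact one_ne_zero h2
  · rw [vec_e2] at hx
    have := congrArg Prod.fst hx
    simp at this
  · rw [vec_e3] at hx
    have := congrArg Prod.fst hx
    simp at this

/-- The matrix depth of the second matrix is at most four. -/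
theorem depth_upper : MatrixDepthLE (mat gam 1) univ 4 := by
  obtain ⟨B, hB, hdepB⟩ := exists_B1
  obtain ⟨B', hB', hdepB'⟩ := exists_B2 hdepB
  have hc0 : IsConnected (colMatroid (mat gam 1) ↾ univ) := by
    apply isConnected_of_conn
    rw [dep_mat]
    have h1 := conn_c okA' (A₁ := ⊥) (f := 0) bot_le
    have h2 : {e | vec gam 1 e ∉ (⊥ : Submodule ℚ V)} = univ := by
      ext e
      simp only [Submodule.mem_bot, Set.mem_ofPred_eq, Set.mem_univ, iff_true]
      exact vec_ne_zero e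
    rw [h2, Submodule.comap_bot] at h1
    exact h1
  have hc1 : IsConnected (colMatroid B ↾ univ) := by
    apply isConnected_of_conn
    rw [hdepB]
    have h1 := conn_c okA' (A₁ := Submodule.span ℚ {((0, fun _ => 1) : V)}) le_rfl
    have h2 : {e | vec gam 1 e ∉ Submodule.span ℚ {((0, fun _ => 1) : V)}} = univ := by
      ext e
      simp only [Set.mem_ofPred_eq, Set.mem_univ, iff_true]
      exact vec_not_line e
    rw [h2] at h1
    exact h1
  have h3 : MatrixDepthLE B univ 3 :=
    MatrixDepthLE.dstep B B' univ 2 hc1 univ_not_subsingleton hB'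
      (ne_of_connected hc1 (not_conn hdepB')) (depth_B2 hdepB')
  refine MatrixDepthLE.cstep (mat gam 1) B univ 3 hc0 univ_not_subsingleton hB ?_ h3
  intro heq
  have h4 : (colMatroid (mat gam 1) ↾ univ).Indep {e2 0, e2 1} := by
    rw [restrict_indep_iff, indep_iff_comb okA']
    refine ⟨?_, subset_univ _⟩
    have i1 : e1 ⁻¹' ({e2 0, e2 1} : Set E) = ∅ := by ext j; simp
    have i2 : e2 ⁻¹' ({e2 0, e2 1} : Set E) = {0, 1} := by ext j; simp
    have i3 : e3 ⁻¹' ({e2 0, e2 1} : Set E) = ∅ := by ext j; simp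
    have i4 : ({0, 1} : Set (Fin 8)).ncard = 2 := Set.ncard_pair (by decide)
    unfold Comb
    rw [i1, i2, i3, i4, Set.ncard_empty, Set.ncard_empty]
    omega
  rw [← heq, restrict_indep_iff, colMatroid_indep] at h4
  have h5 := h4.1 (Pi.single (e2 0) 1 - Pi.single (e2 1) 1) (by
    rw [hdepB, Submodule.mem_comap, map_sub]
    have h6 : PB (Pi.single (e2 0) 1) = (1, fun _ => par 0) := vec_e2 gam 1 0
    have h7 : PB (Pi.single (e2 1) 1) = (1, fun _ => par 1) := vec_e2 gam 1 1
    rw [h6, h7, Submodule.mem_span_singleton]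
    refine ⟨par 0 - par 1, ?_⟩
    ext
    · simp
    · simp) (by
    intro i hi
    simp only [Set.mem_insert_iff, Set.mem_singleton_iff, not_or] at hi
    simp [hi.1, hi.2])
  have h6 := congrFun h5 (e2 0)
  simp at h6

/-- The matroid depth of the common column matroid is at most four. -/
theorem matroid_upper : MatroidDepthLE (colMatroid (mat 0 rho)) 4 := by
  have h1 := matroidDepthLE_of_matrixDepthLE depth_upper
  have h2 : colMatroid (mat gam 1) ↾ univ = colMatroid (mat gam 1) :=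
    (Matroid.restrict_ground_eq_self (colMatroid (mat gam 1)) :
      colMatroid (mat gam 1) ↾ (colMatroid (mat gam 1)).E = _)
  rw [h2, colMatroid_eq okA' okA] at h1
  exact h1

end Pool.Agent.Lib.MP_a7207a_co
end
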